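import Mathlib

/-!
# Definitions for MP_8a30e7_co (polytopes of intermediate dimension with a common skeleton)

We construct a graph which is the graph of a `(e+2)`-polytope and of an `(e+4)`-polytope, but of
no `(e+3)`-polytope (`e = 70`).
-/

open scoped BigOperators
open Polynomial

namespace Pool.Agent.MP8a30e7

/-- Euclidean space of dimension `d`. -/
abbrev E (d : ℕ) := EuclideanSpace ℝ (Fin d)

/-- `p i` is a vertex of the convex hull of the points `p j`: some functional has its strict
maximum at `p i`. -/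
def Vtx {d : ℕ} {ι : Type} (p : ι → E d) (i : ι) : Prop :=
  ∃ f : E d →ₗ[ℝ] ℝ, ∀ j, j ≠ i → f (p j) < f (p i)

/-- The segment from `p i` to `p j` is an edge: some functional takes the same value at `p i`
and `p j` and smaller values at all other points. -/
def Edg {d : ℕ} {ι : Type} (p : ι → E d) (i j : ι) : Prop :=
  ∃ f : E d →ₗ[ℝ] ℝ, f (p i) = f (p j) ∧ ∀ k, k ≠ i → k ≠ j → f (p k) < f (p i)

/-- The poset of nonempty faces of dimension at most one (as in the frozen statement). -/
abbrev Faces {d : ℕ} (X : Set (E d)) : Type :=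
  {F : Set (E d) // F.Nonempty ∧ IsExposed ℝ X F ∧ Module.finrank ℝ (vectorSpan ℝ F) ≤ 1}

/-- The poset of vertices and edges of the graph with adjacency `adj`. -/
abbrev GPos (ι : Type) [DecidableEq ι] (adj : ι → ι → Prop) : Type :=
  {s : Finset ι // (∃ i, s = {i}) ∨ ∃ i j, i ≠ j ∧ adj i j ∧ s = {i, j}}

/-- General position: any `d + 1` of the points are affinely independent. -/
def GP {d : ℕ} {A : Type} (a : A → E d) : Prop :=
  ∀ T : Finset A, T.card = d + 1 → AffineIndependent ℝ (fun t : T => a t)

/-- The origin is in the interior of the convex hull of the `a t` (dual form). -/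
def Surr {d : ℕ} {A : Type} (a : A → E d) : Prop :=
  ∀ z : E d →ₗ[ℝ] ℝ, z ≠ 0 → ∃ t, 0 < z (a t)

/-- `T` is (the vertex set of) a facet, with supporting functional `c`. -/
def IsFacet {d : ℕ} {A : Type} (a : A → E d) (T : Finset A) (c : E d →ₗ[ℝ] ℝ) : Prop :=
  T.card = d ∧ (∀ t ∈ T, c (a t) = 1) ∧ ∀ t, t ∉ T → c (a t) < 1

open Classical in
/-- The facets. -/
noncomputable def facets {d : ℕ} {A : Type} [Fintype A] (a : A → E d) : Finset (Finset A) :=
  Finset.univ.filter (fun T => ∃ c, IsFacet a T c)

open Classical in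
/-- Coordinates of `w` with respect to the vectors `a t`, `t ∈ T` (junk if they do not exist). -/
noncomputable def co {d : ℕ} {A : Type} (a : A → E d) (T : Finset A) (w : E d) : A → ℝ :=
  if h : ∃ l : A → ℝ, (∀ t, t ∉ T → l t = 0) ∧ ∑ t ∈ T, l t • a t = w then h.choose else 0

open Classical in
/-- The elements of `T` with positive coordinate. -/
noncomputable def posi {d : ℕ} {A : Type} (a : A → E d) (w : E d) (T : Finset A) : Finset A :=
  T.filter (fun t => 0 < co a T w t)

/-- `w` is generic: all its coordinates in all facets are nonzero. -/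
def Gen {d : ℕ} {A : Type} [Fintype A] (a : A → E d) (w : E d) : Prop :=
  ∀ T ∈ facets a, ∀ t ∈ T, co a T w t ≠ 0

/-- The point of `E D` whose coordinates are the moments of the functional `L`. -/
noncomputable def vec (D : ℕ) (L : ℝ[X] →ₗ[ℝ] ℝ) : E D :=
  WithLp.toLp 2 (fun k : Fin D => L (X ^ ((k : ℕ) + 1)))

/-- The polynomial `σ ∏_{τ ∈ T} (X - τ)`. -/
noncomputable def gp (T : Finset ℕ) (σ : ℝ) : ℝ[X] := C σ * ∏ τ ∈ T, (X - C (τ : ℝ))

/-- The facets of the cyclic polytope with parameters `0, …, n - 1` in dimension `D`. -/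
def Gale (n D : ℕ) (T : Finset ℕ) (σ : ℝ) : Prop :=
  T ⊆ Finset.range n ∧ T.card = D ∧ (σ = 1 ∨ σ = -1) ∧ ∀ t < n, 0 ≤ (gp T σ).eval (t : ℝ)

/-- The graph: a clique `Fin n` and independent vertices `i : I` joined to `F i`. -/
def Adj {n : ℕ} {I : Type} (F : I → Finset ℕ) : Fin n ⊕ I → Fin n ⊕ I → Prop
  | .inl a, .inl b => a ≠ b
  | .inl a, .inr i => (a : ℕ) ∈ F i
  | .inr i, .inl a => (a : ℕ) ∈ F i
  | .inr _, .inr _ => False

/-- The combinatorial data: a set `R i` (`e` elements, a union of adjacent pairs of the cycle on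
`0, …, n - 1`) and a window `w i, …, w i + 3` outside `R i`. -/
structure Fam (n e : ℕ) (I : Type) where
  R : I → Finset ℕ
  w : I → ℕ
  sg : I → ℝ
  card_R : ∀ i, (R i).card = e
  R_lt : ∀ i, ∀ r ∈ R i, r < n
  w_lt : ∀ i, w i + 3 < n
  w_not : ∀ i, ∀ j < 4, w i + j ∉ R i
  sg_or : ∀ i, sg i = 1 ∨ sg i = -1
  sign : ∀ i, ∀ t < n, t ∉ R i → 0 < sg i * ∏ r ∈ R i, ((t : ℝ) - (r : ℝ))
  triple : ∀ i j, i ≠ j → ∀ a < 3, ∀ b < 3,
    R i ∪ {w i + a, w i + a + 1} ≠ R j ∪ {w j + b, w j + b + 1}
  win : ∀ i j, i ≠ j →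
    R i ∪ {w i, w i + 1, w i + 2, w i + 3} ≠ R j ∪ {w j, w j + 1, w j + 2, w j + 3}

/-- The neighbours of the vertex `i`. -/
def Fam.F {n e : ℕ} {I : Type} (𝔉 : Fam n e I) (i : I) : Finset ℕ :=
  𝔉.R i ∪ {𝔉.w i, 𝔉.w i + 1, 𝔉.w i + 2, 𝔉.w i + 3}

/-- The three words `DMM`, `MDM`, `MMD` (`true` = domino, `false` = monomer). -/
def Tri : List (List Bool) :=
  [[true, false, false], [false, true, false], [false, false, true]]

/-- A packing: pairs (prefix, suffix) such that the words prefix + x + suffix, `x ∈ Tri`, are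
different for different pairs, and so are the words prefix + DD + suffix. The words
prefix + x + suffix have `k` dominoes and `r` monomers. -/
def Good (k r : ℕ) (J : Finset (List Bool × List Bool)) : Prop :=
  (∀ x ∈ J, (x.1 ++ x.2).count true + 1 = k ∧ (x.1 ++ x.2).count false + 2 = r) ∧
  (∀ x ∈ J, ∀ y ∈ J, x ≠ y → ∀ u ∈ Tri, ∀ v ∈ Tri, x.1 ++ u ++ x.2 ≠ y.1 ++ v ++ y.2) ∧
  (∀ x ∈ J, ∀ y ∈ J, x ≠ y → x.1 ++ [true, true] ++ x.2 ≠ y.1 ++ [true, true] ++ y.2)

/-- Tokens: `dd` = DD, `a j` = one of the three words of `Tri`, `s0` = DMD, `s1` = MDD,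
`s2` = MMM. They form a complete prefix code. -/
inductive Tok where
  | dd | a0 | a1 | a2 | s0 | s1 | s2
  deriving DecidableEq

instance : Fintype Tok where
  elems := {.dd, .a0, .a1, .a2, .s0, .s1, .s2}
  complete := by
    intro x
    cases x <;> simp

/-- The word of a token. -/
def tokW : Tok → List Bool
  | .dd => [true, true]
  | .a0 => [true, false, false]
  | .a1 => [false, true, false]
  | .a2 => [false, false, true]
  | .s0 => [true, false, true]
  | .s1 => [false, true, true]
  | .s2 => [false, false, false]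

/-- The possible remainders: the proper prefixes of token words. -/
def Rem : List (List Bool) :=
  [[], [true], [false], [true, false], [false, true], [false, false]]

/-- The word of a list of tokens. -/
def flat (l : List Tok) : List Bool := l.flatMap tokW

/-- `a`-tokens are opening brackets. -/
def isA : Tok → Bool
  | .a0 => true
  | .a1 => true
  | .a2 => true
  | _ => false

/-- the two tokens `s0`, `s1` -/
def isS : Tok → Bool
  | .s0 => true
  | .s1 => true
  | _ => false

/-- One step of bracket matching from the left (`a` = opening, `dd` = closing). -/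
def stepU (h : ℕ) (t : Tok) : ℕ := if isA t then h + 1 else if t = .dd then h - 1 else h

/-- One step of bracket matching from the right. -/
def stepV (t : Tok) (h : ℕ) : ℕ := if t = .dd then h + 1 else if isA t then h - 1 else h

/-- Number of unmatched opening brackets. -/
def up (l : List Tok) : ℕ := l.foldl stepU 0

/-- Number of unmatched closing brackets. -/
def vp (l : List Tok) : ℕ := l.foldr stepV 0

/-- The composition of a list of tokens: `x` tokens `dd`, `y` tokens `a`, `α` tokens `s0`/`s1`,
`β` tokens `s2`. -/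
def Comp (x y α β : ℕ) (l : List Tok) : Prop :=
  l.count .dd = x ∧ l.countP (fun t => isA t) = y ∧ l.countP (fun t => isS t) = α ∧
    l.count .s2 = β

/-- One term of the count: number of pairs `(l₁, l₂)` of token lists with `up l₁ = 0`,
`vp l₂ = 0`, and `x`, `y`, `α`, `β` tokens of the four kinds in `l₁ ++ l₂`. -/
def term (x y α β : ℕ) : ℕ :=
  if x ≤ y then
    (x + y + 1 + α + β).factorial * 3 ^ y * 2 ^ α /
      (x.factorial * (y + 1).factorial * α.factorial * β.factorial)
  else
    (x + y + 1 + α + β).factorial * 3 ^ y * 2 ^ α /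
      ((x + 1).factorial * y.factorial * α.factorial * β.factorial)

/-- The terms for words with `k` dominoes and `r` monomers, remainder with `p` dominoes and `q`
monomers, and `α`, `β` spectators. -/
def termK (k r p q α β : ℕ) : ℕ :=
  let y := (r - (q + α + 3 * β)) / 2 - 1
  let x := (k - (p + 2 * α + (y + 1))) / 2
  if 2 * (y + 1) + q + α + 3 * β = r ∧ 2 * x + (y + 1) + p + 2 * α = k then term x y α β else 0

/-- The total count for words with `k` dominoes and `r` monomers. -/
def total (k r : ℕ) : ℕ :=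
  ∑ α ∈ Finset.range (r + 1), ∑ β ∈ Finset.range (r + 1),
    (termK k r 0 0 α β + termK k r 1 0 α β + termK k r 0 1 α β + 2 * termK k r 1 1 α β +
      termK k r 0 2 α β)

end Pool.Agent.MP8a30e7
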