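import Mathlib
import Pool.Agent.Lib.MP_8a30e7_co.Defs

/-!
# Polynomials nonnegative on `0, …, n - 1` and the facets of cyclic polytopes
-/

open scoped BigOperators
open Polynomial

namespace Pool.Agent.MP8a30e7

namespace Cone

/-- The zeros of `g` among `0, …, n - 1`. -/
noncomputable def Z (n : ℕ) (g : ℝ[X]) : Finset ℕ :=
  (Finset.range n).filter (fun t => g.eval (t : ℝ) = 0)

theorem mem_Z {n : ℕ} {g : ℝ[X]} {t : ℕ} : t ∈ Z n g ↔ t < n ∧ g.eval (t : ℝ) = 0 := by
  simp [Z]

theorem prod_dvd {T : Finset ℕ} {g : ℝ[X]} (h : ∀ t ∈ T, g.eval (t : ℝ) = 0) :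
    (∏ τ ∈ T, (X - C (τ : ℝ))) ∣ g := by
  apply Finset.prod_dvd_of_coprime
  · intro a _ b _ hab
    apply Polynomial.isCoprime_X_sub_C_of_isUnit_sub
    have : (a : ℝ) - (b : ℝ) ≠ 0 := by
      rw [sub_ne_zero]
      exact_mod_cast hab
    exact this.isUnit
  · intro t ht
    exact Polynomial.dvd_iff_isRoot.mpr (h t ht)

theorem natDegree_prod (T : Finset ℕ) : (∏ τ ∈ T, (X - C (τ : ℝ))).natDegree = T.card := by
  rw [Polynomial.natDegree_prod_of_monic _ _ (fun i _ => monic_X_sub_C _),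
    Finset.sum_congr rfl (fun (i : ℕ) _ => natDegree_X_sub_C (i : ℝ))]
  simp

theorem monic_prod (T : Finset ℕ) : (∏ τ ∈ T, (X - C (τ : ℝ))).Monic :=
  Polynomial.monic_prod_of_monic _ _ (fun _ _ => monic_X_sub_C _)

theorem eval_prod_zero {T : Finset ℕ} {t : ℕ} (ht : t ∈ T) :
    (∏ τ ∈ T, (X - C (τ : ℝ))).eval (t : ℝ) = 0 := by
  rw [Polynomial.eval_prod]
  apply Finset.prod_eq_zero ht
  simp

theorem eq_zero_of_card {g : ℝ[X]} {D : ℕ} (hdeg : g.natDegree ≤ D) {T : Finset ℕ}
    (hT : D < T.card) (h : ∀ t ∈ T, g.eval (t : ℝ) = 0) : g = 0 := by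
  by_contra hg
  obtain ⟨q, hq⟩ := prod_dvd h
  have hq0 : q ≠ 0 := by
    rintro rfl
    apply hg
    rw [hq, mul_zero]
  have h1 : g.natDegree = T.card + q.natDegree := by
    rw [hq, (monic_prod T).natDegree_mul' hq0, natDegree_prod]
  omega

theorem card_Z_le {n D : ℕ} {g : ℝ[X]} (hdeg : g.natDegree ≤ D) (h0 : g ≠ 0) :
    (Z n g).card ≤ D := by
  by_contra hc
  push Not at hc
  exact h0 (eq_zero_of_card hdeg hc (fun t ht => (mem_Z.mp ht).2))

theorem base {n D : ℕ} (Λ : ℝ[X] →ₗ[ℝ] ℝ)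
    (hΛ : ∀ T σ, Gale n D T σ → 0 < Λ (gp T σ)) (g : ℝ[X]) (hdeg : g.natDegree ≤ D)
    (hg : ∀ t < n, 0 ≤ g.eval (t : ℝ)) (h0 : g ≠ 0) (hZ : (Z n g).card = D) : 0 < Λ g := by
  obtain ⟨q, hq⟩ := prod_dvd (T := Z n g) (g := g) (fun t ht => (mem_Z.mp ht).2)
  have hq0 : q ≠ 0 := by
    rintro rfl
    apply h0
    rw [hq, mul_zero]
  have h1 : g.natDegree = (Z n g).card + q.natDegree := by
    conv_lhs => rw [hq]
    rw [(monic_prod _).natDegree_mul' hq0, natDegree_prod]
  have h2 : q.natDegree = 0 := by omega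
  obtain ⟨c, hc⟩ := Polynomial.natDegree_eq_zero.mp h2
  have hc0 : c ≠ 0 := by
    rintro rfl
    apply hq0
    rw [← hc, C_0]
  obtain ⟨σ, hσ, hcσ⟩ : ∃ σ : ℝ, (σ = 1 ∨ σ = -1) ∧ c = |c| * σ := by
    rcases lt_or_gt_of_ne hc0 with h | h
    · exact ⟨-1, Or.inr rfl, by rw [abs_of_neg h]; ring⟩
    · exact ⟨1, Or.inl rfl, by rw [abs_of_pos h]; ring⟩
  have hcpos : 0 < |c| := abs_pos.mpr hc0
  have hgeq : g = |c| • gp (Z n g) σ := by
    conv_lhs => rw [hq, ← hc]
    rw [gp, smul_eq_C_mul, ← mul_assoc, ← C_mul, ← hcσ, mul_comm]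
  have hGale : Gale n D (Z n g) σ := by
    refine ⟨?_, hZ, hσ, ?_⟩
    · intro t ht
      exact Finset.mem_range.mpr (mem_Z.mp ht).1
    · intro t ht
      have h3 := hg t ht
      rw [hgeq, eval_smul, smul_eq_mul] at h3
      exact nonneg_of_mul_nonneg_right h3 hcpos
  rw [hgeq, map_smul, smul_eq_mul]
  exact mul_pos hcpos (hΛ _ _ hGale)

theorem exists_h {n D : ℕ} (g : ℝ[X]) (hZ : (Z n g).card < D) :
    ∃ h : ℝ[X], h.natDegree ≤ D ∧ (∀ t ∈ Z n g, h.eval (t : ℝ) = 0) ∧ ∀ μ : ℝ, h ≠ μ • g := by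
  set P : ℝ[X] := ∏ τ ∈ Z n g, (X - C (τ : ℝ)) with hP
  have hPm : P.Monic := monic_prod _
  have hPd : P.natDegree = (Z n g).card := natDegree_prod _
  by_cases h : ∃ μ : ℝ, P = μ • g
  · obtain ⟨μ, hμ⟩ := h
    have hμ0 : μ ≠ 0 := by
      rintro rfl
      apply hPm.ne_zero
      rw [hμ, zero_smul]
    have hgd : g.natDegree = (Z n g).card := by
      rw [← hPd, hμ, Polynomial.natDegree_smul g hμ0]
    refine ⟨P * X, ?_, ?_, ?_⟩
    · rw [Polynomial.natDegree_mul_X hPm.ne_zero, hPd]
      omega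
    · intro t ht
      rw [eval_mul, hP, eval_prod_zero ht, zero_mul]
    · intro ν hν
      have hν0 : ν ≠ 0 := by
        rintro rfl
        rw [zero_smul] at hν
        rcases mul_eq_zero.mp hν with h | h
        · exact hPm.ne_zero h
        · exact X_ne_zero h
      have h1 : (P * X).natDegree = (Z n g).card + 1 := by
        rw [Polynomial.natDegree_mul_X hPm.ne_zero, hPd]
      rw [hν, Polynomial.natDegree_smul g hν0, hgd] at h1
      omega
  · push Not at h
    refine ⟨P, by omega, ?_, h⟩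
    intro t ht
    exact eval_prod_zero ht

theorem aux {n D : ℕ} (hn : D < n) (Λ : ℝ[X] →ₗ[ℝ] ℝ)
    (hΛ : ∀ T σ, Gale n D T σ → 0 < Λ (gp T σ)) (k : ℕ) : ∀ (g : ℝ[X]), g.natDegree ≤ D →
    (∀ t < n, 0 ≤ g.eval (t : ℝ)) → g ≠ 0 → D ≤ (Z n g).card + k → 0 < Λ g := by
  induction k with
  | zero =>
    intro g hdeg hg h0 hk
    exact base Λ hΛ g hdeg hg h0 (le_antisymm (card_Z_le hdeg h0) (by omega))
  | succ k ih =>
    intro g hdeg hg h0 hk
    have hle := card_Z_le (n := n) hdeg h0
    rcases Nat.eq_or_lt_of_le hle with hZ | hZ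
    · exact base Λ hΛ g hdeg hg h0 hZ
    obtain ⟨h, hhd, hhZ, hhg⟩ := exists_h (n := n) g hZ
    set U : Finset ℕ := (Finset.range n).filter (fun t => ¬ (g.eval (t : ℝ) = 0)) with hU
    have hUmem : ∀ t, t ∈ U ↔ t < n ∧ g.eval (t : ℝ) ≠ 0 := by
      intro t
      simp [hU]
    have hUne : U.Nonempty := by
      rw [← Finset.card_pos]
      have h1 : (Z n g).card + U.card = n := by
        have := Finset.card_filter_add_card_filter_not (s := Finset.range n)
          (fun t : ℕ => g.eval (t : ℝ) = 0)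
        rw [Finset.card_range] at this
        exact this
      omega
    have hUpos : ∀ t ∈ U, 0 < g.eval (t : ℝ) := by
      intro t ht
      rw [hUmem] at ht
      exact lt_of_le_of_ne (hg t ht.1) (Ne.symm ht.2)
    obtain ⟨t0, ht0, hmin⟩ := Finset.exists_min_image U
      (fun t => h.eval (t : ℝ) / g.eval (t : ℝ)) hUne
    obtain ⟨t1, ht1, hmax⟩ := Finset.exists_max_image U
      (fun t => h.eval (t : ℝ) / g.eval (t : ℝ)) hUne
    set μ : ℝ := h.eval (t0 : ℝ) / g.eval (t0 : ℝ) with hμ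
    set M : ℝ := h.eval (t1 : ℝ) / g.eval (t1 : ℝ) with hM
    have hsplit : ∀ t < n, t ∈ Z n g ∨ t ∈ U := by
      intro t ht
      by_cases h1 : g.eval (t : ℝ) = 0
      · exact Or.inl (mem_Z.mpr ⟨ht, h1⟩)
      · exact Or.inr ((hUmem t).mpr ⟨ht, h1⟩)
    have hμM : μ < M := by
      rcases lt_or_eq_of_le (hmin t1 ht1) with h1 | h1
      · exact h1
      · exfalso
        have h2 : h - μ • g = 0 := by
          apply eq_zero_of_card (D := D) (T := Finset.range n)
          · refine (natDegree_sub_le _ _).trans (max_le hhd ?_)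
            exact (natDegree_smul_le _ _).trans hdeg
          · rw [Finset.card_range]
            exact hn
          · intro t ht
            rw [Finset.mem_range] at ht
            rw [eval_sub, eval_smul, smul_eq_mul]
            rcases hsplit t ht with h3 | h3
            · rw [hhZ t h3, (mem_Z.mp h3).2]
              ring
            · have h4 := hmin t h3
              have h5 := hmax t h3
              have h6 : h.eval (t : ℝ) / g.eval (t : ℝ) = μ := by
                apply le_antisymm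
                · rw [h1]
                  exact h5
                · exact h4
              have h7 := hUpos t h3
              rw [div_eq_iff h7.ne'] at h6
              rw [h6, sub_self]
        exact hhg μ (sub_eq_zero.mp h2)
    have hZsub : ∀ g' : ℝ[X], ∀ s ∈ U, (∀ t ∈ Z n g, g'.eval (t : ℝ) = 0) →
        g'.eval (s : ℝ) = 0 → (Z n g).card + 1 ≤ (Z n g').card := by
      intro g' s hs h1 h2
      have h3 : s ∉ Z n g := by
        intro h4
        exact ((hUmem s).mp hs).2 (mem_Z.mp h4).2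
      rw [← Finset.card_insert_of_notMem h3]
      apply Finset.card_le_card
      intro t ht
      rcases Finset.mem_insert.mp ht with rfl | ht
      · exact mem_Z.mpr ⟨((hUmem _).mp hs).1, h2⟩
      · exact mem_Z.mpr ⟨(mem_Z.mp ht).1, h1 t ht⟩
    -- the first polynomial
    have hg1 : 0 < Λ (h - μ • g) := by
      apply ih
      · refine (natDegree_sub_le _ _).trans (max_le hhd ?_)
        exact (natDegree_smul_le _ _).trans hdeg
      · intro t ht
        rw [eval_sub, eval_smul, smul_eq_mul]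
        rcases hsplit t ht with h3 | h3
        · rw [hhZ t h3, (mem_Z.mp h3).2]
          simp
        · have h4 := hmin t h3
          have h7 := hUpos t h3
          have h5 : μ ≤ h.eval (t : ℝ) / g.eval (t : ℝ) := h4
          rw [le_div_iff₀ h7] at h5
          linarith
      · intro h1
        exact hhg μ (sub_eq_zero.mp h1)
      · have := hZsub (h - μ • g) t0 ht0 (by
          intro t ht
          rw [eval_sub, eval_smul, hhZ t ht, (mem_Z.mp ht).2]
          simp) (by
          have h7 := hUpos t0 ht0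
          rw [eval_sub, eval_smul, smul_eq_mul, hμ, div_mul_cancel₀ _ h7.ne', sub_self])
        omega
    have hg2 : 0 < Λ (M • g - h) := by
      apply ih
      · refine (natDegree_sub_le _ _).trans (max_le ?_ hhd)
        exact (natDegree_smul_le _ _).trans hdeg
      · intro t ht
        rw [eval_sub, eval_smul, smul_eq_mul]
        rcases hsplit t ht with h3 | h3
        · rw [hhZ t h3, (mem_Z.mp h3).2]
          simp
        · have h4 := hmax t h3
          have h7 := hUpos t h3
          have h5 : h.eval (t : ℝ) / g.eval (t : ℝ) ≤ M := h4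
          rw [div_le_iff₀ h7] at h5
          linarith
      · intro h1
        exact hhg M (sub_eq_zero.mp h1).symm
      · have := hZsub (M • g - h) t1 ht1 (by
          intro t ht
          rw [eval_sub, eval_smul, hhZ t ht, (mem_Z.mp ht).2]
          simp) (by
          have h7 := hUpos t1 ht1
          rw [eval_sub, eval_smul, smul_eq_mul, hM, div_mul_cancel₀ _ h7.ne', sub_self])
        omega
    have hsum : Λ (h - μ • g) + Λ (M • g - h) = (M - μ) * Λ g := by
      rw [map_sub, map_sub, map_smul, map_smul, smul_eq_mul, smul_eq_mul]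
      ring
    have h8 : 0 < (M - μ) * Λ g := by
      rw [← hsum]
      exact add_pos hg1 hg2
    have h9 : 0 < M - μ := by linarith
    exact (mul_pos_iff_of_pos_left h9).mp h8

end Cone

theorem pos_of_gale {n D : ℕ} (hn : D < n) (Λ : ℝ[X] →ₗ[ℝ] ℝ)
    (hΛ : ∀ T σ, Gale n D T σ → 0 < Λ (gp T σ)) (g : ℝ[X]) (hdeg : g.natDegree ≤ D)
    (hg : ∀ t < n, 0 ≤ g.eval (t : ℝ)) (h0 : g ≠ 0) : 0 < Λ g :=
  Cone.aux hn Λ hΛ D g hdeg hg h0 (by omega)

end Pool.Agent.MP8a30e7
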