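import Mathlib
import Pool.Agent.Lib.MP_8a30e7_co.Defs

/-!
# Facets of points in general position (MP_8a30e7_co): basis, extension, pivot
-/

open scoped BigOperators
open Polynomial

namespace Pool.Agent.MP8a30e7

namespace Facet

/-- Moving a supporting functional until it touches one more point. -/
theorem step {d : ℕ} {A : Type} [Fintype A] {a : A → E d} (c z : E d →ₗ[ℝ] ℝ)
    (hc : ∀ t, c (a t) ≤ 1) (hz : ∃ t, 0 < z (a t)) :
    ∃ (θ : ℝ) (s : A), 0 ≤ θ ∧ 0 < z (a s) ∧ θ * z (a s) = 1 - c (a s) ∧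
      ∀ t, (c + θ • z) (a t) ≤ 1 := by
  classical
  obtain ⟨t0, ht0⟩ := hz
  obtain ⟨s, hs, hmin⟩ := Finset.exists_min_image
    (Finset.univ.filter (fun t => 0 < z (a t))) (fun t => (1 - c (a t)) / z (a t))
    ⟨t0, by simpa using ht0⟩
  have hs' : 0 < z (a s) := by simpa using hs
  refine ⟨(1 - c (a s)) / z (a s), s, ?_, hs', ?_, ?_⟩
  · exact div_nonneg (by linarith [hc s]) hs'.le
  · field_simp
  · intro t
    have h0 : 0 ≤ (1 - c (a s)) / z (a s) := div_nonneg (by linarith [hc s]) hs'.le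
    simp only [LinearMap.add_apply, LinearMap.smul_apply, smul_eq_mul]
    by_cases h : 0 < z (a t)
    · have h1 := hmin t (by simpa using h)
      have h2 : (1 - c (a s)) / z (a s) * z (a t) ≤ (1 - c (a t)) / z (a t) * z (a t) :=
        mul_le_mul_of_nonneg_right h1 h.le
      rw [div_mul_cancel₀ _ h.ne'] at h2
      linarith
    · have h2 : (1 - c (a s)) / z (a s) * z (a t) ≤ 0 :=
        mul_nonpos_of_nonneg_of_nonpos h0 (not_lt.mp h)
      linarith [hc t]

end Facet

theorem facet_linInd {d : ℕ} {A : Type} [Fintype A] [DecidableEq A] {a : A → E d} (hgp : GP a)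
    (hs : Surr a) {T : Finset A} {c : E d →ₗ[ℝ] ℝ} (h : IsFacet a T c) :
    LinearIndependent ℝ (fun t : T => a t) := by
  obtain ⟨hcard, h1, h2⟩ := h
  rcases T.eq_empty_or_nonempty with hT | ⟨t1, ht1⟩
  · subst hT
    exact linearIndependent_empty_type
  · have hc0 : c ≠ 0 := by
      intro h0
      have := h1 t1 ht1
      rw [h0] at this
      simp at this
    obtain ⟨t0, ht0⟩ := hs (-c) (neg_ne_zero.mpr hc0)
    rw [LinearMap.neg_apply] at ht0
    have hnot : t0 ∉ T := by
      intro hmem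
      have := h1 t0 hmem
      linarith
    have haff := hgp (insert t0 T) (by rw [Finset.card_insert_of_notMem hnot, hcard])
    have haff2 : AffineIndependent ℝ (fun t : T => a t) := by
      have := haff.comp_embedding
        (⟨fun t : T => (⟨t.1, Finset.mem_insert_of_mem t.2⟩ : (insert t0 T : Finset A)),
          fun x y hxy => by
            have := congrArg (fun q : (insert t0 T : Finset A) => q.1) hxy
            exact Subtype.ext this⟩ : T ↪ (insert t0 T : Finset A))
      exact this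
    rw [linearIndependent_iff']
    intro s g hg
    have hsum : s.sum g = 0 := by
      have h3 := congrArg c hg
      rw [map_sum, map_zero] at h3
      rw [← h3]
      refine Finset.sum_congr rfl (fun i _ => ?_)
      rw [map_smul, h1 i.1 i.2, smul_eq_mul, mul_one]
    exact (affineIndependent_iff.mp haff2) s g hsum hg

theorem facet_unique {d : ℕ} {A : Type} [Fintype A] [DecidableEq A] {a : A → E d} (hgp : GP a)
    (hs : Surr a) {T : Finset A} {c c' : E d →ₗ[ℝ] ℝ} (h : IsFacet a T c)
    (h' : IsFacet a T c') : c = c' := by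
  have hli := facet_linInd hgp hs h
  have hsp : Submodule.span ℝ (Set.range (fun t : T => a t)) = ⊤ := by
    apply hli.span_eq_top_of_card_eq_finrank'
    rw [Fintype.card_coe, h.1, finrank_euclideanSpace_fin]
  exact LinearMap.ext_on_range hsp (fun t => by rw [h.2.1 t.1 t.2, h'.2.1 t.1 t.2])

theorem facet_extend {d : ℕ} {A : Type} [Fintype A] [DecidableEq A] {a : A → E d} (hgp : GP a)
    (hs : Surr a) (c : E d →ₗ[ℝ] ℝ) (hc : ∀ t, c (a t) ≤ 1) :
    ∃ (T : Finset A) (c' : E d →ₗ[ℝ] ℝ), IsFacet a T c' ∧ ∀ t, c (a t) = 1 → t ∈ T := by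
  classical
  let S : Set ℕ := {n | ∃ c' : E d →ₗ[ℝ] ℝ, (∀ t, c' (a t) ≤ 1) ∧
    (∀ t, c (a t) = 1 → c' (a t) = 1) ∧
    (Finset.univ.filter (fun t => c' (a t) = 1)).card = n}
  have hne : S.Nonempty := ⟨_, c, hc, fun _ h => h, rfl⟩
  have hbd : BddAbove S := by
    refine ⟨Fintype.card A, ?_⟩
    rintro n ⟨c', _, _, rfl⟩
    exact Finset.card_le_univ _
  obtain ⟨c', hc', hext, hcard⟩ := Nat.sSup_mem hne hbd
  have hmax : ∀ c'' : E d →ₗ[ℝ] ℝ, (∀ t, c'' (a t) ≤ 1) → (∀ t, c (a t) = 1 → c'' (a t) = 1) →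
      (Finset.univ.filter (fun t => c'' (a t) = 1)).card ≤
        (Finset.univ.filter (fun t => c' (a t) = 1)).card := by
    intro c'' h1 h2
    rw [hcard]
    exact le_csSup hbd ⟨c'', h1, h2, rfl⟩
  set Z : Finset A := Finset.univ.filter (fun t => c' (a t) = 1) with hZ
  have hmemZ : ∀ t, t ∈ Z ↔ c' (a t) = 1 := by
    intro t
    simp [hZ]
  have hspan : Submodule.span ℝ (Set.range (fun t : Z => a t)) = ⊤ := by
    by_contra hne
    obtain ⟨z, hz0, hzle⟩ := Submodule.exists_le_ker_of_lt_top _ (lt_top_iff_ne_top.mpr hne)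
    have hzZ : ∀ t ∈ Z, z (a t) = 0 := by
      intro t ht
      exact hzle (Submodule.subset_span ⟨⟨t, ht⟩, rfl⟩)
    obtain ⟨θ, s, hθ, hzs, hθs, hle⟩ := Facet.step c' z hc' (hs z hz0)
    have hsZ : s ∉ Z := by
      intro hmem
      have := hzZ s hmem
      linarith
    have hval : ∀ t ∈ Z, (c' + θ • z) (a t) = 1 := by
      intro t ht
      simp only [LinearMap.add_apply, LinearMap.smul_apply, smul_eq_mul]
      rw [hzZ t ht, (hmemZ t).mp ht]
      ring
    have h1 := hmax (c' + θ • z) hle (fun t ht => hval t ((hmemZ t).mpr (hext t ht)))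
    have h2 : insert s Z ⊆ Finset.univ.filter (fun t => (c' + θ • z) (a t) = 1) := by
      intro t ht
      rw [Finset.mem_filter]
      refine ⟨Finset.mem_univ _, ?_⟩
      rcases Finset.mem_insert.mp ht with rfl | ht
      · simp only [LinearMap.add_apply, LinearMap.smul_apply, smul_eq_mul]
        linarith
      · exact hval t ht
    have h3 := Finset.card_le_card h2
    rw [Finset.card_insert_of_notMem hsZ] at h3
    omega
  have hfr : Module.finrank ℝ (E d) = d := finrank_euclideanSpace_fin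
  have hge : d ≤ Z.card := by
    have h1 : Module.finrank ℝ (Submodule.span ℝ (Set.range (fun t : Z => a t))) ≤
        Fintype.card Z := finrank_range_le_card _
    rw [hspan, finrank_top, hfr, Fintype.card_coe] at h1
    exact h1
  have hle : Z.card ≤ d := by
    by_contra hlt
    obtain ⟨T, hTZ, hTc⟩ := Finset.exists_subset_card_eq (show d + 1 ≤ Z.card by omega)
    have haff := hgp T hTc
    have hrk := haff.finrank_vectorSpan (n := d) (by rw [Fintype.card_coe, hTc])
    have htop : vectorSpan ℝ (Set.range (fun t : T => a t)) = ⊤ := by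
      apply Submodule.eq_top_of_finrank_eq
      rw [hrk, hfr]
    have hker : vectorSpan ℝ (Set.range (fun t : T => a t)) ≤ LinearMap.ker c' := by
      rw [vectorSpan, Submodule.span_le]
      rintro x ⟨p, ⟨p', hp'⟩, q, ⟨q', hq'⟩, rfl⟩
      simp only at hp' hq'
      subst hp'
      subst hq'
      rw [SetLike.mem_coe, LinearMap.mem_ker]
      simp only [vsub_eq_sub, map_sub]
      rw [(hmemZ p').mp (hTZ p'.2), (hmemZ q').mp (hTZ q'.2), sub_self]
    rw [htop, top_le_iff, LinearMap.ker_eq_top] at hker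
    have hTne : T.Nonempty := by
      rw [← Finset.card_pos, hTc]
      omega
    obtain ⟨t, ht⟩ := hTne
    have := (hmemZ t).mp (hTZ ht)
    rw [hker] at this
    simp at this
  refine ⟨Z, c', ⟨le_antisymm hle hge, fun t ht => (hmemZ t).mp ht, ?_⟩, ?_⟩
  · intro t ht
    exact lt_of_le_of_ne (hc' t) (fun h => ht ((hmemZ t).mpr h))
  · intro t ht
    exact (hmemZ t).mpr (hext t ht)

theorem pivot {d : ℕ} {A : Type} [Fintype A] [DecidableEq A] {a : A → E d} (hgp : GP a)
    (hs : Surr a) {T : Finset A} {c : E d →ₗ[ℝ] ℝ} (h : IsFacet a T c) {u : A} (hu : u ∈ T) :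
    ∃ (T' : Finset A) (c' : E d →ₗ[ℝ] ℝ), IsFacet a T' c' ∧ T.erase u ⊆ T' ∧ u ∉ T' := by
  classical
  have hli := facet_linInd hgp hs h
  have hfr : Module.finrank ℝ (E d) = d := finrank_euclideanSpace_fin
  have : Nonempty T := ⟨⟨u, hu⟩⟩
  let b := basisOfLinearIndependentOfCardEqFinrank hli
    (by rw [Fintype.card_coe, h.1, hfr])
  have hb : ∀ t : T, b t = a t := by
    intro t
    exact congrFun (coe_basisOfLinearIndependentOfCardEqFinrank hli
      (by rw [Fintype.card_coe, h.1, hfr])) t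
  let z : E d →ₗ[ℝ] ℝ := b.constr ℝ (fun t : T => if (t : A) = u then (-1 : ℝ) else 0)
  have hz : ∀ t : T, z (a t) = if (t : A) = u then (-1 : ℝ) else 0 := by
    intro t
    rw [← hb t]
    exact b.constr_basis ℝ _ t
  have hzu : z (a u) = -1 := by
    rw [hz ⟨u, hu⟩]
    simp
  have hz0 : z ≠ 0 := by
    intro h0
    rw [h0] at hzu
    simp at hzu
  have hzT : ∀ t ∈ T.erase u, z (a t) = 0 := by
    intro t ht
    rw [Finset.mem_erase] at ht
    rw [hz ⟨t, ht.2⟩]
    simp [ht.1]
  have hcle : ∀ t, c (a t) ≤ 1 := by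
    intro t
    by_cases ht : t ∈ T
    · exact (h.2.1 t ht).le
    · exact (h.2.2 t ht).le
  obtain ⟨θ, s, hθ, hzs, hθs, hle⟩ := Facet.step c z hcle (hs z hz0)
  have hsT : s ∉ T := by
    intro hmem
    by_cases hsu : s = u
    · rw [hsu, hzu] at hzs
      linarith
    · have := hzT s (Finset.mem_erase.mpr ⟨hsu, hmem⟩)
      linarith
  obtain ⟨T', c', hf, hsub⟩ := facet_extend hgp hs (c + θ • z) hle
  have hsub2 : insert s (T.erase u) ⊆ T' := by
    intro t ht
    apply hsub
    simp only [LinearMap.add_apply, LinearMap.smul_apply, smul_eq_mul]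
    rcases Finset.mem_insert.mp ht with rfl | ht
    · linarith
    · rw [hzT t ht, h.2.1 t (Finset.mem_of_mem_erase ht)]
      ring
  have hsE : s ∉ T.erase u := fun hm => hsT (Finset.mem_of_mem_erase hm)
  have hTpos : 0 < T.card := Finset.card_pos.mpr ⟨u, hu⟩
  have heq : insert s (T.erase u) = T' := by
    apply Finset.eq_of_subset_of_card_le hsub2
    rw [hf.1, Finset.card_insert_of_notMem hsE, Finset.card_erase_of_mem hu, ← h.1]
    omega
  refine ⟨T', c', hf, fun t ht => hsub2 (Finset.mem_insert_of_mem ht), ?_⟩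
  rw [← heq]
  intro hm
  rcases Finset.mem_insert.mp hm with hus | hm
  · exact hsT (hus ▸ hu)
  · exact (Finset.notMem_erase u T) hm

end Pool.Agent.MP8a30e7
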