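import Mathlib
import Pool.Agent.Lib.MP_8a30e7_co.Defs
import Pool.Agent.Lib.MP_8a30e7_co.Facet

/-!
# MP_8a30e7_co, module COORD: coordinates with respect to facets, generic vectors
-/

open scoped BigOperators
open Polynomial

namespace Pool.Agent.MP8a30e7

namespace Coord

lemma mem_facets {d : ℕ} {A : Type} [Fintype A] {a : A → E d} {T : Finset A} :
    T ∈ facets a ↔ ∃ c, IsFacet a T c := by
  classical
  unfold facets
  simp

lemma exists_coord {d : ℕ} {A : Type} [Fintype A] [DecidableEq A] {a : A → E d} (hgp : GP a)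
    (hs : Surr a) {T : Finset A} (hT : T ∈ facets a) (w : E d) :
    ∃ l : A → ℝ, (∀ t, t ∉ T → l t = 0) ∧ ∑ t ∈ T, l t • a t = w := by
  obtain ⟨c, hc⟩ := mem_facets.1 hT
  have h1 := facet_linInd hgp hs hc
  have h2 : Submodule.span ℝ (Set.range fun t : T => a t) = ⊤ := by
    refine h1.span_eq_top_of_card_eq_finrank' ?_
    rw [Fintype.card_coe, hc.1, finrank_euclideanSpace_fin]
  have h3 : w ∈ Submodule.span ℝ (Set.range fun t : T => a t) := by
    rw [h2]
    exact Submodule.mem_top
  obtain ⟨f, hf⟩ := (Submodule.mem_span_range_iff_exists_fun ℝ).1 h3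
  refine ⟨fun t => if h : t ∈ T then f ⟨t, h⟩ else 0, fun t ht => dif_neg ht, ?_⟩
  rw [← hf, ← Finset.sum_coe_sort T]
  refine Finset.sum_congr rfl fun t _ => ?_
  have h4 : (if h : (t : A) ∈ T then f ⟨(t : A), h⟩ else 0) = f t := by
    rw [dif_pos t.2]
  exact congrArg (fun r : ℝ => r • a t) h4

end Coord

open Coord

theorem co_spec {d : ℕ} {A : Type} [Fintype A] [DecidableEq A] {a : A → E d} (hgp : GP a)
    (hs : Surr a) {T : Finset A} (hT : T ∈ facets a) (w : E d) :
    (∀ t, t ∉ T → co a T w t = 0) ∧ ∑ t ∈ T, co a T w t • a t = w := by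
  have h := exists_coord hgp hs hT w
  unfold co
  rw [dif_pos h]
  exact h.choose_spec

theorem co_unique {d : ℕ} {A : Type} [Fintype A] [DecidableEq A] {a : A → E d} (hgp : GP a)
    (hs : Surr a) {T : Finset A} (hT : T ∈ facets a) (w : E d) (l : A → ℝ)
    (hl : ∀ t, t ∉ T → l t = 0) (hw : ∑ t ∈ T, l t • a t = w) : co a T w = l := by
  obtain ⟨c, hc⟩ := mem_facets.1 hT
  have h1 := facet_linInd hgp hs hc
  have h2 := co_spec hgp hs hT w
  have h3 : ∑ t ∈ T, (co a T w t - l t) • a t = 0 := by
    have h4 : ∀ t ∈ T, (co a T w t - l t) • a t = co a T w t • a t - l t • a t := by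
      intro t _
      rw [sub_smul]
    rw [Finset.sum_congr rfl h4, Finset.sum_sub_distrib, h2.2, hw, sub_self]
  rw [← Finset.sum_coe_sort T] at h3
  have h5 := Fintype.linearIndependent_iff.1 h1 (fun t => co a T w t - l t) h3
  funext t
  by_cases ht : t ∈ T
  · have h6 := h5 ⟨t, ht⟩
    exact sub_eq_zero.1 h6
  · rw [h2.1 t ht, hl t ht]

namespace Coord

lemma co_add {d : ℕ} {A : Type} [Fintype A] [DecidableEq A] {a : A → E d} (hgp : GP a)
    (hs : Surr a) {T : Finset A} (hT : T ∈ facets a) (w v : E d) :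
    co a T (w + v) = co a T w + co a T v := by
  have h1 := co_spec hgp hs hT w
  have h2 := co_spec hgp hs hT v
  refine co_unique hgp hs hT _ _ (fun t ht => ?_) ?_
  · rw [Pi.add_apply, h1.1 t ht, h2.1 t ht, add_zero]
  · have h4 : ∀ t ∈ T, (co a T w + co a T v) t • a t = co a T w t • a t + co a T v t • a t := by
      intro t _
      rw [Pi.add_apply, add_smul]
    rw [Finset.sum_congr rfl h4, Finset.sum_add_distrib, h1.2, h2.2]

lemma co_smul {d : ℕ} {A : Type} [Fintype A] [DecidableEq A] {a : A → E d} (hgp : GP a)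
    (hs : Surr a) {T : Finset A} (hT : T ∈ facets a) (r : ℝ) (w : E d) :
    co a T (r • w) = r • co a T w := by
  have h1 := co_spec hgp hs hT w
  refine co_unique hgp hs hT _ _ (fun t ht => ?_) ?_
  · rw [Pi.smul_apply, h1.1 t ht, smul_zero]
  · have h4 : ∀ t ∈ T, (r • co a T w) t • a t = r • (co a T w t • a t) := by
      intro t _
      rw [Pi.smul_apply, smul_eq_mul, mul_smul]
    rw [Finset.sum_congr rfl h4, ← Finset.smul_sum, h1.2]

lemma co_self {d : ℕ} {A : Type} [Fintype A] [DecidableEq A] {a : A → E d} (hgp : GP a)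
    (hs : Surr a) {T : Finset A} (hT : T ∈ facets a) {s : A} (hsT : s ∈ T) :
    co a T (a s) = fun t => if t = s then 1 else 0 := by
  refine co_unique hgp hs hT _ _ (fun t ht => ?_) ?_
  · rw [if_neg]
    intro h
    exact ht (h ▸ hsT)
  · rw [Finset.sum_eq_single s]
    · rw [if_pos rfl, one_smul]
    · intro t _ hts
      rw [if_neg hts, zero_smul]
    · intro h
      exact absurd hsT h

lemma co_self_apply {d : ℕ} {A : Type} [Fintype A] [DecidableEq A] {a : A → E d} (hgp : GP a)
    (hs : Surr a) {T : Finset A} (hT : T ∈ facets a) {s : A} (hsT : s ∈ T) (t : A) :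
    co a T (a s) t = if t = s then 1 else 0 :=
  congrFun (co_self hgp hs hT hsT) t

/-- The coordinate as a linear functional. -/
noncomputable def coL {d : ℕ} {A : Type} [Fintype A] [DecidableEq A] {a : A → E d} (hgp : GP a)
    (hs : Surr a) {T : Finset A} (hT : T ∈ facets a) (t : A) : E d →ₗ[ℝ] ℝ where
  toFun w := co a T w t
  map_add' w v := by rw [co_add hgp hs hT, Pi.add_apply]
  map_smul' r w := by rw [co_smul hgp hs hT, Pi.smul_apply, RingHom.id_apply]

end Coord

theorem exists_gen {d : ℕ} {A : Type} [Fintype A] [DecidableEq A] {a : A → E d} (hgp : GP a)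
    (hs : Surr a) : ∃ w : E d, Gen a w := by
  classical
  obtain ⟨w, hw⟩ := Module.Dual.exists_forall_ne_zero_of_forall_exists (K := ℝ) (M := E d)
    (ι := {p : Finset A × A // p.1 ∈ facets a ∧ p.2 ∈ p.1})
    (fun p => coL hgp hs p.2.1 p.1.2) (by
      rintro ⟨⟨T, t⟩, hT, ht⟩
      refine ⟨a t, ?_⟩
      have h : co a T (a t) t = 1 := by
        rw [co_self_apply hgp hs hT ht, if_pos rfl]
      have h2 : coL hgp hs hT t (a t) = 1 := h
      rw [h2]
      exact one_ne_zero)
  refine ⟨w, fun T hT t ht => ?_⟩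
  exact hw ⟨(T, t), hT, ht⟩

theorem exists_gen_sub {d : ℕ} {A : Type} [Fintype A] [DecidableEq A] {a : A → E d}
    (hgp : GP a) (hs : Surr a) {w : E d} (hw : Gen a w) (s : A) :
    ∃ w' : E d, Gen a w' ∧ ∀ T ∈ facets a, s ∈ T → posi a w' T = (posi a w T).erase s := by
  classical
  obtain ⟨B, hB⟩ := ((facets a ×ˢ (Finset.univ : Finset A)).image
    (fun p => co a p.1 w p.2 / co a p.1 (a s) p.2)).bddAbove
  obtain ⟨B', hB'⟩ := ((facets a).image (fun T => co a T w s)).bddAbove
  set M : ℝ := max B B' + 1 with hM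
  have hM1 : ∀ T ∈ facets a, ∀ t, co a T w t / co a T (a s) t < M := by
    intro T hT t
    have h := hB (Finset.mem_coe.2 (Finset.mem_image.2
      ⟨(T, t), Finset.mem_product.2 ⟨hT, Finset.mem_univ t⟩, rfl⟩))
    have h2 : B ≤ max B B' := le_max_left _ _
    have h3 : co a T w t / co a T (a s) t ≤ B := h
    linarith
  have hM2 : ∀ T ∈ facets a, co a T w s < M := by
    intro T hT
    have h := hB' (Finset.mem_coe.2 (Finset.mem_image.2 ⟨T, hT, rfl⟩))
    have h2 : B' ≤ max B B' := le_max_right _ _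
    have h3 : co a T w s ≤ B' := h
    linarith
  have hco : ∀ T ∈ facets a, ∀ t, co a T (w + (-M) • a s) t =
      co a T w t - M * co a T (a s) t := by
    intro T hT t
    rw [co_add hgp hs hT, co_smul hgp hs hT, Pi.add_apply, Pi.smul_apply, smul_eq_mul]
    ring
  refine ⟨w + (-M) • a s, ?_, ?_⟩
  · intro T hT t ht h0
    rw [hco T hT t] at h0
    by_cases hk : co a T (a s) t = 0
    · rw [hk, mul_zero, sub_zero] at h0
      exact hw T hT t ht h0
    · have h1 := hM1 T hT t
      have h2 : M = co a T w t / co a T (a s) t := by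
        rw [eq_div_iff hk]
        linarith
      linarith
  · intro T hT hsT
    ext t
    unfold posi
    rw [Finset.mem_erase, Finset.mem_filter, Finset.mem_filter]
    rw [hco T hT t, co_self_apply hgp hs hT hsT]
    by_cases hts : t = s
    · subst hts
      rw [if_pos rfl, mul_one]
      have h1 := hM2 T hT
      constructor
      · intro h
        linarith [h.2]
      · intro h
        exact absurd rfl h.1
    · rw [if_neg hts, mul_zero, sub_zero]
      constructor
      · intro h
        exact ⟨hts, h⟩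
      · intro h
        exact h.2

end Pool.Agent.MP8a30e7
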