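import Mathlib
import Pool.Agent.Lib.MP_8a30e7_co.Defs

/-!
# MP_8a30e7_co, module FACE

The poset of nonempty faces of dimension at most one of a polytope with vertices `p i` is
isomorphic to the poset of vertices and edges of its graph.
-/

open scoped BigOperators
open Polynomial

namespace Pool.Agent.MP8a30e7

namespace Face

variable {d : ℕ} {ι : Type} [Fintype ι] [DecidableEq ι]

/-- Membership in the hull of some of the points, in terms of weights. -/
theorem mem_hull (p : ι → E d) (s : Finset ι) (x : E d) :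
    x ∈ convexHull ℝ (p '' (s : Set ι)) ↔ ∃ w : ι → ℝ, (∀ i, 0 ≤ w i) ∧
      (∀ i, i ∉ s → w i = 0) ∧ ∑ i, w i = 1 ∧ ∑ i, w i • p i = x := by
  constructor
  · intro hx
    have hS : Convex ℝ {x | ∃ w : ι → ℝ, (∀ i, 0 ≤ w i) ∧ (∀ i, i ∉ s → w i = 0) ∧
        ∑ i, w i = 1 ∧ ∑ i, w i • p i = x} := by
      rintro x ⟨w, h1, h2, h3, h4⟩ y ⟨v, g1, g2, g3, g4⟩ a b ha hb hab
      refine ⟨fun i => a * w i + b * v i, ?_, ?_, ?_, ?_⟩
      · intro i
        have := h1 i
        have := g1 i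
        positivity
      · intro i hi
        simp [h2 i hi, g2 i hi]
      · rw [Finset.sum_add_distrib, ← Finset.mul_sum, ← Finset.mul_sum, h3, g3]
        simpa using hab
      · simp only [add_smul, mul_smul, Finset.sum_add_distrib]
        rw [← Finset.smul_sum, ← Finset.smul_sum, h4, g4]
    have hp : p '' (s : Set ι) ⊆ {x | ∃ w : ι → ℝ, (∀ i, 0 ≤ w i) ∧ (∀ i, i ∉ s → w i = 0) ∧
        ∑ i, w i = 1 ∧ ∑ i, w i • p i = x} := by
      rintro _ ⟨i, hi, rfl⟩
      refine ⟨fun j => if j = i then 1 else 0, ?_, ?_, ?_, ?_⟩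
      · intro j
        dsimp only
        split_ifs <;> norm_num
      · intro j hj
        have : j ≠ i := fun h => hj (h ▸ hi)
        simp [this]
      · simp
      · simp
    exact convexHull_min hp hS hx
  · rintro ⟨w, h1, h2, h3, rfl⟩
    have e1 : ∑ i, w i = ∑ i ∈ s, w i := by
      symm
      exact Finset.sum_subset (Finset.subset_univ _) (fun i _ hi => h2 i hi)
    have e2 : ∑ i, w i • p i = ∑ i ∈ s, w i • p i := by
      symm
      exact Finset.sum_subset (Finset.subset_univ _) (fun i _ hi => by rw [h2 i hi, zero_smul])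
    rw [e2]
    exact (convex_convexHull ℝ _).sum_mem (fun i _ => h1 i) (e1 ▸ h3)
      (fun i hi => subset_convexHull ℝ _ ⟨i, hi, rfl⟩)

theorem mem_hull_univ (p : ι → E d) (x : E d) :
    x ∈ convexHull ℝ (Set.range p) ↔ ∃ w : ι → ℝ, (∀ i, 0 ≤ w i) ∧
      ∑ i, w i = 1 ∧ ∑ i, w i • p i = x := by
  have h := mem_hull p Finset.univ x
  rw [Finset.coe_univ, Set.image_univ] at h
  rw [h]
  constructor
  · rintro ⟨w, h1, _, h3, h4⟩
    exact ⟨w, h1, h3, h4⟩
  · rintro ⟨w, h1, h3, h4⟩
    exact ⟨w, h1, fun i hi => absurd (Finset.mem_univ i) hi, h3, h4⟩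

theorem hull_le (p : ι → E d) (f : E d →ₗ[ℝ] ℝ) {M : ℝ} (hM : ∀ i, f (p i) ≤ M) {x : E d}
    (hx : x ∈ convexHull ℝ (Set.range p)) : f x ≤ M := by
  obtain ⟨w, h1, h3, rfl⟩ := (mem_hull_univ p x).1 hx
  rw [map_sum]
  calc ∑ i, f (w i • p i) = ∑ i, w i * f (p i) := by simp
    _ ≤ ∑ i, w i * M := Finset.sum_le_sum (fun i _ => mul_le_mul_of_nonneg_left (hM i) (h1 i))
    _ = M := by rw [← Finset.sum_mul, h3, one_mul]

/-- The points of the hull where a functional takes its maximum. -/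
theorem hull_eq (p : ι → E d) (f : E d →ₗ[ℝ] ℝ) {M : ℝ} (hM : ∀ i, f (p i) ≤ M) (s : Finset ι)
    (hs : ∀ i, f (p i) = M → i ∈ s) {x : E d} (hx : x ∈ convexHull ℝ (Set.range p))
    (hfx : f x = M) : x ∈ convexHull ℝ (p '' (s : Set ι)) := by
  obtain ⟨w, h1, h3, rfl⟩ := (mem_hull_univ p x).1 hx
  rw [mem_hull]
  refine ⟨w, h1, ?_, h3, rfl⟩
  intro i hi
  by_contra hne
  have hwi : 0 < w i := lt_of_le_of_ne (h1 i) (Ne.symm hne)
  have hfi : f (p i) < M := lt_of_le_of_ne (hM i) (fun h => hi (hs i h))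
  have hlt : ∑ j, w j * f (p j) < ∑ j, w j * M := by
    refine Finset.sum_lt_sum (fun j _ => mul_le_mul_of_nonneg_left (hM j) (h1 j)) ?_
    exact ⟨i, Finset.mem_univ i, mul_lt_mul_of_pos_left hfi hwi⟩
  rw [← Finset.sum_mul, h3, one_mul] at hlt
  rw [map_sum] at hfx
  simp only [map_smul, smul_eq_mul] at hfx
  linarith

theorem hull_const (p : ι → E d) (f : E d →ₗ[ℝ] ℝ) {M : ℝ} (s : Finset ι)
    (hs : ∀ i ∈ s, f (p i) = M) {x : E d} (hx : x ∈ convexHull ℝ (p '' (s : Set ι))) :
    f x = M := by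
  obtain ⟨w, h1, h2, h3, rfl⟩ := (mem_hull p s x).1 hx
  rw [map_sum]
  calc ∑ i, f (w i • p i) = ∑ i, w i * M := by
        refine Finset.sum_congr rfl (fun i _ => ?_)
        by_cases hi : i ∈ s
        · rw [map_smul, smul_eq_mul, hs i hi]
        · rw [h2 i hi]
          simp
    _ = M := by rw [← Finset.sum_mul, h3, one_mul]

omit [Fintype ι] [DecidableEq ι] in
theorem hull_mono (p : ι → E d) (s : Finset ι) :
    convexHull ℝ (p '' (s : Set ι)) ⊆ convexHull ℝ (Set.range p) :=
  convexHull_mono (Set.image_subset_range _ _)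

/-- A set of points on which a functional takes its strict maximum spans an exposed face. -/
theorem exposed (p : ι → E d) (f : E d →ₗ[ℝ] ℝ) {M : ℝ} (s : Finset ι) (hne : s.Nonempty)
    (hs : ∀ i ∈ s, f (p i) = M) (hs' : ∀ i, i ∉ s → f (p i) < M) :
    IsExposed ℝ (convexHull ℝ (Set.range p)) (convexHull ℝ (p '' (s : Set ι))) := by
  intro _
  have hM : ∀ i, f (p i) ≤ M := by
    intro i
    by_cases hi : i ∈ s
    · exact (hs i hi).le
    · exact (hs' i hi).le
  refine ⟨LinearMap.toContinuousLinearMap f, ?_⟩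
  ext x
  simp only [Set.mem_ofPred_eq, LinearMap.coe_toContinuousLinearMap']
  constructor
  · intro hx
    refine ⟨hull_mono p s hx, fun y hy => ?_⟩
    rw [hull_const p f s hs hx]
    exact hull_le p f hM hy
  · rintro ⟨hx, hmax⟩
    refine hull_eq p f hM s ?_ hx ?_
    · intro i hi
      by_contra h
      exact absurd hi (hs' i h).ne
    · refine le_antisymm (hull_le p f hM hx) ?_
      obtain ⟨i, hi⟩ := hne
      have := hmax (p i) (subset_convexHull ℝ _ ⟨i, rfl⟩)
      rwa [hs i hi] at this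

/-- A vertex belongs to the hull of some of the points only if it is one of them. -/
theorem vtx_mem {p : ι → E d} {i : ι} (h : Vtx p i) (s : Finset ι)
    (hi : p i ∈ convexHull ℝ (p '' (s : Set ι))) : i ∈ s := by
  obtain ⟨f, hf⟩ := h
  obtain ⟨w, h1, h2, h3, h4⟩ := (mem_hull p s (p i)).1 hi
  by_contra hi'
  have hwi : w i = 0 := h2 i hi'
  have : ∃ j, w j ≠ 0 := by
    by_contra hcon
    push Not at hcon
    simp [hcon] at h3
  obtain ⟨j, hj⟩ := this
  have hji : j ≠ i := by
    rintro rfl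
    exact hj hwi
  have hwj : 0 < w j := lt_of_le_of_ne (h1 j) (Ne.symm hj)
  have hlt : ∑ k, w k * f (p k) < ∑ k, w k * f (p i) := by
    refine Finset.sum_lt_sum (fun k _ => ?_) ⟨j, Finset.mem_univ j, ?_⟩
    · refine mul_le_mul_of_nonneg_left ?_ (h1 k)
      by_cases hk : k = i
      · rw [hk]
      · exact (hf k hk).le
    · exact mul_lt_mul_of_pos_left (hf j hji) hwj
  rw [← Finset.sum_mul, h3, one_mul, ← h4, map_sum] at hlt
  simp only [map_smul, smul_eq_mul] at hlt
  exact lt_irrefl _ hlt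

omit [Fintype ι] [DecidableEq ι] in
theorem injective {p : ι → E d} (hv : ∀ i, Vtx p i) : Function.Injective p := by
  intro i j hij
  by_contra hne
  obtain ⟨f, hf⟩ := hv i
  have := hf j (Ne.symm hne)
  rw [hij] at this
  exact lt_irrefl _ this

/-- The face of an element of the graph poset. -/
theorem face_prop (p : ι → E d) (hv : ∀ i, Vtx p i) (s : GPos ι (Edg p)) :
    (convexHull ℝ (p '' (s.1 : Set ι))).Nonempty ∧
      IsExposed ℝ (convexHull ℝ (Set.range p)) (convexHull ℝ (p '' (s.1 : Set ι))) ∧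
      Module.finrank ℝ (vectorSpan ℝ (convexHull ℝ (p '' (s.1 : Set ι)))) ≤ 1 := by
  obtain ⟨s, hs⟩ := s
  dsimp only
  have hspan : vectorSpan ℝ (convexHull ℝ (p '' (s : Set ι))) = vectorSpan ℝ (p '' (s : Set ι)) := by
    rw [← direction_affineSpan, ← direction_affineSpan, affineSpan_convexHull]
  rcases hs with ⟨i, rfl⟩ | ⟨i, j, hij, ⟨f, hf, hf'⟩, rfl⟩
  · refine ⟨⟨p i, subset_convexHull ℝ _ ⟨i, by simp, rfl⟩⟩, ?_, ?_⟩
    · obtain ⟨f, hf⟩ := hv i
      refine exposed p f (M := f (p i)) {i} (Finset.singleton_nonempty i) ?_ ?_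
      · intro j hj
        rw [Finset.mem_singleton.1 hj]
      · intro j hj
        exact hf j (fun h => hj (Finset.mem_singleton.2 h))
    · rw [hspan, Finset.coe_singleton, Set.image_singleton, vectorSpan_singleton, finrank_bot]
      exact Nat.zero_le 1
  · refine ⟨⟨p i, subset_convexHull ℝ _ ⟨i, by simp, rfl⟩⟩, ?_, ?_⟩
    · refine exposed p f (M := f (p i)) {i, j} ⟨i, by simp⟩ ?_ ?_
      · intro k hk
        rcases Finset.mem_insert.1 hk with rfl | hk
        · rfl
        · rw [Finset.mem_singleton.1 hk, hf]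
      · intro k hk
        refine hf' k ?_ ?_
        · rintro rfl
          exact hk (by simp)
        · rintro rfl
          exact hk (by simp)
    · rw [hspan]
      have : p '' (({i, j} : Finset ι) : Set ι) = {p i, p j} := by
        simp [Set.image_pair]
      rw [this]
      exact finrank_vectorSpan_insert_le_set ℝ {p j} (p i) |>.trans (by simp)

theorem le_iff (p : ι → E d) (hv : ∀ i, Vtx p i) (s t : Finset ι) :
    convexHull ℝ (p '' (s : Set ι)) ⊆ convexHull ℝ (p '' (t : Set ι)) ↔ s ⊆ t := by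
  constructor
  · intro h i hi
    exact vtx_mem (hv i) t (h (subset_convexHull ℝ _ ⟨i, hi, rfl⟩))
  · intro h
    exact convexHull_mono (Set.image_mono (by exact_mod_cast h))

omit [Fintype ι] [DecidableEq ι] in
/-- Three different vertices are not collinear. -/
theorem not_collinear {p : ι → E d} (hv : ∀ i, Vtx p i) {i j k : ι} (hij : i ≠ j) (hik : i ≠ k)
    (hjk : j ≠ k) : ¬ Collinear ℝ {p i, p j, p k} := by
  intro hc
  have key : ∀ i j k : ι, i ≠ j → j ≠ k → ¬ Wbtw ℝ (p i) (p j) (p k) := by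
    intro i j k hij hjk hw
    obtain ⟨f, hf⟩ := hv j
    obtain ⟨t, ht, hx⟩ := hw
    rw [AffineMap.lineMap_apply] at hx
    have hfx : f (p j) = t * (f (p k) - f (p i)) + f (p i) := by
      rw [← hx]
      simp [vsub_eq_sub, vadd_eq_add]
    have h1 := hf i hij
    have h2 := hf k hjk.symm
    rcases eq_or_lt_of_le ht.1 with h0 | h0
    · rw [← h0] at hfx
      linarith
    · nlinarith [ht.2, mul_pos h0 (sub_pos.2 h2),
        mul_nonneg (sub_nonneg.2 ht.2) (sub_nonneg.2 h1.le)]
  rcases hc.wbtw_or_wbtw_or_wbtw with h | h | h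
  · exact key i j k hij hjk h
  · exact key j k i hjk (Ne.symm hik) h
  · exact key k i j (Ne.symm hik) hij h

/-- Every face of dimension at most one comes from the graph poset. -/
theorem surj (p : ι → E d) (hv : ∀ i, Vtx p i)
    (F : Faces (convexHull ℝ (Set.range p))) :
    ∃ s : GPos ι (Edg p), convexHull ℝ (p '' (s.1 : Set ι)) = F.1 := by
  classical
  obtain ⟨F, hne, hexp, hdim⟩ := F
  dsimp only
  obtain ⟨l, hl⟩ := hexp hne
  obtain ⟨x₀, hx₀⟩ := hne
  set M : ℝ := l x₀ with hMdef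
  have hx₀' := hx₀
  rw [hl] at hx₀'
  have hM : ∀ i, (l : E d →ₗ[ℝ] ℝ) (p i) ≤ M := by
    intro i
    exact hx₀'.2 (p i) (subset_convexHull ℝ _ ⟨i, rfl⟩)
  set s : Finset ι := Finset.univ.filter (fun i => l (p i) = M) with hs
  have hF : F = convexHull ℝ (p '' (s : Set ι)) := by
    apply Set.Subset.antisymm
    · intro x hx
      rw [hl] at hx
      refine hull_eq p (l : E d →ₗ[ℝ] ℝ) hM s ?_ hx.1 ?_
      · intro i hi
        simpa [hs] using hi
      · exact le_antisymm (hull_le p (l : E d →ₗ[ℝ] ℝ) hM hx.1) (hx.2 x₀ hx₀'.1)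
    · intro x hx
      rw [hl]
      refine ⟨hull_mono p s hx, fun y hy => ?_⟩
      have e : (l : E d →ₗ[ℝ] ℝ) x = M :=
        hull_const p (l : E d →ₗ[ℝ] ℝ) s (fun i hi => by simpa [hs] using hi) hx
      have e' : (l : E d →ₗ[ℝ] ℝ) y ≤ M := hull_le p (l : E d →ₗ[ℝ] ℝ) hM hy
      have : (l : E d →ₗ[ℝ] ℝ) y ≤ (l : E d →ₗ[ℝ] ℝ) x := by rw [e]; exact e'
      exact this
  have hsne : s.Nonempty := by
    by_contra hcon
    rw [Finset.not_nonempty_iff_eq_empty] at hcon
    rw [hF, hcon] at hx₀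
    simp at hx₀
  have hout : ∀ i, i ∉ s → l (p i) < M := by
    intro i hi
    refine lt_of_le_of_ne (hM i) (fun h => hi ?_)
    simpa [hs] using h
  have hcard : s.card ≤ 2 := by
    by_contra hcon
    push Not at hcon
    obtain ⟨i, j, k, hi, hj, hk, hij, hik, hjk⟩ := Finset.two_lt_card_iff.1 hcon
    refine not_collinear hv hij hik hjk ?_
    have hsub : ({p i, p j, p k} : Set (E d)) ⊆ F := by
      rw [hF]
      intro x hx
      simp only [Set.mem_insert_iff, Set.mem_singleton_iff] at hx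
      rcases hx with rfl | rfl | rfl
      · exact subset_convexHull ℝ _ ⟨i, hi, rfl⟩
      · exact subset_convexHull ℝ _ ⟨j, hj, rfl⟩
      · exact subset_convexHull ℝ _ ⟨k, hk, rfl⟩
    rw [collinear_iff_finrank_le_one]
    exact (Submodule.finrank_mono (vectorSpan_mono ℝ hsub)).trans hdim
  have hcases : s.card = 1 ∨ s.card = 2 := by
    have := hsne.card_pos
    omega
  rcases hcases with h1 | h2
  · obtain ⟨i, hi⟩ := Finset.card_eq_one.1 h1
    exact ⟨⟨s, Or.inl ⟨i, hi⟩⟩, hF.symm⟩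
  · obtain ⟨i, j, hij, hsij⟩ := Finset.card_eq_two.1 h2
    refine ⟨⟨s, Or.inr ⟨i, j, hij, ⟨(l : E d →ₗ[ℝ] ℝ), ?_, ?_⟩, hsij⟩⟩, hF.symm⟩
    · have hi : i ∈ s := by rw [hsij]; simp
      have hj : j ∈ s := by rw [hsij]; simp
      have ei : l (p i) = M := by simpa [hs] using hi
      have ej : l (p j) = M := by simpa [hs] using hj
      exact ei.trans ej.symm
    · intro k hki hkj
      have hi : i ∈ s := by rw [hsij]; simp
      have ei : l (p i) = M := by simpa [hs] using hi
      have hk : k ∉ s := by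
        rw [hsij]
        simp [hki, hkj]
      have := hout k hk
      rw [← ei] at this
      exact this

end Face

open Face in
theorem faces_iso {d : ℕ} {ι : Type} [Fintype ι] [DecidableEq ι] (p : ι → E d)
    (hv : ∀ i, Vtx p i) :
    Nonempty (Faces (convexHull ℝ (Set.range p)) ≃o GPos ι (Edg p)) := by
  let g : GPos ι (Edg p) → Faces (convexHull ℝ (Set.range p)) :=
    fun s => ⟨convexHull ℝ (p '' (s.1 : Set ι)), face_prop p hv s⟩
  have hle : ∀ s t, g s ≤ g t ↔ s ≤ t := fun s t => le_iff p hv s.1 t.1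
  have hsurj : Function.Surjective g := by
    intro F
    obtain ⟨s, hs⟩ := surj p hv F
    exact ⟨s, Subtype.ext hs⟩
  let e : GPos ι (Edg p) ↪o Faces (convexHull ℝ (Set.range p)) :=
    OrderEmbedding.ofMapLEIff g hle
  exact ⟨(RelIso.ofSurjective e hsurj).symm⟩

end Pool.Agent.MP8a30e7
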