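import Mathlib
import Pool.Agent.Lib.MP_8a30e7_co.Defs

/-!
# Isomorphic posets of vertices and edges come from isomorphic graphs
-/

open scoped BigOperators
open Polynomial

namespace Pool.Agent.MP8a30e7

namespace Giso

/-- The vertex `i` as an element of the poset. -/
def sing {ι : Type} [DecidableEq ι] (adj : ι → ι → Prop) (i : ι) : GPos ι adj :=
  ⟨{i}, Or.inl ⟨i, rfl⟩⟩

lemma isMin_sing {ι : Type} [DecidableEq ι] (adj : ι → ι → Prop) (i : ι) :
    IsMin (sing adj i) := by
  rintro ⟨y, hy⟩ hle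
  have hle' : y ⊆ {i} := hle
  have hne : y.Nonempty := by
    rcases hy with ⟨k, rfl⟩ | ⟨k, l, -, -, rfl⟩
    · exact Finset.singleton_nonempty k
    · exact ⟨k, by simp⟩
  obtain ⟨a, ha⟩ := hne
  have hai : a = i := by simpa using hle' ha
  show ({i} : Finset ι) ⊆ y
  intro b hb
  have : b = i := by simpa using hb
  rw [this, ← hai]
  exact ha

lemma eq_sing_of_isMin {ι : Type} [DecidableEq ι] (adj : ι → ι → Prop) (x : GPos ι adj)
    (hx : IsMin x) : ∃ i, x = sing adj i := by
  obtain ⟨x, hx'⟩ := x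
  rcases hx' with ⟨k, rfl⟩ | ⟨k, l, hkl, hadj, rfl⟩
  · exact ⟨k, rfl⟩
  · exfalso
    have h1 : sing adj k ≤ (⟨{k, l}, Or.inr ⟨k, l, hkl, hadj, rfl⟩⟩ : GPos ι adj) := by
      show ({k} : Finset ι) ⊆ {k, l}
      intro b hb
      have : b = k := by simpa using hb
      simp [this]
    have h2 := hx h1
    have h3 : ({k, l} : Finset ι) ⊆ {k} := h2
    have h4 : l = k := by
      have : l ∈ ({k} : Finset ι) := h3 (by simp)
      simpa using this
    exact hkl h4.symm

lemma sing_inj {ι : Type} [DecidableEq ι] (adj : ι → ι → Prop) {i j : ι}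
    (h : sing adj i = sing adj j) : i = j := by
  have : ({i} : Finset ι) = {j} := congrArg Subtype.val h
  simpa using this

lemma exists_map {ι κ : Type} [DecidableEq ι] [DecidableEq κ]
    (adj : ι → ι → Prop) (adj' : κ → κ → Prop) (Φ : GPos ι adj ≃o GPos κ adj') (i : ι) :
    ∃ k, Φ (sing adj i) = sing adj' k := by
  refine eq_sing_of_isMin adj' _ ?_
  intro y hy
  have h1 : Φ.symm y ≤ sing adj i := by
    have := Φ.symm.monotone hy
    simpa using this
  have h2 := isMin_sing adj i h1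
  have h3 := Φ.monotone h2
  simpa using h3

lemma fwd {ι κ : Type} [DecidableEq ι] [DecidableEq κ]
    (adj : ι → ι → Prop) (adj' : κ → κ → Prop) (hs' : ∀ i j, adj' i j → adj' j i)
    (Φ : GPos ι adj ≃o GPos κ adj') (f : ι → κ) (hf : ∀ i, Φ (sing adj i) = sing adj' (f i))
    {i j : ι} (hij : i ≠ j) (h : adj i j) : adj' (f i) (f j) := by
  have hfi : f i ≠ f j := by
    intro he
    apply hij
    apply sing_inj adj
    apply Φ.injective
    rw [hf, hf, he]
  obtain ⟨x, hx⟩ : ∃ x : GPos ι adj, x = ⟨{i, j}, Or.inr ⟨i, j, hij, h, rfl⟩⟩ := ⟨_, rfl⟩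
  have h1 : sing adj i ≤ x := by
    rw [hx]
    show ({i} : Finset ι) ⊆ {i, j}
    intro b hb
    have : b = i := by simpa using hb
    simp [this]
  have h2 : sing adj j ≤ x := by
    rw [hx]
    show ({j} : Finset ι) ⊆ {i, j}
    intro b hb
    have : b = j := by simpa using hb
    simp [this]
  have h3 : f i ∈ (Φ x).1 := by
    have := Φ.monotone h1
    rw [hf] at this
    have h4 : ({f i} : Finset κ) ⊆ (Φ x).1 := this
    exact h4 (by simp)
  have h4 : f j ∈ (Φ x).1 := by
    have := Φ.monotone h2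
    rw [hf] at this
    have h4 : ({f j} : Finset κ) ⊆ (Φ x).1 := this
    exact h4 (by simp)
  rcases (Φ x).2 with ⟨k, hk⟩ | ⟨k, l, -, hadj, hk⟩
  · rw [hk] at h3 h4
    have e1 : f i = k := by simpa using h3
    have e2 : f j = k := by simpa using h4
    exact absurd (e1.trans e2.symm) hfi
  · rw [hk] at h3 h4
    have e1 : f i = k ∨ f i = l := by simpa using h3
    have e2 : f j = k ∨ f j = l := by simpa using h4
    rcases e1 with e1 | e1 <;> rcases e2 with e2 | e2
    · exact absurd (e1.trans e2.symm) hfi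
    · rw [e1, e2]; exact hadj
    · rw [e1, e2]; exact hs' _ _ hadj
    · exact absurd (e1.trans e2.symm) hfi

end Giso

theorem gpos_iso {ι κ : Type} [Fintype ι] [Fintype κ] [DecidableEq ι] [DecidableEq κ]
    (adj : ι → ι → Prop) (adj' : κ → κ → Prop) (hs : ∀ i j, adj i j → adj j i)
    (hs' : ∀ i j, adj' i j → adj' j i) (h : Nonempty (GPos ι adj ≃o GPos κ adj')) :
    ∃ e : ι ≃ κ, ∀ i j, i ≠ j → (adj i j ↔ adj' (e i) (e j)) := by
  obtain ⟨Φ⟩ := h
  choose f hf using Giso.exists_map adj adj' Φ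
  choose g hg using Giso.exists_map adj' adj Φ.symm
  have hgf : ∀ i, g (f i) = i := by
    intro i
    apply Giso.sing_inj adj
    rw [← hg, ← hf]
    simp
  have hfg : ∀ k, f (g k) = k := by
    intro k
    apply Giso.sing_inj adj'
    rw [← hf, ← hg]
    simp
  refine ⟨⟨f, g, hgf, hfg⟩, ?_⟩
  intro i j hij
  show adj i j ↔ adj' (f i) (f j)
  constructor
  · intro h
    exact Giso.fwd adj adj' hs' Φ f hf hij h
  · intro h
    have hne : f i ≠ f j := by
      intro he
      apply hij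
      rw [← hgf i, ← hgf j, he]
    have := Giso.fwd adj' adj hs Φ.symm g hg hne h
    rwa [hgf, hgf] at this

theorem gpos_congr {ι : Type} [DecidableEq ι] (adj adj' : ι → ι → Prop)
    (h : ∀ i j, i ≠ j → (adj i j ↔ adj' i j)) : Nonempty (GPos ι adj ≃o GPos ι adj') := by
  have key : ∀ s : Finset ι, ((∃ i, s = {i}) ∨ ∃ i j, i ≠ j ∧ adj i j ∧ s = {i, j}) ↔
      ((∃ i, s = {i}) ∨ ∃ i j, i ≠ j ∧ adj' i j ∧ s = {i, j}) := by
    intro s
    refine or_congr Iff.rfl ?_
    refine exists_congr fun i => exists_congr fun j => ?_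
    constructor
    · rintro ⟨h1, h2, h3⟩
      exact ⟨h1, (h i j h1).1 h2, h3⟩
    · rintro ⟨h1, h2, h3⟩
      exact ⟨h1, (h i j h1).2 h2, h3⟩
  exact ⟨{ toFun := fun x => ⟨x.1, (key x.1).1 x.2⟩
           invFun := fun x => ⟨x.1, (key x.1).2 x.2⟩
           left_inv := fun x => rfl
           right_inv := fun x => rfl
           map_rel_iff' := Iff.rfl }⟩

end Pool.Agent.MP8a30e7
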