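import Mathlib
import Pool.Agent.Lib.MP_8a30e7_co.Defs
import Pool.Agent.Lib.MP_8a30e7_co.Cone

/-!
# MP_8a30e7_co: module REAL
-/

open scoped BigOperators
open Polynomial

namespace Pool.Agent.MP8a30e7

namespace RealM

/-- The linear functional given by the coefficients of `g`. -/
noncomputable def dual (D : ℕ) (g : ℝ[X]) : E D →ₗ[ℝ] ℝ where
  toFun x := ∑ k : Fin D, g.coeff ((k : ℕ) + 1) * x k
  map_add' x y := by
    rw [← Finset.sum_add_distrib]
    exact Finset.sum_congr rfl fun k _ => by rw [PiLp.add_apply]; ring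
  map_smul' c x := by
    rw [RingHom.id_apply, smul_eq_mul, Finset.mul_sum]
    exact Finset.sum_congr rfl fun k _ => by rw [PiLp.smul_apply, smul_eq_mul]; ring

theorem dual_vec {D : ℕ} {g : ℝ[X]} (hg : g.natDegree ≤ D) (L : ℝ[X] →ₗ[ℝ] ℝ) (hL : L 1 = 1) :
    L g = g.coeff 0 + dual D g (vec D L) := by
  have h1 : L g = ∑ i ∈ Finset.range (D + 1), g.coeff i * L (X ^ i) := by
    conv_lhs => rw [g.as_sum_range' (D + 1) (by omega)]
    rw [map_sum]
    refine Finset.sum_congr rfl fun i _ => ?_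
    rw [← Polynomial.C_mul_X_pow_eq_monomial, ← Polynomial.smul_eq_C_mul, map_smul, smul_eq_mul]
  rw [h1, Finset.sum_range_succ', pow_zero, hL, mul_one, add_comm]
  congr 1
  rw [← Fin.sum_univ_eq_sum_range (fun i => g.coeff (i + 1) * L (X ^ (i + 1)))]
  rfl

/-- The polynomial of a linear functional. -/
noncomputable def pol {D : ℕ} (f : E D →ₗ[ℝ] ℝ) (c : ℝ) : ℝ[X] :=
  C c - ∑ k : Fin D, C (f (EuclideanSpace.single k 1)) * X ^ ((k : ℕ) + 1)

theorem pol_natDegree {D : ℕ} (f : E D →ₗ[ℝ] ℝ) (c : ℝ) : (pol f c).natDegree ≤ D := by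
  unfold pol
  refine (Polynomial.natDegree_sub_le _ _).trans (max_le ?_ ?_)
  · rw [Polynomial.natDegree_C]; exact Nat.zero_le _
  · refine Polynomial.natDegree_sum_le_of_forall_le _ _ fun k _ => ?_
    exact (Polynomial.natDegree_C_mul_X_pow_le _ _).trans k.2

theorem sum_single {D : ℕ} (x : E D) : ∑ k : Fin D, x k • (EuclideanSpace.single k (1 : ℝ) : E D) = x := by
  ext j
  rw [WithLp.ofLp_sum, Finset.sum_apply, Finset.sum_eq_single j]
  · simp
  · intro k _ hk
    simp [Ne.symm hk]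
  · intro h
    exact (h (Finset.mem_univ _)).elim

theorem app_eq {D : ℕ} (f : E D →ₗ[ℝ] ℝ) (x : E D) :
    f x = ∑ k : Fin D, x k * f (EuclideanSpace.single k 1) := by
  conv_lhs => rw [← sum_single x]
  rw [map_sum]
  exact Finset.sum_congr rfl fun k _ => by rw [map_smul, smul_eq_mul]

theorem pol_app {D : ℕ} (f : E D →ₗ[ℝ] ℝ) (c : ℝ) (L : ℝ[X] →ₗ[ℝ] ℝ) (hL : L 1 = 1) :
    L (pol f c) = c - f (vec D L) := by
  unfold pol
  rw [map_sub, map_sum, app_eq f (vec D L)]
  have h0 : L (C c) = c := by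
    rw [← mul_one (C c), ← Polynomial.smul_eq_C_mul, map_smul, hL, smul_eq_mul, mul_one]
  rw [h0]
  congr 1
  refine Finset.sum_congr rfl fun k _ => ?_
  rw [← Polynomial.smul_eq_C_mul, map_smul, smul_eq_mul, mul_comm]
  rfl

theorem pol_coeff {D : ℕ} (f : E D →ₗ[ℝ] ℝ) (c : ℝ) (k : Fin D) :
    (pol f c).coeff ((k : ℕ) + 1) = - f (EuclideanSpace.single k 1) := by
  unfold pol
  rw [Polynomial.coeff_sub, Polynomial.coeff_C_succ, Polynomial.finsetSum_coeff,
    Finset.sum_eq_single k, Polynomial.coeff_C_mul_X_pow, if_pos rfl, zero_sub]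
  · intro j _ hj
    rw [Polynomial.coeff_C_mul_X_pow, if_neg]
    intro h
    exact hj (Fin.ext (by omega))
  · intro h
    exact (h (Finset.mem_univ _)).elim

section

variable {D : ℕ} {ι : Type} {Lf : ι → ℝ[X] →ₗ[ℝ] ℝ} (h1 : ∀ x, Lf x 1 = 1)

include h1

theorem vtx_of {x : ι} {g : ℝ[X]} (hg : g.natDegree ≤ D) (h : ∀ y, y ≠ x → Lf x g < Lf y g) :
    Vtx (fun x => vec D (Lf x)) x := by
  refine ⟨-dual D g, fun y hy => ?_⟩
  have := h y hy
  rw [dual_vec hg _ (h1 x), dual_vec hg _ (h1 y)] at this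
  rw [LinearMap.neg_apply, LinearMap.neg_apply]
  linarith

theorem edg_of {x y : ι} {g : ℝ[X]} (hg : g.natDegree ≤ D) (hxy : Lf x g = Lf y g)
    (h : ∀ z, z ≠ x → z ≠ y → Lf x g < Lf z g) : Edg (fun x => vec D (Lf x)) x y := by
  refine ⟨-dual D g, ?_, fun z hz hz' => ?_⟩
  · rw [dual_vec hg _ (h1 x), dual_vec hg _ (h1 y)] at hxy
    rw [LinearMap.neg_apply, LinearMap.neg_apply]
    linarith
  · have := h z hz hz'
    rw [dual_vec hg _ (h1 x), dual_vec hg _ (h1 z)] at this
    rw [LinearMap.neg_apply, LinearMap.neg_apply]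
    linarith

theorem of_edg {x y : ι} (h : Edg (fun x => vec D (Lf x)) x y) :
    ∃ g : ℝ[X], g.natDegree ≤ D ∧ Lf x g = 0 ∧ Lf y g = 0 ∧ ∀ z, z ≠ x → z ≠ y → 0 < Lf z g := by
  obtain ⟨f, hf1, hf2⟩ := h
  refine ⟨pol f (f (vec D (Lf x))), pol_natDegree _ _, ?_, ?_, fun z hz hz' => ?_⟩
  · rw [pol_app _ _ _ (h1 x), sub_self]
  · rw [pol_app _ _ _ (h1 y)]
    have : f (vec D (Lf x)) = f (vec D (Lf y)) := hf1
    rw [this, sub_self]
  · rw [pol_app _ _ _ (h1 z)]
    have : f (vec D (Lf z)) < f (vec D (Lf x)) := hf2 z hz hz'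
    linarith

end

theorem edg_symm {d : ℕ} {ι : Type} {p : ι → E d} {i j : ι} (h : Edg p i j) : Edg p j i := by
  obtain ⟨f, h1, h2⟩ := h
  exact ⟨f, h1.symm, fun k hk hk' => by rw [← h1]; exact h2 k hk' hk⟩

end RealM

open RealM in
theorem realize {n D : ℕ} (hD : 4 ≤ D) (hn : D < n) {I : Type} [Fintype I] [DecidableEq I]
    (L : I → ℝ[X] →ₗ[ℝ] ℝ) (h1 : ∀ i, L i 1 = 1) (F : I → Finset ℕ)
    (hF : ∀ i, (F i).Nonempty)
    (hvis : ∀ i, ∀ s ∈ F i, s < n ∧ ∃ g : ℝ[X], g.natDegree ≤ D ∧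
      (∀ t < n, 0 ≤ g.eval (t : ℝ)) ∧ g.eval (s : ℝ) = 0 ∧ L i g < 0 ∧
      ∀ j, j ≠ i → 0 ≤ L j g)
    (hnon1 : ∀ i j, i ≠ j → ∀ T σ, Gale n D T σ → 0 < L i (gp T σ) + L j (gp T σ))
    (hnon2 : ∀ i, ∀ s < n, s ∉ F i → ∀ T σ, Gale n D T σ →
      0 < L i (gp T σ) + (gp T σ).eval (s : ℝ))
    (hsq : ∀ i, ∀ s < n, 0 < L i ((X - C (s : ℝ)) ^ 2))
    (hsq2 : ∀ i, ∀ s < n, ∀ s' < n, s ≠ s' →
      0 < L i ((X - C (s : ℝ)) ^ 2 * (X - C (s' : ℝ)) ^ 2)) :
    ∃ p : Fin n ⊕ I → E D, (∀ x, Vtx p x) ∧ (∀ x y, x ≠ y → (Edg p x y ↔ Adj F x y)) ∧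
      affineSpan ℝ (Set.range p) = ⊤ := by
  classical
  set Lf : Fin n ⊕ I → ℝ[X] →ₗ[ℝ] ℝ :=
    Sum.elim (fun a : Fin n => Polynomial.leval ((a : ℕ) : ℝ)) L with hLf
  have hl : ∀ (a : Fin n) (g : ℝ[X]), Lf (Sum.inl a) g = g.eval ((a : ℕ) : ℝ) := fun a g => rfl
  have hr : ∀ (i : I) (g : ℝ[X]), Lf (Sum.inr i) g = L i g := fun i g => rfl
  have hone : ∀ x, Lf x 1 = 1 := by
    rintro (a | i)
    · rw [hl, Polynomial.eval_one]
    · rw [hr, h1]
  have hsqd : ∀ s : ℝ, ((X - C s) ^ 2 : ℝ[X]).natDegree ≤ D := by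
    intro s
    rw [Polynomial.natDegree_pow, Polynomial.natDegree_X_sub_C]
    omega
  have hsq2d : ∀ s s' : ℝ, ((X - C s) ^ 2 * (X - C s') ^ 2 : ℝ[X]).natDegree ≤ D := by
    intro s s'
    refine (Polynomial.natDegree_mul_le).trans ?_
    rw [Polynomial.natDegree_pow, Polynomial.natDegree_pow, Polynomial.natDegree_X_sub_C,
      Polynomial.natDegree_X_sub_C]
    omega
  have hcast : ∀ {a b : ℕ}, a ≠ b → ((a : ℝ) - (b : ℝ)) ^ 2 > 0 := by
    intro a b hab
    have : (a : ℝ) - (b : ℝ) ≠ 0 := sub_ne_zero.2 (by exact_mod_cast hab)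
    positivity
  have hne : ∀ {a b : Fin n}, a ≠ b → (a : ℕ) ≠ (b : ℕ) := fun h h' => h (Fin.ext h')
  -- the polynomial of an edge between `inr i` and `inl s`, `s ∈ F i`
  have hedge : ∀ (i : I) (s : Fin n), (s : ℕ) ∈ F i →
      Edg (fun x => vec D (Lf x)) (Sum.inr i) (Sum.inl s) := by
    intro i s hs
    obtain ⟨hsn, g, hg, hg0, hgs, hgi, hgj⟩ := hvis i s hs
    have hpos := hsq i s hsn
    set c := - L i g / L i ((X - C ((s : ℕ) : ℝ)) ^ 2) with hc
    have hcpos : 0 < c := div_pos (by linarith) hpos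
    have hval : ∀ x, Lf x (g + c • (X - C ((s : ℕ) : ℝ)) ^ 2) =
        Lf x g + c * Lf x ((X - C ((s : ℕ) : ℝ)) ^ 2) := by
      intro x
      rw [map_add, map_smul, smul_eq_mul]
    have e1 : Lf (Sum.inr i) (g + c • (X - C ((s : ℕ) : ℝ)) ^ 2) = 0 := by
      rw [hval, hr, hr, hc]
      field_simp
      ring
    have e2 : Lf (Sum.inl s) (g + c • (X - C ((s : ℕ) : ℝ)) ^ 2) = 0 := by
      rw [hval, hl, hl, hgs]
      simp
    refine edg_of hone (g := g + c • (X - C ((s : ℕ) : ℝ)) ^ 2) ?_ (e1.trans e2.symm) ?_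
    · refine (Polynomial.natDegree_add_le _ _).trans (max_le hg ?_)
      exact (Polynomial.natDegree_smul_le _ _).trans (hsqd _)
    · intro z hz hz'
      rw [e1, hval]
      rcases z with a | j
      · rw [hl, hl]
        have ha : (a : ℕ) ≠ (s : ℕ) := hne (fun h => hz' (by rw [h]))
        have h2 := hg0 a a.2
        have h3 : 0 < c * ((X - C ((s : ℕ) : ℝ)) ^ 2 : ℝ[X]).eval ((a : ℕ) : ℝ) := by
          refine mul_pos hcpos ?_
          rw [Polynomial.eval_pow, Polynomial.eval_sub, Polynomial.eval_X, Polynomial.eval_C]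
          exact hcast ha
        linarith
      · rw [hr, hr]
        have hj : j ≠ i := fun h => hz (by rw [h])
        have h2 := hgj j hj
        have h3 := mul_pos hcpos (hsq j s hsn)
        linarith
  refine ⟨fun x => vec D (Lf x), ?_, ?_, ?_⟩
  · rintro (s | i)
    · refine vtx_of hone (g := (X - C ((s : ℕ) : ℝ)) ^ 2) (hsqd _) fun y hy => ?_
      have e : Lf (Sum.inl s) ((X - C ((s : ℕ) : ℝ)) ^ 2) = 0 := by rw [hl]; simp
      rw [e]
      rcases y with a | j
      · rw [hl, Polynomial.eval_pow, Polynomial.eval_sub, Polynomial.eval_X, Polynomial.eval_C]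
        exact hcast (hne (fun h => hy (by rw [h])))
      · rw [hr]
        exact hsq j s s.2
    · obtain ⟨s, hs⟩ := hF i
      obtain ⟨hsn, g, hg, hg0, hgs, hgi, hgj⟩ := hvis i s hs
      refine vtx_of hone hg fun y hy => ?_
      rw [hr]
      rcases y with a | j
      · rw [hl]
        exact lt_of_lt_of_le hgi (hg0 a a.2)
      · rw [hr]
        exact lt_of_lt_of_le hgi (hgj j (fun h => hy (by rw [h])))
  · -- non-edges
    have hn1 : ∀ i j : I, i ≠ j → ¬ Edg (fun x => vec D (Lf x)) (Sum.inr i) (Sum.inr j) := by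
      intro i j hij hE
      obtain ⟨g, hg, hgi, hgj, hgz⟩ := of_edg hone hE
      have hpos : ∀ t < n, 0 < g.eval (t : ℝ) := fun t ht =>
        hgz (Sum.inl ⟨t, ht⟩) Sum.inl_ne_inr Sum.inl_ne_inr
      have h0 : g ≠ 0 := by
        intro h
        have := hpos 0 (by omega)
        rw [h, Polynomial.eval_zero] at this
        exact lt_irrefl _ this
      have := pos_of_gale hn (L i + L j) (fun T σ hT => hnon1 i j hij T σ hT) g hg
        (fun t ht => (hpos t ht).le) h0
      rw [LinearMap.add_apply] at this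
      rw [hr] at hgi hgj
      linarith
    have hn2 : ∀ (i : I) (s : Fin n), (s : ℕ) ∉ F i →
        ¬ Edg (fun x => vec D (Lf x)) (Sum.inr i) (Sum.inl s) := by
      intro i s hs hE
      obtain ⟨g, hg, hgi, hgs, hgz⟩ := of_edg hone hE
      have hpos : ∀ t < n, t ≠ (s : ℕ) → 0 < g.eval (t : ℝ) := fun t ht hts =>
        hgz (Sum.inl ⟨t, ht⟩) Sum.inl_ne_inr (fun h => hts (by
          have := Sum.inl.inj h
          rw [← this]))
      rw [hl] at hgs
      have h0 : g ≠ 0 := by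
        intro h
        have : ∃ t < n, t ≠ (s : ℕ) := by
          by_cases hs0 : (s : ℕ) = 0
          · exact ⟨1, by omega, by omega⟩
          · exact ⟨0, by omega, by omega⟩
        obtain ⟨t, ht, hts⟩ := this
        have := hpos t ht hts
        rw [h, Polynomial.eval_zero] at this
        exact lt_irrefl _ this
      have := pos_of_gale hn (L i + Polynomial.leval ((s : ℕ) : ℝ))
        (fun T σ hT => hnon2 i s s.2 hs T σ hT) g hg
        (fun t ht => by
          by_cases hts : t = (s : ℕ)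
          · rw [hts, hgs]
          · exact (hpos t ht hts).le) h0
      rw [LinearMap.add_apply, Polynomial.leval_apply, hgs] at this
      rw [hr] at hgi
      linarith
    rintro (a | i) (b | j) hxy
    · have hab : a ≠ b := fun h => hxy (by rw [h])
      refine ⟨fun _ => hab, fun _ => ?_⟩
      have e1 : Lf (Sum.inl a) ((X - C ((a : ℕ) : ℝ)) ^ 2 * (X - C ((b : ℕ) : ℝ)) ^ 2) = 0 := by
        rw [hl]; simp
      have e2 : Lf (Sum.inl b) ((X - C ((a : ℕ) : ℝ)) ^ 2 * (X - C ((b : ℕ) : ℝ)) ^ 2) = 0 := by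
        rw [hl]; simp
      refine edg_of hone (hsq2d _ _) (e1.trans e2.symm) fun z hz hz' => ?_
      rw [e1]
      rcases z with c | j
      · rw [hl, Polynomial.eval_mul, Polynomial.eval_pow, Polynomial.eval_pow,
          Polynomial.eval_sub, Polynomial.eval_sub, Polynomial.eval_X, Polynomial.eval_C,
          Polynomial.eval_C]
        exact mul_pos (hcast (hne (fun h => hz (by rw [h])))) (hcast (hne (fun h => hz' (by rw [h]))))
      · rw [hr]
        exact hsq2 j a a.2 b b.2 (hne hab)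
    · constructor
      · intro hE
        by_contra hcon
        exact hn2 j a hcon (edg_symm hE)
      · intro h
        exact edg_symm (hedge j a h)
    · constructor
      · intro hE
        by_contra hcon
        exact hn2 i b hcon hE
      · intro h
        exact hedge i b h
    · constructor
      · intro hE
        exact (hn1 i j (fun h => hxy (by rw [h])) hE).elim
      · intro h
        exact h.elim
  · -- the affine span
    have hn0 : 0 < n := by omega
    have hnon : (Set.range fun x => vec D (Lf x)).Nonempty := ⟨_, Sum.inl ⟨0, hn0⟩, rfl⟩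
    rw [AffineSubspace.affineSpan_eq_top_iff_vectorSpan_eq_top_of_nonempty ℝ (E D) (E D) hnon]
    by_contra hcon
    obtain ⟨f, hf0, hf⟩ := Submodule.exists_le_ker_of_lt_top _ (lt_top_iff_ne_top.2 hcon)
    set c := f (vec D (Lf (Sum.inl ⟨0, hn0⟩))) with hc
    have hconst : ∀ x, f (vec D (Lf x)) = c := by
      intro x
      have := hf (vsub_mem_vectorSpan ℝ (Set.mem_range_self x)
        (Set.mem_range_self (Sum.inl ⟨0, hn0⟩)))
      rw [LinearMap.mem_ker, vsub_eq_sub, map_sub] at this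
      rw [hc]
      linarith
    have hg : pol f c = 0 := by
      refine Polynomial.eq_zero_of_natDegree_lt_card_of_eval_eq_zero (pol f c)
        (f := fun a : Fin n => ((a : ℕ) : ℝ)) ?_ (fun a => ?_) ?_
      · intro a b hab
        have hab' : ((a : ℕ) : ℝ) = ((b : ℕ) : ℝ) := hab
        exact Fin.ext (by exact_mod_cast hab')
      · have := pol_app f c (Lf (Sum.inl a)) (hone _)
        rw [hconst, sub_self, hl] at this
        exact this
      · rw [Fintype.card_fin]
        exact lt_of_le_of_lt (pol_natDegree f c) hn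
    apply hf0
    ext x
    rw [app_eq f x, LinearMap.zero_apply]
    refine Finset.sum_eq_zero fun k _ => ?_
    have := pol_coeff f c k
    rw [hg, Polynomial.coeff_zero] at this
    have h2 : f (EuclideanSpace.single k 1) = 0 := by linarith
    rw [h2, mul_zero]

end Pool.Agent.MP8a30e7
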