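import Mathlib
import Pool.Agent.Lib.MP_8a30e7_co.Defs
import Pool.Agent.Lib.MP_8a30e7_co.Real

/-!
# MP_8a30e7_co: realisation in dimension `e + 2` (beyond triples of facets)
-/

open scoped BigOperators Topology
open Polynomial

namespace Pool.Agent.MP8a30e7

namespace Low

theorem eval_gp (T : Finset ℕ) (σ x : ℝ) :
    (gp T σ).eval x = σ * ∏ τ ∈ T, (x - (τ : ℝ)) := by
  simp [gp, Polynomial.eval_mul, Polynomial.eval_prod]

theorem eval_gp_mem {T : Finset ℕ} {t : ℕ} (ht : t ∈ T) (σ : ℝ) : (gp T σ).eval (t : ℝ) = 0 := by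
  rw [eval_gp, Finset.prod_eq_zero ht (by simp), mul_zero]

theorem prod_ne {T : Finset ℕ} {t : ℕ} (ht : t ∉ T) : ∏ τ ∈ T, ((t : ℝ) - (τ : ℝ)) ≠ 0 := by
  rw [Finset.prod_ne_zero_iff]
  intro τ hτ h
  rw [sub_eq_zero, Nat.cast_inj] at h
  exact ht (h ▸ hτ)

theorem gale_pos {n D : ℕ} {T : Finset ℕ} {σ : ℝ} (h : Gale n D T σ) {t : ℕ} (ht : t < n)
    (hT : t ∉ T) : 0 < (gp T σ).eval (t : ℝ) := by
  refine lt_of_le_of_ne (h.2.2.2 t ht) (Ne.symm ?_)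
  rw [eval_gp]
  refine mul_ne_zero ?_ (prod_ne hT)
  rcases h.2.2.1 with h | h <;> rw [h] <;> norm_num

theorem natDegree_gp (T : Finset ℕ) (σ : ℝ) : (gp T σ).natDegree ≤ T.card := by
  unfold gp
  refine (Polynomial.natDegree_C_mul_le _ _).trans ?_
  refine (Polynomial.natDegree_prod_le _ _).trans ?_
  refine (Finset.sum_le_sum (g := fun _ => 1) fun i _ => ?_).trans (by simp)
  exact Polynomial.natDegree_X_sub_C_le _

theorem ev_pos {u v : ℝ} (hu : 0 < u) : ∀ᶠ ε in 𝓝[>] (0 : ℝ), 0 < u + ε * v := by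
  have h : Filter.Tendsto (fun ε : ℝ => u + ε * v) (𝓝[>] (0 : ℝ)) (𝓝 (u + 0 * v)) :=
    (Continuous.tendsto (by fun_prop) 0).mono_left nhdsWithin_le_nhds
  rw [zero_mul, add_zero] at h
  exact h.eventually (lt_mem_nhds hu)

/-- the average over `R` -/
noncomputable def av (R : Finset ℕ) : ℝ[X] →ₗ[ℝ] ℝ :=
  ((R.card : ℝ)⁻¹) • ∑ r ∈ R, Polynomial.leval (r : ℝ)

theorem av_apply (R : Finset ℕ) (g : ℝ[X]) :
    av R g = (R.card : ℝ)⁻¹ * ∑ r ∈ R, g.eval (r : ℝ) := by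
  simp [av, LinearMap.sum_apply]

/-- the weights on the window -/
noncomputable def kap (j : ℕ) : ℝ := if j = 0 ∨ j = 3 then -5 / 16 else 13 / 16

variable {n e : ℕ} {I : Type} (𝔉 : Fam n e I)

/-- the product over `R i` -/
noncomputable def rho (i : I) (t : ℝ) : ℝ := ∏ r ∈ 𝔉.R i, (t - (r : ℝ))

/-- the normalised weights -/
noncomputable def kp (i : I) (j : ℕ) : ℝ := 𝔉.sg i * kap j / rho 𝔉 i ((𝔉.w i + j : ℕ) : ℝ)

/-- the window functional -/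
noncomputable def Bf (i : I) : ℝ[X] →ₗ[ℝ] ℝ :=
  ∑ j ∈ Finset.range 4, kp 𝔉 i j • Polynomial.leval ((𝔉.w i + j : ℕ) : ℝ)

theorem Bf_apply (i : I) (g : ℝ[X]) :
    Bf 𝔉 i g = ∑ j ∈ Finset.range 4, kp 𝔉 i j * g.eval ((𝔉.w i + j : ℕ) : ℝ) := by
  simp [Bf, LinearMap.sum_apply]

/-- the functional of the vertex `i` -/
noncomputable def Lf (ε : ℝ) (i : I) : ℝ[X] →ₗ[ℝ] ℝ :=
  av (𝔉.R i) + ε • (Bf 𝔉 i - Bf 𝔉 i 1 • av (𝔉.R i))

theorem Lf_apply (ε : ℝ) (i : I) (g : ℝ[X]) :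
    Lf 𝔉 ε i g = av (𝔉.R i) g + ε * (Bf 𝔉 i g - Bf 𝔉 i 1 * av (𝔉.R i) g) := by
  simp [Lf]

theorem Lf_zero {ε : ℝ} {i : I} {g : ℝ[X]} (h : av (𝔉.R i) g = 0) :
    Lf 𝔉 ε i g = ε * Bf 𝔉 i g := by
  rw [Lf_apply, h]; ring

theorem sg_mul (i : I) : 𝔉.sg i * 𝔉.sg i = 1 := by
  rcases 𝔉.sg_or i with h | h <;> rw [h] <;> norm_num

theorem rho_pos (i : I) {t : ℕ} (ht : t < n) (hR : t ∉ 𝔉.R i) : 0 < 𝔉.sg i * rho 𝔉 i (t : ℝ) :=
  𝔉.sign i t ht hR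

theorem kp_mul (i : I) {j : ℕ} (hj : j < 4) :
    kp 𝔉 i j * rho 𝔉 i ((𝔉.w i + j : ℕ) : ℝ) = 𝔉.sg i * kap j := by
  have h := rho_pos 𝔉 i (t := 𝔉.w i + j) (by have := 𝔉.w_lt i; omega) (𝔉.w_not i j hj)
  have h0 : rho 𝔉 i ((𝔉.w i + j : ℕ) : ℝ) ≠ 0 := by
    intro h0
    rw [h0, mul_zero] at h
    exact lt_irrefl _ h
  unfold kp
  field_simp

theorem eval_union (i : I) {p q : ℕ} (hp : p ∉ 𝔉.R i) (hq : q ∉ 𝔉.R i) (hpq : p ≠ q)
    (σ x : ℝ) : (gp (𝔉.R i ∪ {p, q}) σ).eval x = σ * (rho 𝔉 i x * ((x - p) * (x - q))) := by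
  rw [eval_gp, Finset.prod_union, Finset.prod_pair hpq]
  · rfl
  · rw [Finset.disjoint_right]
    intro y hy
    rw [Finset.mem_insert, Finset.mem_singleton] at hy
    rcases hy with rfl | rfl
    · exact hp
    · exact hq

theorem Bf_union (i : I) {p q : ℕ} (hp : p ∉ 𝔉.R i) (hq : q ∉ 𝔉.R i) (hpq : p ≠ q) (σ : ℝ) :
    Bf 𝔉 i (gp (𝔉.R i ∪ {p, q}) σ) =
      σ * 𝔉.sg i * (((𝔉.w i : ℝ) + 3 / 2 - p) * ((𝔉.w i : ℝ) + 3 / 2 - q) - 1) := by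
  rw [Bf_apply]
  have h : ∀ j ∈ Finset.range 4, kp 𝔉 i j * (gp (𝔉.R i ∪ {p, q}) σ).eval ((𝔉.w i + j : ℕ) : ℝ) =
      σ * 𝔉.sg i * (kap j * (((𝔉.w i : ℝ) + j - p) * ((𝔉.w i : ℝ) + j - q))) := by
    intro j hj
    rw [eval_union 𝔉 i hp hq hpq]
    have := kp_mul 𝔉 i (Finset.mem_range.1 hj)
    push_cast at this ⊢
    calc _ = σ * (kp 𝔉 i j * rho 𝔉 i ((𝔉.w i : ℝ) + j)) *
          (((𝔉.w i : ℝ) + j - p) * ((𝔉.w i : ℝ) + j - q)) := by ring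
      _ = _ := by rw [this]; ring
  rw [Finset.sum_congr rfl h]
  simp only [Finset.sum_range_succ, Finset.sum_range_zero, kap]
  norm_num
  ring

theorem av_union (i : I) {T : Finset ℕ} (h : 𝔉.R i ⊆ T) (σ : ℝ) : av (𝔉.R i) (gp T σ) = 0 := by
  rw [av_apply, Finset.sum_eq_zero, mul_zero]
  exact fun r hr => eval_gp_mem (h hr) σ

theorem av_nonneg (i : I) {D : ℕ} {T : Finset ℕ} {σ : ℝ} (h : Gale n D T σ) :
    0 ≤ av (𝔉.R i) (gp T σ) := by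
  rw [av_apply]
  exact mul_nonneg (by positivity) (Finset.sum_nonneg fun r hr => h.2.2.2 r (𝔉.R_lt i r hr))

theorem av_pos' (he : 0 < e) (i : I) {g : ℝ[X]} (h : ∀ r ∈ 𝔉.R i, 0 ≤ g.eval (r : ℝ))
    (h' : ∃ r ∈ 𝔉.R i, 0 < g.eval (r : ℝ)) : 0 < av (𝔉.R i) g := by
  rw [av_apply]
  have hc : 0 < ((𝔉.R i).card : ℝ) := by rw [𝔉.card_R i]; exact_mod_cast he
  exact mul_pos (inv_pos.2 hc) (Finset.sum_pos' h h')

theorem av_pos (he : 0 < e) (i : I) {D : ℕ} {T : Finset ℕ} {σ : ℝ} (h : Gale n D T σ)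
    (hR : ¬ 𝔉.R i ⊆ T) : 0 < av (𝔉.R i) (gp T σ) := by
  refine av_pos' 𝔉 he i (fun r hr => h.2.2.2 r (𝔉.R_lt i r hr)) ?_
  rw [Finset.not_subset] at hR
  obtain ⟨r, hr, hrT⟩ := hR
  exact ⟨r, hr, gale_pos h (𝔉.R_lt i r hr) hrT⟩

/-- the two kinds of facets containing `R i` -/
theorem key (i : I) {T : Finset ℕ} {σ : ℝ} (h : Gale n (e + 2) T σ) (hR : 𝔉.R i ⊆ T) :
    ((∃ a < 3, T = 𝔉.R i ∪ {𝔉.w i + a, 𝔉.w i + a + 1}) ∧ -(5 / 4) ≤ Bf 𝔉 i (gp T σ)) ∨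
      11 / 4 ≤ Bf 𝔉 i (gp T σ) := by
  have hc : (T \ 𝔉.R i).card = 2 := by
    rw [Finset.card_sdiff_of_subset hR, h.2.1, 𝔉.card_R i]; omega
  obtain ⟨p, q, hpq, hT, hp, hq⟩ : ∃ p q, p < q ∧ T = 𝔉.R i ∪ {p, q} ∧ p ∉ 𝔉.R i ∧ q ∉ 𝔉.R i := by
    obtain ⟨x, y, hxy, hx⟩ := Finset.card_eq_two.1 hc
    have hxT : x ∈ T \ 𝔉.R i := by rw [hx]; simp
    have hyT : y ∈ T \ 𝔉.R i := by rw [hx]; simp
    rw [Finset.mem_sdiff] at hxT hyT
    have hT : T = 𝔉.R i ∪ {x, y} := by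
      rw [← hx, Finset.union_sdiff_of_subset hR]
    rcases lt_or_gt_of_ne hxy with hlt | hlt
    · exact ⟨x, y, hlt, hT, hxT.2, hyT.2⟩
    · exact ⟨y, x, hlt, by rw [hT, Finset.pair_comm], hyT.2, hxT.2⟩
  have hval := Bf_union 𝔉 i hp hq (ne_of_lt hpq) σ
  rw [← hT] at hval
  -- the sign
  obtain ⟨s, hs, hs1⟩ : ∃ s : ℝ, s = σ * 𝔉.sg i ∧ (s = 1 ∨ s = -1) := by
    refine ⟨_, rfl, ?_⟩
    rcases h.2.2.1 with h1 | h1 <;> rcases 𝔉.sg_or i with h2 | h2 <;> rw [h1, h2] <;> norm_num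
  rw [← hs] at hval
  have hwin : ∀ j < 4, 𝔉.w i + j ≠ p → 𝔉.w i + j ≠ q →
      0 < s * (((𝔉.w i + j : ℕ) : ℝ) - p) * (((𝔉.w i + j : ℕ) : ℝ) - q) := by
    intro j hj h1 h2
    have hlt : 𝔉.w i + j < n := by have := 𝔉.w_lt i; omega
    have hnT : 𝔉.w i + j ∉ T := by
      rw [hT, Finset.mem_union, Finset.mem_insert, Finset.mem_singleton]
      rintro (h3 | h3 | h3)
      · exact 𝔉.w_not i j hj h3
      · exact h1 h3
      · exact h2 h3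
    have h3 := gale_pos h hlt hnT
    rw [hT, eval_union 𝔉 i hp hq (ne_of_lt hpq)] at h3
    have h4 := rho_pos 𝔉 i hlt (𝔉.w_not i j hj)
    have h5 := mul_pos h3 h4
    have h6 : s * (((𝔉.w i + j : ℕ) : ℝ) - p) * (((𝔉.w i + j : ℕ) : ℝ) - q) *
        rho 𝔉 i ((𝔉.w i + j : ℕ) : ℝ) ^ 2 > 0 := by
      rw [hs]
      calc _ = _ := ?_
        _ > 0 := h5
      ring
    exact pos_of_mul_pos_left h6 (sq_nonneg _)
  have hpq' : (p : ℝ) + 1 ≤ q := by exact_mod_cast hpq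
  rcases hs1 with hs1 | hs1
  · -- no window point strictly between
    have hout : ∀ j < 4, 𝔉.w i + j ≤ p ∨ q ≤ 𝔉.w i + j := by
      intro j hj
      by_contra hcon
      push Not at hcon
      have h1 := hwin j hj (by omega) (by omega)
      rw [hs1, one_mul] at h1
      have h2 : (p : ℝ) < ((𝔉.w i + j : ℕ) : ℝ) := by exact_mod_cast hcon.1
      have h3 : ((𝔉.w i + j : ℕ) : ℝ) < q := by exact_mod_cast hcon.2
      nlinarith
    have h0 := hout 0 (by norm_num)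
    have h1 := hout 1 (by norm_num)
    have h2 := hout 2 (by norm_num)
    have h3 := hout 3 (by norm_num)
    have hcases : (∃ a < 3, p = 𝔉.w i + a ∧ q = 𝔉.w i + a + 1) ∨ q ≤ 𝔉.w i ∨ 𝔉.w i + 3 ≤ p := by
      by_cases ha : q ≤ 𝔉.w i
      · exact Or.inr (Or.inl ha)
      by_cases hb : 𝔉.w i + 3 ≤ p
      · exact Or.inr (Or.inr hb)
      left
      refine ⟨p - 𝔉.w i, ?_, ?_, ?_⟩ <;> omega
    rw [hs1, one_mul] at hval
    rcases hcases with ⟨a, ha, rfl, rfl⟩ | hc | hc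
    · left
      refine ⟨⟨a, ha, hT⟩, ?_⟩
      rw [hval]
      push_cast
      nlinarith [sq_nonneg ((a : ℝ) - 1)]
    · right
      rw [hval]
      have : (q : ℝ) ≤ 𝔉.w i := by exact_mod_cast hc
      nlinarith
    · right
      rw [hval]
      have : (𝔉.w i : ℝ) + 3 ≤ p := by exact_mod_cast hc
      nlinarith
  · -- all window points between
    have hin : ∀ j < 4, p ≤ 𝔉.w i + j ∧ 𝔉.w i + j ≤ q := by
      intro j hj
      by_cases h1 : 𝔉.w i + j = p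
      · omega
      by_cases h2 : 𝔉.w i + j = q
      · omega
      have h3 := hwin j hj h1 h2
      rw [hs1] at h3
      constructor
      · by_contra hcon
        push Not at hcon
        have h4 : ((𝔉.w i + j : ℕ) : ℝ) < p := by exact_mod_cast hcon
        nlinarith
      · by_contra hcon
        push Not at hcon
        have h4 : (q : ℝ) < ((𝔉.w i + j : ℕ) : ℝ) := by exact_mod_cast hcon
        nlinarith
    right
    have h0 := (hin 0 (by norm_num)).1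
    have h3 := (hin 3 (by norm_num)).2
    have h4 : (p : ℝ) ≤ 𝔉.w i := by exact_mod_cast h0
    have h5 : (𝔉.w i : ℝ) + 3 ≤ q := by exact_mod_cast h3
    rw [hval, hs1]
    nlinarith

/-- the triple of facets -/
theorem gale_triple (i : I) {a : ℕ} (ha : a < 3) :
    Gale n (e + 2) (𝔉.R i ∪ {𝔉.w i + a, 𝔉.w i + a + 1}) (𝔉.sg i) := by
  have h1 : 𝔉.w i + a ∉ 𝔉.R i := 𝔉.w_not i a (by omega)
  have h2 : 𝔉.w i + a + 1 ∉ 𝔉.R i := 𝔉.w_not i (a + 1) (by omega)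
  have hw := 𝔉.w_lt i
  refine ⟨?_, ?_, 𝔉.sg_or i, ?_⟩
  · intro x hx
    rw [Finset.mem_union, Finset.mem_insert, Finset.mem_singleton] at hx
    rw [Finset.mem_range]
    rcases hx with hx | hx | hx
    · exact 𝔉.R_lt i x hx
    · omega
    · omega
  · rw [Finset.card_union_of_disjoint, 𝔉.card_R i, Finset.card_pair (by omega)]
    rw [Finset.disjoint_right]
    intro y hy
    rw [Finset.mem_insert, Finset.mem_singleton] at hy
    rcases hy with rfl | rfl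
    · exact h1
    · exact h2
  · intro t ht
    by_cases hR : t ∈ 𝔉.R i
    · rw [eval_gp_mem (Finset.mem_union_left _ hR)]
    rw [eval_union 𝔉 i h1 h2 (by omega), ← mul_assoc]
    refine mul_nonneg (rho_pos 𝔉 i ht hR).le ?_
    push_cast
    rcases Nat.lt_or_ge t (𝔉.w i + a + 1) with h | h
    · have h3 : (t : ℝ) ≤ 𝔉.w i + a := by exact_mod_cast Nat.lt_succ_iff.1 h
      nlinarith
    · have h3 : (𝔉.w i : ℝ) + a + 1 ≤ t := by exact_mod_cast h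
      nlinarith

theorem exists_eps [Fintype I] (he : 3 ≤ e) : ∃ ε : ℝ, 0 < ε ∧
    (∀ i, ∀ T σ, Gale n (e + 2) T σ → ¬ 𝔉.R i ⊆ T → 0 < Lf 𝔉 ε i (gp T σ)) ∧
    (∀ i j, ∀ T σ, Gale n (e + 2) T σ → ¬ 𝔉.R j ⊆ T →
      0 < Lf 𝔉 ε i (gp T σ) + Lf 𝔉 ε j (gp T σ)) ∧
    (∀ i, ∀ s < n, ∀ T σ, Gale n (e + 2) T σ → s ∉ T →
      0 < Lf 𝔉 ε i (gp T σ) + (gp T σ).eval (s : ℝ)) ∧
    (∀ i, ∀ s < n, 0 < Lf 𝔉 ε i ((X - C (s : ℝ)) ^ 2)) ∧
    (∀ i, ∀ s < n, ∀ s' < n, 0 < Lf 𝔉 ε i ((X - C (s : ℝ)) ^ 2 * (X - C (s' : ℝ)) ^ 2)) := by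
  have he0 : 0 < e := by omega
  have hfin : ∀ P : ℝ → Finset ℕ → ℝ → Prop, (∀ T σ, Gale n (e + 2) T σ →
      ∀ᶠ ε in 𝓝[>] (0 : ℝ), P ε T σ) →
      ∀ᶠ ε in 𝓝[>] (0 : ℝ), ∀ T σ, Gale n (e + 2) T σ → P ε T σ := by
    intro P hP
    have h1 : ∀ᶠ ε in 𝓝[>] (0 : ℝ), ∀ T ∈ (Finset.range n).powerset, ∀ σ ∈ ({1, -1} : Finset ℝ),
        Gale n (e + 2) T σ → P ε T σ := by
      rw [Filter.eventually_all_finset]
      intro T _
      rw [Filter.eventually_all_finset]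
      intro σ _
      by_cases hG : Gale n (e + 2) T σ
      · exact (hP T σ hG).mono fun ε h _ => h
      · exact Filter.Eventually.of_forall fun ε h => absurd h hG
    refine h1.mono fun ε h T σ hG => h T ?_ σ ?_ hG
    · rw [Finset.mem_powerset]; exact hG.1
    · rw [Finset.mem_insert, Finset.mem_singleton]; exact hG.2.2.1
  have hlt : ∀ P : ℝ → ℕ → Prop, (∀ s < n, ∀ᶠ ε in 𝓝[>] (0 : ℝ), P ε s) →
      ∀ᶠ ε in 𝓝[>] (0 : ℝ), ∀ s < n, P ε s := by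
    intro P hP
    have h1 : ∀ᶠ ε in 𝓝[>] (0 : ℝ), ∀ s ∈ Finset.range n, P ε s := by
      rw [Filter.eventually_all_finset]
      exact fun s hs => hP s (Finset.mem_range.1 hs)
    exact h1.mono fun ε h s hs => h s (Finset.mem_range.2 hs)
  have E1 : ∀ᶠ ε in 𝓝[>] (0 : ℝ), ∀ i, ∀ T σ, Gale n (e + 2) T σ → ¬ 𝔉.R i ⊆ T →
      0 < Lf 𝔉 ε i (gp T σ) := by
    rw [Filter.eventually_all]
    intro i
    refine hfin (fun ε T σ => ¬ 𝔉.R i ⊆ T → 0 < Lf 𝔉 ε i (gp T σ)) fun T σ hG => ?_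
    by_cases hR : 𝔉.R i ⊆ T
    · exact Filter.Eventually.of_forall fun ε h => absurd hR h
    · simp only [Lf_apply]
      exact (ev_pos (av_pos 𝔉 he0 i hG hR)).mono fun ε h _ => h
  have E2 : ∀ᶠ ε in 𝓝[>] (0 : ℝ), ∀ i j, ∀ T σ, Gale n (e + 2) T σ → ¬ 𝔉.R j ⊆ T →
      0 < Lf 𝔉 ε i (gp T σ) + Lf 𝔉 ε j (gp T σ) := by
    rw [Filter.eventually_all]
    intro i
    rw [Filter.eventually_all]
    intro j
    refine hfin (fun ε T σ => ¬ 𝔉.R j ⊆ T → 0 < Lf 𝔉 ε i (gp T σ) + Lf 𝔉 ε j (gp T σ))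
      fun T σ hG => ?_
    by_cases hR : 𝔉.R j ⊆ T
    · exact Filter.Eventually.of_forall fun ε h => absurd hR h
    · simp only [Lf_apply]
      have h1 := av_pos 𝔉 he0 j hG hR
      have h2 := av_nonneg 𝔉 i hG
      refine (ev_pos (u := av (𝔉.R i) (gp T σ) + av (𝔉.R j) (gp T σ))
        (v := (Bf 𝔉 i (gp T σ) - Bf 𝔉 i 1 * av (𝔉.R i) (gp T σ)) +
          (Bf 𝔉 j (gp T σ) - Bf 𝔉 j 1 * av (𝔉.R j) (gp T σ))) (by linarith)).mono fun ε h _ => ?_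
      linarith
  have E3 : ∀ᶠ ε in 𝓝[>] (0 : ℝ), ∀ i, ∀ s < n, ∀ T σ, Gale n (e + 2) T σ → s ∉ T →
      0 < Lf 𝔉 ε i (gp T σ) + (gp T σ).eval (s : ℝ) := by
    rw [Filter.eventually_all]
    intro i
    refine hlt (fun ε s => ∀ T σ, Gale n (e + 2) T σ → s ∉ T →
      0 < Lf 𝔉 ε i (gp T σ) + (gp T σ).eval (s : ℝ)) fun s hs => ?_
    refine hfin (fun ε T σ => s ∉ T → 0 < Lf 𝔉 ε i (gp T σ) + (gp T σ).eval (s : ℝ))
      fun T σ hG => ?_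
    by_cases hT : s ∈ T
    · exact Filter.Eventually.of_forall fun ε h => absurd hT h
    · simp only [Lf_apply]
      have h1 := gale_pos hG hs hT
      have h2 := av_nonneg 𝔉 i hG
      refine (ev_pos (u := av (𝔉.R i) (gp T σ) + (gp T σ).eval (s : ℝ))
        (v := (Bf 𝔉 i (gp T σ) - Bf 𝔉 i 1 * av (𝔉.R i) (gp T σ))) (by linarith)).mono
          fun ε h _ => ?_
      linarith
  have E4 : ∀ᶠ ε in 𝓝[>] (0 : ℝ), ∀ i, ∀ s < n, 0 < Lf 𝔉 ε i ((X - C (s : ℝ)) ^ 2) := by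
    rw [Filter.eventually_all]
    intro i
    refine hlt (fun ε s => 0 < Lf 𝔉 ε i ((X - C (s : ℝ)) ^ 2)) fun s _ => ?_
    simp only [Lf_apply]
    refine ev_pos (av_pos' 𝔉 he0 i (fun r _ => ?_) ?_)
    · simp only [eval_pow, eval_sub, eval_X, eval_C]; positivity
    · obtain ⟨r, hr, hne⟩ := Finset.exists_mem_ne (s := 𝔉.R i) (by rw [𝔉.card_R i]; omega) s
      refine ⟨r, hr, ?_⟩
      have : (r : ℝ) - s ≠ 0 := by rw [sub_ne_zero]; exact_mod_cast hne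
      simp only [eval_pow, eval_sub, eval_X, eval_C]; positivity
  have E5 : ∀ᶠ ε in 𝓝[>] (0 : ℝ), ∀ i, ∀ s < n, ∀ s' < n,
      0 < Lf 𝔉 ε i ((X - C (s : ℝ)) ^ 2 * (X - C (s' : ℝ)) ^ 2) := by
    rw [Filter.eventually_all]
    intro i
    refine hlt (fun ε s => ∀ s' < n, 0 < Lf 𝔉 ε i ((X - C (s : ℝ)) ^ 2 * (X - C (s' : ℝ)) ^ 2))
      fun s _ => ?_
    refine hlt (fun ε s' => 0 < Lf 𝔉 ε i ((X - C (s : ℝ)) ^ 2 * (X - C (s' : ℝ)) ^ 2))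
      fun s' _ => ?_
    simp only [Lf_apply]
    refine ev_pos (av_pos' 𝔉 he0 i (fun r _ => ?_) ?_)
    · simp only [eval_mul, eval_pow, eval_sub, eval_X, eval_C]; positivity
    · have hne : (𝔉.R i \ {s, s'}).Nonempty := by
        rw [← Finset.card_pos]
        have h1 := Finset.le_card_sdiff {s, s'} (𝔉.R i)
        have h2 := Finset.card_le_two (a := s) (b := s')
        rw [𝔉.card_R i] at h1
        omega
      obtain ⟨r, hr⟩ := hne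
      rw [Finset.mem_sdiff, Finset.mem_insert, Finset.mem_singleton] at hr
      push Not at hr
      refine ⟨r, hr.1, ?_⟩
      have h1 : (r : ℝ) - s ≠ 0 := by rw [sub_ne_zero]; exact_mod_cast hr.2.1
      have h2 : (r : ℝ) - s' ≠ 0 := by rw [sub_ne_zero]; exact_mod_cast hr.2.2
      simp only [eval_mul, eval_pow, eval_sub, eval_X, eval_C]; positivity
  have E6 : ∀ᶠ ε in 𝓝[>] (0 : ℝ), 0 < ε := eventually_mem_nhdsWithin
  obtain ⟨ε, h⟩ := (E6.and (E1.and (E2.and (E3.and (E4.and E5))))).exists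
  exact ⟨ε, h⟩

end Low

open Low in
theorem real_low {n e : ℕ} {I : Type} [Fintype I] [DecidableEq I] (𝔉 : Fam n e I)
    (he : 3 ≤ e) (hn : e + 4 < n) :
    ∃ p : Fin n ⊕ I → E (e + 2), (∀ x, Vtx p x) ∧
      (∀ x y, x ≠ y → (Edg p x y ↔ Adj 𝔉.F x y)) ∧ affineSpan ℝ (Set.range p) = ⊤ := by
  obtain ⟨ε, hε, E1, E2, E3, E4, E5⟩ := exists_eps 𝔉 he
  have hF : ∀ i x, x ∈ 𝔉.F i ↔ x ∈ 𝔉.R i ∨ x = 𝔉.w i ∨ x = 𝔉.w i + 1 ∨ x = 𝔉.w i + 2 ∨
      x = 𝔉.w i + 3 := by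
    intro i x
    simp only [Fam.F, Finset.mem_union, Finset.mem_insert, Finset.mem_singleton]
  refine realize (n := n) (D := e + 2) (by omega) (by omega) (Lf 𝔉 ε) ?_ 𝔉.F ?_ ?_ ?_ ?_
    E4 (fun i s hs s' hs' _ => E5 i s hs s' hs')
  · intro i
    have hc : ((𝔉.R i).card : ℝ) ≠ 0 := by
      rw [𝔉.card_R i]
      have : 0 < e := by omega
      positivity
    have h1 : av (𝔉.R i) 1 = 1 := by
      rw [av_apply]
      simp [hc]
    rw [Lf_apply, h1]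
    ring
  · intro i
    exact ⟨𝔉.w i, by rw [hF]; simp⟩
  · intro i s hs
    have hsn : s < n := by
      have hw := 𝔉.w_lt i
      rcases (hF i s).1 hs with h | h | h | h | h
      · exact 𝔉.R_lt i s h
      all_goals omega
    obtain ⟨a, ha, hsa⟩ : ∃ a < 3, s ∈ 𝔉.R i ∪ {𝔉.w i + a, 𝔉.w i + a + 1} := by
      rcases (hF i s).1 hs with h | h | h | h | h
      · exact ⟨0, by norm_num, Finset.mem_union_left _ h⟩
      · exact ⟨0, by norm_num, by simp [h]⟩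
      · exact ⟨0, by norm_num, by simp [h]⟩
      · exact ⟨2, by norm_num, by simp [h]⟩
      · exact ⟨2, by norm_num, by simp [h]⟩
    have hG := gale_triple 𝔉 i ha
    have hsub : 𝔉.R i ⊆ 𝔉.R i ∪ {𝔉.w i + a, 𝔉.w i + a + 1} := Finset.subset_union_left
    refine ⟨hsn, gp (𝔉.R i ∪ {𝔉.w i + a, 𝔉.w i + a + 1}) (𝔉.sg i), ?_, hG.2.2.2,
      eval_gp_mem hsa _, ?_, ?_⟩
    · exact (natDegree_gp _ _).trans_eq hG.2.1
    · rw [Lf_zero 𝔉 (av_union 𝔉 i hsub _)]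
      refine mul_neg_of_pos_of_neg hε ?_
      rw [Bf_union 𝔉 i (p := 𝔉.w i + a) (q := 𝔉.w i + a + 1) (𝔉.w_not i a (by omega))
        (𝔉.w_not i (a + 1) (by omega)) (by omega), sg_mul 𝔉 i]
      push_cast
      have h1 : (a : ℝ) ≤ 2 := by exact_mod_cast Nat.lt_succ_iff.1 ha
      have h2 : (0 : ℝ) ≤ a := by positivity
      nlinarith
    · intro j hj
      by_cases hR : 𝔉.R j ⊆ 𝔉.R i ∪ {𝔉.w i + a, 𝔉.w i + a + 1}
      · rw [Lf_zero 𝔉 (av_union 𝔉 j hR _)]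
        refine mul_nonneg hε.le ?_
        rcases key 𝔉 j hG hR with ⟨⟨b, hb, h⟩, -⟩ | h
        · exact absurd h (𝔉.triple i j hj.symm a ha b hb)
        · linarith
      · exact (E1 j _ _ hG hR).le
  · intro i j hij T σ hG
    by_cases hRj : 𝔉.R j ⊆ T
    · by_cases hRi : 𝔉.R i ⊆ T
      · rw [Lf_zero 𝔉 (av_union 𝔉 i hRi _), Lf_zero 𝔉 (av_union 𝔉 j hRj _), ← mul_add]
        refine mul_pos hε ?_
        rcases key 𝔉 i hG hRi with ⟨⟨a, ha, h1⟩, h1'⟩ | h1'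
        · rcases key 𝔉 j hG hRj with ⟨⟨b, hb, h2⟩, h2'⟩ | h2'
          · exact absurd (h1.symm.trans h2) (𝔉.triple i j hij a ha b hb)
          · linarith
        · rcases key 𝔉 j hG hRj with ⟨⟨b, hb, h2⟩, h2'⟩ | h2' <;> linarith
      · rw [add_comm]
        exact E2 j i T σ hG hRi
    · exact E2 i j T σ hG hRj
  · intro i s hs hsF T σ hG
    by_cases hR : 𝔉.R i ⊆ T
    · rcases key 𝔉 i hG hR with ⟨⟨a, ha, h1⟩, -⟩ | h
      · refine E3 i s hs T σ hG ?_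
        rw [hF] at hsF
        rw [h1, Finset.mem_union, Finset.mem_insert, Finset.mem_singleton]
        push Not at hsF
        obtain ⟨h2, h3, h4, h5, h6⟩ := hsF
        rintro (h7 | h7 | h7)
        · exact h2 h7
        · omega
        · omega
      · have h2 := hG.2.2.2 s hs
        rw [Lf_zero 𝔉 (av_union 𝔉 i hR _)]
        have h3 : 0 < ε * Bf 𝔉 i (gp T σ) := mul_pos hε (by linarith)
        linarith
    · have h1 := E1 i T σ hG hR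
      have h2 := hG.2.2.2 s hs
      linarith

end Pool.Agent.MP8a30e7
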