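import Mathlib
import Pool.Agent.Lib.MP_8a30e7_co.Defs
import Pool.Agent.Lib.MP_8a30e7_co.Real
import Pool.Agent.Lib.MP_8a30e7_co.Low

/-!
# MP_8a30e7_co: realisation in dimension `e + 4` (stacking over facets of the cyclic polytope)
-/

open scoped BigOperators Topology
open Polynomial

namespace Pool.Agent.MP8a30e7

namespace High

open Low

variable {n e : ℕ} {I : Type} (𝔉 : Fam n e I)

theorem mem_F (i : I) (x : ℕ) : x ∈ 𝔉.F i ↔ x ∈ 𝔉.R i ∨ x = 𝔉.w i ∨ x = 𝔉.w i + 1 ∨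
    x = 𝔉.w i + 2 ∨ x = 𝔉.w i + 3 := by
  simp only [Fam.F, Finset.mem_union, Finset.mem_insert, Finset.mem_singleton]

theorem F_disj (i : I) : Disjoint (𝔉.R i) {𝔉.w i, 𝔉.w i + 1, 𝔉.w i + 2, 𝔉.w i + 3} := by
  rw [Finset.disjoint_right]
  intro y hy
  simp only [Finset.mem_insert, Finset.mem_singleton] at hy
  rcases hy with rfl | rfl | rfl | rfl
  · exact 𝔉.w_not i 0 (by norm_num)
  · exact 𝔉.w_not i 1 (by norm_num)
  · exact 𝔉.w_not i 2 (by norm_num)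
  · exact 𝔉.w_not i 3 (by norm_num)

theorem card_F (i : I) : (𝔉.F i).card = e + 4 := by
  unfold Fam.F
  rw [Finset.card_union_of_disjoint (F_disj 𝔉 i), 𝔉.card_R i]
  congr 1
  rw [Finset.card_insert_of_notMem, Finset.card_insert_of_notMem, Finset.card_insert_of_notMem,
    Finset.card_singleton]
  · simp
  · simp
  · simp

theorem F_lt (i : I) {x : ℕ} (hx : x ∈ 𝔉.F i) : x < n := by
  have hw := 𝔉.w_lt i
  rcases (mem_F 𝔉 i x).1 hx with h | h | h | h | h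
  · exact 𝔉.R_lt i x h
  all_goals omega

theorem exists_s0 (hn : e + 4 < n) (i : I) : ∃ s, s < n ∧ s ∉ 𝔉.F i := by
  by_contra hcon
  push Not at hcon
  have h1 : Finset.range n ⊆ 𝔉.F i := fun s hs => hcon s (Finset.mem_range.1 hs)
  have h2 := Finset.card_le_card h1
  rw [Finset.card_range, card_F 𝔉 i] at h2
  omega

/-- the functional of the vertex `i` -/
noncomputable def Lh (s0 : I → ℕ) (ε : ℝ) (i : I) : ℝ[X] →ₗ[ℝ] ℝ :=
  av (𝔉.F i) + ε • (av (𝔉.F i) - Polynomial.leval ((s0 i : ℕ) : ℝ))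

theorem Lh_apply (s0 : I → ℕ) (ε : ℝ) (i : I) (g : ℝ[X]) :
    Lh 𝔉 s0 ε i g = av (𝔉.F i) g + ε * (av (𝔉.F i) g - g.eval ((s0 i : ℕ) : ℝ)) := by
  simp [Lh]

theorem av_nonneg_F (i : I) {D : ℕ} {T : Finset ℕ} {σ : ℝ} (h : Gale n D T σ) :
    0 ≤ av (𝔉.F i) (gp T σ) := by
  rw [av_apply]
  exact mul_nonneg (by positivity) (Finset.sum_nonneg fun r hr => h.2.2.2 r (F_lt 𝔉 i hr))

theorem av_pos_F' (i : I) {g : ℝ[X]} (h : ∀ r ∈ 𝔉.F i, 0 ≤ g.eval (r : ℝ))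
    (h' : ∃ r ∈ 𝔉.F i, 0 < g.eval (r : ℝ)) : 0 < av (𝔉.F i) g := by
  rw [av_apply]
  have hc : 0 < ((𝔉.F i).card : ℝ) := by rw [card_F 𝔉 i]; positivity
  exact mul_pos (inv_pos.2 hc) (Finset.sum_pos' h h')

theorem av_pos_F (i : I) {T : Finset ℕ} {σ : ℝ} (h : Gale n (e + 4) T σ) (hT : T ≠ 𝔉.F i) :
    0 < av (𝔉.F i) (gp T σ) := by
  refine av_pos_F' 𝔉 i (fun r hr => h.2.2.2 r (F_lt 𝔉 i hr)) ?_
  have hsub : ¬ 𝔉.F i ⊆ T := by
    intro hs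
    exact hT (Finset.eq_of_subset_of_card_le hs (by rw [h.2.1, card_F 𝔉 i])).symm
  rw [Finset.not_subset] at hsub
  obtain ⟨r, hr, hrT⟩ := hsub
  exact ⟨r, hr, gale_pos h (F_lt 𝔉 i hr) hrT⟩

theorem av_self (i : I) (σ : ℝ) : av (𝔉.F i) (gp (𝔉.F i) σ) = 0 := by
  rw [av_apply, Finset.sum_eq_zero, mul_zero]
  exact fun r hr => eval_gp_mem hr σ

theorem F_ne {i j : I} (hij : i ≠ j) : 𝔉.F i ≠ 𝔉.F j := 𝔉.win i j hij

/-- `F i` is a facet -/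
theorem gale_F (i : I) : Gale n (e + 4) (𝔉.F i) (𝔉.sg i) := by
  refine ⟨fun x hx => Finset.mem_range.2 (F_lt 𝔉 i hx), card_F 𝔉 i, 𝔉.sg_or i, ?_⟩
  intro t ht
  by_cases hR : t ∈ 𝔉.R i
  · rw [eval_gp_mem ((mem_F 𝔉 i t).2 (Or.inl hR))]
  have h1 := 𝔉.sign i t ht hR
  rw [eval_gp]
  unfold Fam.F
  rw [Finset.prod_union (F_disj 𝔉 i), ← mul_assoc]
  refine mul_nonneg h1.le ?_
  rw [Finset.prod_insert, Finset.prod_insert, Finset.prod_insert, Finset.prod_singleton]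
  · push_cast
    rcases Nat.lt_or_ge t (𝔉.w i + 1) with h | h
    · have h3 : (t : ℝ) ≤ 𝔉.w i := by exact_mod_cast Nat.lt_succ_iff.1 h
      have a0 : 0 ≤ (𝔉.w i : ℝ) - t := by linarith
      have : ((t : ℝ) - 𝔉.w i) * (((t : ℝ) - (𝔉.w i + 1)) * (((t : ℝ) - (𝔉.w i + 2)) *
          ((t : ℝ) - (𝔉.w i + 3)))) = ((𝔉.w i : ℝ) - t) * (((𝔉.w i : ℝ) - t + 1) *
          (((𝔉.w i : ℝ) - t + 2) * ((𝔉.w i : ℝ) - t + 3))) := by ring
      rw [this]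
      positivity
    · rcases Nat.lt_or_ge t (𝔉.w i + 2) with h' | h'
      · have : t = 𝔉.w i + 1 := by omega
        rw [this]; push_cast; simp
      · rcases Nat.lt_or_ge t (𝔉.w i + 3) with h'' | h''
        · have : t = 𝔉.w i + 2 := by omega
          rw [this]; push_cast; simp
        · have h3 : (𝔉.w i : ℝ) + 3 ≤ t := by exact_mod_cast h''
          have a0 : 0 ≤ (t : ℝ) - (𝔉.w i + 3) := by linarith
          have a1 : 0 ≤ (t : ℝ) - (𝔉.w i + 2) := by linarith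
          have a2 : 0 ≤ (t : ℝ) - (𝔉.w i + 1) := by linarith
          have a3 : 0 ≤ (t : ℝ) - 𝔉.w i := by linarith
          positivity
  · simp
  · simp
  · simp

theorem exists_eps [Fintype I] (s0 : I → ℕ) : ∃ ε : ℝ, 0 < ε ∧
    (∀ i, ∀ T σ, Gale n (e + 4) T σ → T ≠ 𝔉.F i → 0 < Lh 𝔉 s0 ε i (gp T σ)) ∧
    (∀ i j, ∀ T σ, Gale n (e + 4) T σ → T ≠ 𝔉.F j →
      0 < Lh 𝔉 s0 ε i (gp T σ) + Lh 𝔉 s0 ε j (gp T σ)) ∧
    (∀ i, ∀ s < n, ∀ T σ, Gale n (e + 4) T σ → s ∉ T →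
      0 < Lh 𝔉 s0 ε i (gp T σ) + (gp T σ).eval (s : ℝ)) ∧
    (∀ i, ∀ s < n, 0 < Lh 𝔉 s0 ε i ((X - C (s : ℝ)) ^ 2)) ∧
    (∀ i, ∀ s < n, ∀ s' < n, 0 < Lh 𝔉 s0 ε i ((X - C (s : ℝ)) ^ 2 * (X - C (s' : ℝ)) ^ 2)) := by
  have hfin : ∀ P : ℝ → Finset ℕ → ℝ → Prop, (∀ T σ, Gale n (e + 4) T σ →
      ∀ᶠ ε in 𝓝[>] (0 : ℝ), P ε T σ) →
      ∀ᶠ ε in 𝓝[>] (0 : ℝ), ∀ T σ, Gale n (e + 4) T σ → P ε T σ := by
    intro P hP
    have h1 : ∀ᶠ ε in 𝓝[>] (0 : ℝ), ∀ T ∈ (Finset.range n).powerset, ∀ σ ∈ ({1, -1} : Finset ℝ),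
        Gale n (e + 4) T σ → P ε T σ := by
      rw [Filter.eventually_all_finset]
      intro T _
      rw [Filter.eventually_all_finset]
      intro σ _
      by_cases hG : Gale n (e + 4) T σ
      · exact (hP T σ hG).mono fun ε h _ => h
      · exact Filter.Eventually.of_forall fun ε h => absurd h hG
    refine h1.mono fun ε h T σ hG => h T ?_ σ ?_ hG
    · rw [Finset.mem_powerset]; exact hG.1
    · rw [Finset.mem_insert, Finset.mem_singleton]; exact hG.2.2.1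
  have hlt : ∀ P : ℝ → ℕ → Prop, (∀ s < n, ∀ᶠ ε in 𝓝[>] (0 : ℝ), P ε s) →
      ∀ᶠ ε in 𝓝[>] (0 : ℝ), ∀ s < n, P ε s := by
    intro P hP
    have h1 : ∀ᶠ ε in 𝓝[>] (0 : ℝ), ∀ s ∈ Finset.range n, P ε s := by
      rw [Filter.eventually_all_finset]
      exact fun s hs => hP s (Finset.mem_range.1 hs)
    exact h1.mono fun ε h s hs => h s (Finset.mem_range.2 hs)
  have E1 : ∀ᶠ ε in 𝓝[>] (0 : ℝ), ∀ i, ∀ T σ, Gale n (e + 4) T σ → T ≠ 𝔉.F i →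
      0 < Lh 𝔉 s0 ε i (gp T σ) := by
    rw [Filter.eventually_all]
    intro i
    refine hfin (fun ε T σ => T ≠ 𝔉.F i → 0 < Lh 𝔉 s0 ε i (gp T σ)) fun T σ hG => ?_
    by_cases hR : T = 𝔉.F i
    · exact Filter.Eventually.of_forall fun ε h => absurd hR h
    · simp only [Lh_apply]
      exact (ev_pos (av_pos_F 𝔉 i hG hR)).mono fun ε h _ => h
  have E2 : ∀ᶠ ε in 𝓝[>] (0 : ℝ), ∀ i j, ∀ T σ, Gale n (e + 4) T σ → T ≠ 𝔉.F j →
      0 < Lh 𝔉 s0 ε i (gp T σ) + Lh 𝔉 s0 ε j (gp T σ) := by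
    rw [Filter.eventually_all]
    intro i
    rw [Filter.eventually_all]
    intro j
    refine hfin (fun ε T σ => T ≠ 𝔉.F j → 0 < Lh 𝔉 s0 ε i (gp T σ) + Lh 𝔉 s0 ε j (gp T σ))
      fun T σ hG => ?_
    by_cases hR : T = 𝔉.F j
    · exact Filter.Eventually.of_forall fun ε h => absurd hR h
    · simp only [Lh_apply]
      have h1 := av_pos_F 𝔉 j hG hR
      have h2 := av_nonneg_F 𝔉 i hG
      refine (ev_pos (u := av (𝔉.F i) (gp T σ) + av (𝔉.F j) (gp T σ))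
        (v := (av (𝔉.F i) (gp T σ) - (gp T σ).eval ((s0 i : ℕ) : ℝ)) +
          (av (𝔉.F j) (gp T σ) - (gp T σ).eval ((s0 j : ℕ) : ℝ))) (by linarith)).mono
            fun ε h _ => ?_
      linarith
  have E3 : ∀ᶠ ε in 𝓝[>] (0 : ℝ), ∀ i, ∀ s < n, ∀ T σ, Gale n (e + 4) T σ → s ∉ T →
      0 < Lh 𝔉 s0 ε i (gp T σ) + (gp T σ).eval (s : ℝ) := by
    rw [Filter.eventually_all]
    intro i
    refine hlt (fun ε s => ∀ T σ, Gale n (e + 4) T σ → s ∉ T →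
      0 < Lh 𝔉 s0 ε i (gp T σ) + (gp T σ).eval (s : ℝ)) fun s hs => ?_
    refine hfin (fun ε T σ => s ∉ T → 0 < Lh 𝔉 s0 ε i (gp T σ) + (gp T σ).eval (s : ℝ))
      fun T σ hG => ?_
    by_cases hT : s ∈ T
    · exact Filter.Eventually.of_forall fun ε h => absurd hT h
    · simp only [Lh_apply]
      have h1 := gale_pos hG hs hT
      have h2 := av_nonneg_F 𝔉 i hG
      refine (ev_pos (u := av (𝔉.F i) (gp T σ) + (gp T σ).eval (s : ℝ))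
        (v := (av (𝔉.F i) (gp T σ) - (gp T σ).eval ((s0 i : ℕ) : ℝ))) (by linarith)).mono
          fun ε h _ => ?_
      linarith
  have E4 : ∀ᶠ ε in 𝓝[>] (0 : ℝ), ∀ i, ∀ s < n, 0 < Lh 𝔉 s0 ε i ((X - C (s : ℝ)) ^ 2) := by
    rw [Filter.eventually_all]
    intro i
    refine hlt (fun ε s => 0 < Lh 𝔉 s0 ε i ((X - C (s : ℝ)) ^ 2)) fun s _ => ?_
    simp only [Lh_apply]
    refine ev_pos (av_pos_F' 𝔉 i (fun r _ => ?_) ?_)
    · simp only [eval_pow, eval_sub, eval_X, eval_C]; positivity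
    · obtain ⟨r, hr, hne⟩ := Finset.exists_mem_ne (s := 𝔉.F i) (by rw [card_F 𝔉 i]; omega) s
      refine ⟨r, hr, ?_⟩
      have : (r : ℝ) - s ≠ 0 := by rw [sub_ne_zero]; exact_mod_cast hne
      simp only [eval_pow, eval_sub, eval_X, eval_C]; positivity
  have E5 : ∀ᶠ ε in 𝓝[>] (0 : ℝ), ∀ i, ∀ s < n, ∀ s' < n,
      0 < Lh 𝔉 s0 ε i ((X - C (s : ℝ)) ^ 2 * (X - C (s' : ℝ)) ^ 2) := by
    rw [Filter.eventually_all]
    intro i
    refine hlt (fun ε s => ∀ s' < n, 0 < Lh 𝔉 s0 ε i ((X - C (s : ℝ)) ^ 2 *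
      (X - C (s' : ℝ)) ^ 2)) fun s _ => ?_
    refine hlt (fun ε s' => 0 < Lh 𝔉 s0 ε i ((X - C (s : ℝ)) ^ 2 * (X - C (s' : ℝ)) ^ 2))
      fun s' _ => ?_
    simp only [Lh_apply]
    refine ev_pos (av_pos_F' 𝔉 i (fun r _ => ?_) ?_)
    · simp only [eval_mul, eval_pow, eval_sub, eval_X, eval_C]; positivity
    · have hne : (𝔉.F i \ {s, s'}).Nonempty := by
        rw [← Finset.card_pos]
        have h1 := Finset.le_card_sdiff {s, s'} (𝔉.F i)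
        have h2 := Finset.card_le_two (a := s) (b := s')
        rw [card_F 𝔉 i] at h1
        omega
      obtain ⟨r, hr⟩ := hne
      rw [Finset.mem_sdiff, Finset.mem_insert, Finset.mem_singleton] at hr
      push Not at hr
      refine ⟨r, hr.1, ?_⟩
      have h1 : (r : ℝ) - s ≠ 0 := by rw [sub_ne_zero]; exact_mod_cast hr.2.1
      have h2 : (r : ℝ) - s' ≠ 0 := by rw [sub_ne_zero]; exact_mod_cast hr.2.2
      simp only [eval_mul, eval_pow, eval_sub, eval_X, eval_C]; positivity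
  have E6 : ∀ᶠ ε in 𝓝[>] (0 : ℝ), 0 < ε := eventually_mem_nhdsWithin
  obtain ⟨ε, h⟩ := (E6.and (E1.and (E2.and (E3.and (E4.and E5))))).exists
  exact ⟨ε, h⟩

end High

open Low High in
theorem real_high {n e : ℕ} {I : Type} [Fintype I] [DecidableEq I] (𝔉 : Fam n e I)
    (hn : e + 4 < n) :
    ∃ p : Fin n ⊕ I → E (e + 4), (∀ x, Vtx p x) ∧
      (∀ x y, x ≠ y → (Edg p x y ↔ Adj 𝔉.F x y)) ∧ affineSpan ℝ (Set.range p) = ⊤ := by
  choose s0 hs0 hs0' using exists_s0 𝔉 hn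
  obtain ⟨ε, hε, E1, E2, E3, E4, E5⟩ := High.exists_eps 𝔉 s0
  refine realize (n := n) (D := e + 4) (by omega) (by omega) (Lh 𝔉 s0 ε) ?_ 𝔉.F ?_ ?_ ?_ ?_
    E4 (fun i s hs s' hs' _ => E5 i s hs s' hs')
  · intro i
    have hc : ((𝔉.F i).card : ℝ) ≠ 0 := by
      rw [card_F 𝔉 i]
      positivity
    have h1 : av (𝔉.F i) 1 = 1 := by
      rw [av_apply]
      simp [hc]
    rw [Lh_apply, h1]
    simp
  · intro i
    exact ⟨𝔉.w i, by rw [mem_F]; simp⟩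
  · intro i s hs
    have hG := gale_F 𝔉 i
    refine ⟨F_lt 𝔉 i hs, gp (𝔉.F i) (𝔉.sg i), ?_, hG.2.2.2, eval_gp_mem hs _, ?_, ?_⟩
    · exact (natDegree_gp _ _).trans_eq hG.2.1
    · rw [Lh_apply, av_self]
      have h1 := gale_pos hG (hs0 i) (hs0' i)
      nlinarith [mul_pos hε h1]
    · intro j hj
      exact (E1 j _ _ hG (F_ne 𝔉 hj.symm)).le
  · intro i j hij T σ hG
    by_cases hT : T = 𝔉.F j
    · rw [add_comm]
      exact E2 j i T σ hG (by rw [hT]; exact F_ne 𝔉 hij.symm)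
    · exact E2 i j T σ hG hT
  · intro i s hs hsF T σ hG
    by_cases hT : T = 𝔉.F i
    · exact E3 i s hs T σ hG (by rw [hT]; exact hsF)
    · have h1 := E1 i T σ hG hT
      have h2 := hG.2.2.2 s hs
      linarith

end Pool.Agent.MP8a30e7
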