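import Mathlib
import Pool.Agent.Lib.MP_8a30e7_co.Defs

/-!
# A finite set has the same convex hull as its vertices
-/

open scoped BigOperators
open Polynomial

namespace Pool.Agent.MP8a30e7

theorem exists_vertices {d : ℕ} (R : Finset (E d)) :
    ∃ (ι : Type) (_ : Fintype ι) (p : ι → E d), (∀ i, Vtx p i) ∧
      convexHull ℝ (Set.range p) = convexHull ℝ (R : Set (E d)) := by
  classical
  set X : Set (E d) := convexHull ℝ (R : Set (E d)) with hX
  set V : Set (E d) := X.extremePoints ℝ with hV
  have hVR : V ⊆ (R : Set (E d)) := extremePoints_convexHull_subset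
  have hVfin : V.Finite := R.finite_toSet.subset hVR
  have hXc : IsCompact X := R.finite_toSet.isCompact_convexHull (𝕜 := ℝ)
  have hXconv : Convex ℝ X := convex_convexHull ℝ _
  have hVX : convexHull ℝ V = X := by
    have h1 := closure_convexHull_extremePoints hXc hXconv
    rw [(hVfin.isClosed_convexHull (𝕜 := ℝ)).closure_eq] at h1
    exact h1
  have hfin : Fintype V := hVfin.fintype
  refine ⟨V, hfin, Subtype.val, ?_, ?_⟩
  · intro v
    have hvK : (v : E d) ∉ convexHull ℝ (V \ {(v : E d)}) := by
      have h1 := (hXconv.mem_extremePoints_iff_convex_sdiff).1 v.2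
      intro h2
      have h3 : convexHull ℝ (V \ {(v : E d)}) ⊆ X \ {(v : E d)} := by
        apply convexHull_min _ h1.2
        intro y hy
        exact ⟨extremePoints_subset hy.1, hy.2⟩
      exact (h3 h2).2 rfl
    have hKc : IsCompact (convexHull ℝ (V \ {(v : E d)})) :=
      (hVfin.subset Set.sdiff_subset).isCompact_convexHull (𝕜 := ℝ)
    obtain ⟨f, u, hu1, hu2⟩ := geometric_hahn_banach_closed_point (convex_convexHull ℝ _)
      hKc.isClosed hvK
    refine ⟨(f : E d →ₗ[ℝ] ℝ), fun j hj => ?_⟩
    have : (j : E d) ∈ convexHull ℝ (V \ {(v : E d)}) := by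
      apply subset_convexHull
      exact ⟨j.2, fun h => hj (Subtype.ext h)⟩
    exact (hu1 _ this).trans hu2
  · rw [Subtype.range_coe_subtype]
    exact hVX

end Pool.Agent.MP8a30e7
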