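import Mathlib
import Pool.Agent.Lib.MP_8a30e7_co.Defs

/-!
# The numerical inequality
-/

namespace Pool.Agent.MP8a30e7

theorem Num.total_36 : total 36 28 = 318893803810424145 := by decide +kernel

theorem Num.total_35 : total 35 28 = 183122852574781499 := by decide +kernel

theorem total_gt : (63).choose 36 < total 36 28 + total 35 28 := by
  rw [Num.total_36, Num.total_35, Nat.choose_eq_factorial_div_factorial (by norm_num)]
  decide +kernel

end Pool.Agent.MP8a30e7
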