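import Mathlib
import Pool.Agent.Lib.MP_8a30e7_co.Defs

/-!
# MP_8a30e7_co, module PERT: perturbation to general position keeping edges and non-edges
-/

open scoped BigOperators
open Polynomial

namespace Pool.Agent.MP8a30e7

namespace Pert

theorem vtx_sub {d : ℕ} {ι : Type} (p : ι → E d) (c : E d) (i : ι) :
    Vtx (fun x => p x - c) i ↔ Vtx p i := by
  unfold Vtx
  simp only [map_sub, sub_lt_sub_iff_right]

theorem edg_sub {d : ℕ} {ι : Type} (p : ι → E d) (c : E d) (i j : ι) :
    Edg (fun x => p x - c) i j ↔ Edg p i j := by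
  unfold Edg
  simp only [map_sub, sub_lt_sub_iff_right, sub_left_inj]

theorem elim_sub {d : ℕ} {A I : Type} (a : A → E d) (v : I → E d) (c : E d) :
    (Sum.elim (fun x => a x - c) (fun i => v i - c) : A ⊕ I → E d) =
      fun x => Sum.elim a v x - c := by
  funext x
  rcases x with x | x <;> rfl

theorem gp_sub {d : ℕ} {A : Type} (a : A → E d) (c : E d) (h : GP a) :
    GP (fun x => a x - c) := by
  intro T hT
  have h1 := h T hT
  have h2 := h1.map' (AffineEquiv.constVAdd ℝ (E d) (-c)).toAffineMap
    (AffineEquiv.constVAdd ℝ (E d) (-c)).injective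
  have h3 : (fun t : T => a t - c) =
      ⇑(AffineEquiv.constVAdd ℝ (E d) (-c)).toAffineMap ∘ (fun t : T => a t) := by
    funext t
    simp [sub_eq_neg_add]
  show AffineIndependent ℝ (fun t : T => a t - c)
  rw [h3]
  exact h2

/-- Vertices and edges persist. -/
theorem near {d : ℕ} {A I : Type} [Fintype A] [Fintype I] (q : A ⊕ I → E d)
    (hv : ∀ x, Vtx q x) (N : I → Finset A)
    (hE : ∀ i, ∀ x ∈ N i, Edg q (Sum.inr i) (Sum.inl x)) :
    ∀ᶠ a in nhds (fun x => q (Sum.inl x)),
      (∀ i, Vtx (Sum.elim a (fun k => q (Sum.inr k))) (Sum.inr i)) ∧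
      ∀ i, ∀ x ∈ N i, Edg (Sum.elim a (fun k => q (Sum.inr k))) (Sum.inr i) (Sum.inl x) := by
  have hcont : ∀ (f : E d →ₗ[ℝ] ℝ) (x : A), Continuous (fun a : A → E d => f (a x)) := by
    intro f x
    exact f.continuous_of_finiteDimensional.comp (continuous_apply x)
  have hcont' : ∀ (f : E d →ₗ[ℝ] ℝ) (y : A ⊕ I),
      Continuous (fun a : A → E d => f (Sum.elim a (fun k => q (Sum.inr k)) y)) := by
    intro f y
    rcases y with x | k
    · exact hcont f x
    · show Continuous (fun _ : A → E d => f (q (Sum.inr k)))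
      exact continuous_const
  have hq : ∀ y, Sum.elim (fun x => q (Sum.inl x)) (fun k => q (Sum.inr k)) y = q y := by
    intro y
    rcases y with x | k <;> rfl
  refine Filter.Eventually.and ?_ ?_
  · rw [Filter.eventually_all]
    intro i
    obtain ⟨f, hf⟩ := hv (Sum.inr i)
    have : ∀ᶠ a in nhds (fun x : A => q (Sum.inl x)), ∀ j : A ⊕ I, j ≠ Sum.inr i →
        f (Sum.elim a (fun k => q (Sum.inr k)) j) < f (q (Sum.inr i)) := by
      rw [Filter.eventually_all]
      intro j
      by_cases hj : j = Sum.inr i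
      · exact Filter.Eventually.of_forall (fun a h => (h hj).elim)
      · have h1 := (hcont' f j).continuousAt (x := fun x : A => q (Sum.inl x))
        have h2 := h1.eventually_lt (continuousAt_const (y := f (q (Sum.inr i))))
          (by rw [hq]; exact hf j hj)
        exact h2.mono (fun a h _ => h)
    refine this.mono ?_
    intro a ha
    exact ⟨f, ha⟩
  · rw [Filter.eventually_all]
    intro i
    have : ∀ᶠ a in nhds (fun x => q (Sum.inl x)), ∀ x : A, x ∈ N i →
        Edg (Sum.elim a (fun k => q (Sum.inr k))) (Sum.inr i) (Sum.inl x) := by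
      rw [Filter.eventually_all]
      intro x
      by_cases hx : x ∈ N i
      swap
      · exact Filter.Eventually.of_forall (fun a h => (hx h).elim)
      obtain ⟨f, hf1, hf2⟩ := hE i x hx
      obtain ⟨h, hh⟩ := hv (Sum.inr i)
      have hhx := hh (Sum.inl x) (by simp)
      -- the correction
      let κ : (A → E d) → ℝ := fun a =>
        (f (q (Sum.inr i)) - f (a x)) / (h (a x) - h (q (Sum.inr i)))
      have hκ0 : κ (fun x => q (Sum.inl x)) = 0 := by
        show (f (q (Sum.inr i)) - f (q (Sum.inl x))) / _ = 0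
        rw [hf1, sub_self, zero_div]
      have hden0 : h (q (Sum.inl x)) - h (q (Sum.inr i)) ≠ 0 := by
        intro h0
        linarith
      have hκc : ContinuousAt κ (fun x => q (Sum.inl x)) := by
        refine ContinuousAt.div ?_ ?_ hden0
        · exact (continuous_const.sub (hcont f x)).continuousAt
        · exact ((hcont h x).sub continuous_const).continuousAt
      have e1 : ∀ᶠ a in nhds (fun x => q (Sum.inl x)), h (a x) < h (q (Sum.inr i)) :=
        (hcont h x).continuousAt.eventually_lt continuousAt_const hhx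
      have e2 : ∀ᶠ a in nhds (fun x => q (Sum.inl x)), ∀ j : A ⊕ I, (j ≠ Sum.inr i ∧ j ≠ Sum.inl x) →
          f (Sum.elim a (fun k => q (Sum.inr k)) j) +
            κ a * h (Sum.elim a (fun k => q (Sum.inr k)) j) <
          f (q (Sum.inr i)) + κ a * h (q (Sum.inr i)) := by
        rw [Filter.eventually_all]
        intro j
        by_cases hj : j ≠ Sum.inr i ∧ j ≠ Sum.inl x
        swap
        · exact Filter.Eventually.of_forall (fun a h => (hj h).elim)
        have c1 : ContinuousAt (fun a : A → E d => f (Sum.elim a (fun k => q (Sum.inr k)) j) +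
            κ a * h (Sum.elim a (fun k => q (Sum.inr k)) j)) (fun x => q (Sum.inl x)) :=
          (hcont' f j).continuousAt.add (hκc.mul (hcont' h j).continuousAt)
        have c2 : ContinuousAt (fun a : A → E d => f (q (Sum.inr i)) +
            κ a * h (q (Sum.inr i))) (fun x => q (Sum.inl x)) :=
          continuousAt_const.add (hκc.mul continuousAt_const)
        refine (c1.eventually_lt c2 ?_).mono (fun a h _ => h)
        rw [hκ0, zero_mul, zero_mul, add_zero, add_zero, hq]
        exact hf2 j hj.1 hj.2
      filter_upwards [e1, e2] with a ha1 ha2 _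
      refine ⟨f + κ a • h, ?_, ?_⟩
      · have hd : h (a x) - h (q (Sum.inr i)) ≠ 0 := by
          intro h0
          linarith
        have hk : κ a * (h (a x) - h (q (Sum.inr i))) = f (q (Sum.inr i)) - f (a x) :=
          div_mul_cancel₀ _ hd
        simp only [Sum.elim_inr, Sum.elim_inl, LinearMap.add_apply, LinearMap.smul_apply,
          smul_eq_mul]
        linarith
      · intro j hj1 hj2
        have := ha2 j ⟨hj1, hj2⟩
        simpa only [Sum.elim_inr, LinearMap.add_apply, LinearMap.smul_apply, smul_eq_mul]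
          using this
    exact this

/-- Non-edges persist under the inflation of the points `a`. -/
theorem nonedge {d : ℕ} {A I : Type} [Fintype A] [Fintype I] (q : A ⊕ I → E d)
    {ρ ε η : ℝ} (hρ : 0 < ρ) (hball : Metric.ball (0 : E d) ρ ⊆ convexHull ℝ (Set.range q))
    (hε : 0 < ε) (hη : 0 < η) (hηε : η < ε * ρ) (a : A → E d)
    (ha : ∀ x, ‖a x - (1 + ε) • q (Sum.inl x)‖ < η) (i j : I)
    (h : Edg (Sum.elim a (fun k => q (Sum.inr k))) (Sum.inr i) (Sum.inr j)) :
    Edg q (Sum.inr i) (Sum.inr j) := by
  obtain ⟨f, hf1, hf2⟩ := h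
  simp only [Sum.elim_inr] at hf1 hf2
  set m : ℝ := f (q (Sum.inr i)) with hm
  have : Nonempty (A ⊕ I) := ⟨Sum.inr i⟩
  obtain ⟨y, hy⟩ := Finite.exists_max (fun y => f (q y))
  set S : ℝ := f (q y) with hS
  have hhull : ∀ z ∈ convexHull ℝ (Set.range q), f z ≤ S := by
    intro z hz
    have h1 : convexHull ℝ (Set.range q) ⊆ {w | f w ≤ S} := by
      apply convexHull_min
      · rintro _ ⟨x, rfl⟩
        exact hy x
      · exact convex_halfSpace_le f.isLinear S
    exact h1 hz
  have hS0 : 0 ≤ S := by
    have := hhull 0 (hball (Metric.mem_ball_self hρ))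
    rwa [map_zero] at this
  have hδ : η / ρ < ε := by
    rw [div_lt_iff₀ hρ]
    exact hηε
  have hsmall : ∀ e : E d, ‖e‖ < η → - f e ≤ η / ρ * S := by
    intro e he
    have h1 : (-(ρ / η)) • e ∈ Metric.ball (0 : E d) ρ := by
      rw [mem_ball_zero_iff, norm_smul, Real.norm_eq_abs, abs_neg, abs_of_pos (div_pos hρ hη),
        div_mul_eq_mul_div, div_lt_iff₀ hη]
      exact mul_lt_mul_of_pos_left he hρ
    have h2 := hhull _ (hball h1)
    rw [map_smul, smul_eq_mul] at h2
    have h3 : η / ρ * (-(ρ / η) * f e) ≤ η / ρ * S :=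
      mul_le_mul_of_nonneg_left h2 (div_pos hη hρ).le
    have h4 : η / ρ * (-(ρ / η) * f e) = - f e := by
      field_simp
    linarith
  have hlt : ∀ x : A, (1 + ε) * f (q (Sum.inl x)) < m + η / ρ * S := by
    intro x
    have h1 := hf2 (Sum.inl x) (by simp) (by simp)
    simp only [Sum.elim_inl] at h1
    have h2 := hsmall _ (ha x)
    rw [map_sub, map_smul, smul_eq_mul] at h2
    linarith
  have hmS : m ≤ S := hy (Sum.inr i)
  have hδS : η / ρ * S ≤ ε * S := mul_le_mul_of_nonneg_right hδ.le hS0
  have hSm : S = m := by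
    apply le_antisymm _ hmS
    rcases y with x | k
    · exfalso
      have h1 := hlt x
      rw [← hS] at h1
      linarith
    · by_cases hki : k = i
      · rw [hS, hki]
      by_cases hkj : k = j
      · rw [hS, hkj, hf1]
      have h1 := hf2 (Sum.inr k) (by simpa using hki) (by simpa using hkj)
      simp only [Sum.elim_inr] at h1
      rw [hS]
      exact h1.le
  refine ⟨f, hf1, ?_⟩
  intro y' h1 h2
  rcases y' with x | k
  · have h3 := hlt x
    rw [hSm] at h3 hδS hS0
    have h4 : (1 + ε) * f (q (Sum.inl x)) < (1 + ε) * m := by linarith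
    exact lt_of_mul_lt_mul_left h4 (by linarith)
  · have h3 := hf2 (Sum.inr k) h1 h2
    simpa only [Sum.elim_inr] using h3

theorem span_ne_top {d : ℕ} {A : Type} [DecidableEq A] (a : A → E d) (T : Finset A)
    (hT : T.card ≤ d) : affineSpan ℝ (a '' (T : Set A)) ≠ ⊤ := by
  intro h
  rcases T.eq_empty_or_nonempty with hT0 | hT0
  · rw [hT0] at h
    simp only [Finset.coe_empty, Set.image_empty, AffineSubspace.span_empty] at h
    exact AffineSubspace.bot_ne_top ℝ (E d) (E d) h
  · obtain ⟨k, hk⟩ : ∃ k, T.card = k + 1 := ⟨T.card - 1, by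
      have := hT0.card_pos
      omega⟩
    have h1 := finrank_vectorSpan_image_finset_le ℝ a T hk
    have h2 : vectorSpan ℝ (a '' (T : Set A)) = ⊤ := by
      rw [← direction_affineSpan, h, AffineSubspace.direction_top]
    have h3 : ((T.image a : Finset (E d)) : Set (E d)) = a '' (T : Set A) := by simp
    rw [h3, h2, finrank_top, finrank_euclideanSpace, Fintype.card_fin] at h1
    omega

theorem exists_gp {d : ℕ} {A : Type} [Fintype A] [DecidableEq A] (b : A → E d) {η : ℝ}
    (hη : 0 < η) : ∃ a : A → E d, GP a ∧ ∀ x, ‖a x - b x‖ < η := by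
  have key : ∀ S : Finset A, ∃ a : A → E d, (∀ x, ‖a x - b x‖ < η) ∧
      ∀ T : Finset A, T ⊆ S → T.card ≤ d + 1 → AffineIndependent ℝ (fun t : T => a t) := by
    intro S
    induction S using Finset.induction_on with
    | empty =>
      refine ⟨b, fun x => by simpa using hη, ?_⟩
      intro T hT _
      have : T = ∅ := Finset.subset_empty.1 hT
      subst this
      exact affineIndependent_of_subsingleton ℝ _
    | insert s S hs ih =>
      obtain ⟨a, ha, hai⟩ := ih
      -- a new point avoiding the spans
      have hex : ∃ p ∈ Metric.ball (b s) η, ∀ T ∈ S.powerset.filter (fun T => T.card ≤ d),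
          p ∉ (affineSpan ℝ (a '' (T : Set A)) : Set (E d)) := by
        by_contra hcon
        push Not at hcon
        have h1 : Metric.ball (b s) η ⊆ ⋃ T ∈ S.powerset.filter (fun T => T.card ≤ d),
            (affineSpan ℝ (a '' (T : Set A)) : Set (E d)) := by
          intro p hp
          obtain ⟨T, hT, hpT⟩ := hcon p hp
          exact Set.mem_biUnion hT hpT
        have h2 : MeasureTheory.volume (⋃ T ∈ S.powerset.filter (fun T => T.card ≤ d),
            (affineSpan ℝ (a '' (T : Set A)) : Set (E d))) = 0 := by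
          refine (MeasureTheory.measure_biUnion_null_iff
            (I := ((S.powerset.filter (fun T => T.card ≤ d) : Finset (Finset A)) :
              Set (Finset A))) (Finset.countable_toSet _)).2 ?_
          intro T hT
          apply MeasureTheory.Measure.addHaar_affineSubspace
          exact span_ne_top a T (Finset.mem_filter.1 hT).2
        have h3 := MeasureTheory.measure_mono_null h1 h2
        exact (Metric.measure_ball_pos MeasureTheory.volume (b s) hη).ne' h3
      obtain ⟨p, hp, hpT⟩ := hex
      refine ⟨Function.update a s p, ?_, ?_⟩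
      · intro x
        by_cases hx : x = s
        · subst hx
          rw [Function.update_self, ← dist_eq_norm]
          exact hp
        · rw [Function.update_of_ne hx]
          exact ha x
      · intro T hTS hTc
        by_cases hsT : s ∈ T
        · have hT' : T.erase s ⊆ S := by
            intro x hx
            rw [Finset.mem_erase] at hx
            rcases Finset.mem_insert.1 (hTS hx.2) with h | h
            · exact (hx.1 h).elim
            · exact h
          have hc' : (T.erase s).card ≤ d := by
            rw [Finset.card_erase_of_mem hsT]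
            omega
          have h1 := hai (T.erase s) hT' (by omega)
          refine AffineIndependent.affineIndependent_of_notMem_span (i := ⟨s, hsT⟩) ?_ ?_
          · let e : {y : T // y ≠ (⟨s, hsT⟩ : T)} ↪ (T.erase s : Finset A) :=
              ⟨fun y => ⟨y.1.1, Finset.mem_erase.2 ⟨fun h => y.2 (Subtype.ext h), y.1.2⟩⟩, by
                intro y y' h
                apply Subtype.ext
                apply Subtype.ext
                exact congrArg (fun z : (T.erase s : Finset A) => z.1) h⟩
            have h2 := h1.comp_embedding e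
            have h3 : (fun y : {y : T // y ≠ (⟨s, hsT⟩ : T)} =>
                Function.update a s p (y : T)) = (fun t : (T.erase s : Finset A) => a t) ∘ e := by
              funext y
              have : (y.1.1 : A) ≠ s := fun h => y.2 (Subtype.ext h)
              exact Function.update_of_ne this _ _
            rw [h3]
            exact h2
          · have h4 : ((fun t : T => Function.update a s p (t : A)) ''
                {x : T | x ≠ (⟨s, hsT⟩ : T)}) = a '' ((T.erase s : Finset A) : Set A) := by
              ext z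
              constructor
              · rintro ⟨y, hy, rfl⟩
                have hys : (y.1 : A) ≠ s := fun h => hy (Subtype.ext h)
                refine ⟨y.1, ?_, ?_⟩
                · rw [Finset.mem_coe, Finset.mem_erase]
                  exact ⟨hys, y.2⟩
                · exact (Function.update_of_ne hys _ _).symm
              · rintro ⟨x, hx, rfl⟩
                rw [Finset.mem_coe, Finset.mem_erase] at hx
                refine ⟨⟨x, hx.2⟩, ?_, ?_⟩
                · intro h
                  exact hx.1 (congrArg (fun z : T => z.1) h)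
                · exact Function.update_of_ne hx.1 _ _
            have h5 := hpT (T.erase s) (Finset.mem_filter.2 ⟨Finset.mem_powerset.2 hT', hc'⟩)
            show Function.update a s p s ∉ _
            rw [Function.update_self, h4]
            exact h5
        · have hT' : T ⊆ S := by
            intro x hx
            rcases Finset.mem_insert.1 (hTS hx) with h | h
            · rw [h] at hx
              exact (hsT hx).elim
            · exact h
          have h1 := hai T hT' hTc
          have h3 : (fun t : T => Function.update a s p (t : A)) = (fun t : T => a t) := by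
            funext t
            have : (t : A) ≠ s := fun h => hsT (h ▸ t.2)
            exact Function.update_of_ne this _ _
          rw [h3]
          exact h1
  obtain ⟨a, ha, hai⟩ := key Finset.univ
  exact ⟨a, fun T hT => hai T (Finset.subset_univ T) hT.le, ha⟩

/-- The centred case: the ball of radius `ρ` is in the hull. -/
theorem centred {d : ℕ} {A I : Type} [Fintype A] [Fintype I] [DecidableEq A]
    (q : A ⊕ I → E d) (hv : ∀ x, Vtx q x) {ρ : ℝ} (hρ : 0 < ρ)
    (hball : Metric.ball (0 : E d) ρ ⊆ convexHull ℝ (Set.range q))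
    (N : I → Finset A) (hE : ∀ i, ∀ x ∈ N i, Edg q (Sum.inr i) (Sum.inl x))
    (hI : ∀ i j, i ≠ j → ¬ Edg q (Sum.inr i) (Sum.inr j)) :
    ∃ (a : A → E d) (v : I → E d), GP a ∧
      (∀ i, Vtx (Sum.elim a v) (Sum.inr i)) ∧
      (∀ i, ∀ x ∈ N i, Edg (Sum.elim a v) (Sum.inr i) (Sum.inl x)) ∧
      (∀ i j, i ≠ j → ¬ Edg (Sum.elim a v) (Sum.inr i) (Sum.inr j)) := by
  obtain ⟨η₀, hη₀, hnear⟩ := Metric.eventually_nhds_iff.1 (near q hv N hE)
  -- a bound for the norms
  let B : ℝ := 1 + ∑ x : A, ‖q (Sum.inl x)‖
  have hB : 0 < B := by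
    have : 0 ≤ ∑ x : A, ‖q (Sum.inl x)‖ := Finset.sum_nonneg (fun _ _ => norm_nonneg _)
    show 0 < 1 + ∑ x : A, ‖q (Sum.inl x)‖
    linarith
  have hBx : ∀ x : A, ‖q (Sum.inl x)‖ ≤ B := by
    intro x
    have h1 : ‖q (Sum.inl x)‖ ≤ ∑ x : A, ‖q (Sum.inl x)‖ :=
      Finset.single_le_sum (f := fun x : A => ‖q (Sum.inl x)‖) (fun _ _ => norm_nonneg _)
        (Finset.mem_univ x)
    show _ ≤ 1 + ∑ x : A, ‖q (Sum.inl x)‖
    linarith
  let ε : ℝ := η₀ / 2 / B
  have hε : 0 < ε := div_pos (half_pos hη₀) hB
  let η : ℝ := min (η₀ / 2) (ε * ρ / 2)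
  have hη : 0 < η := lt_min (half_pos hη₀) (half_pos (mul_pos hε hρ))
  have hη1 : η ≤ η₀ / 2 := min_le_left _ _
  have hη2 : η < ε * ρ := by
    have h1 : η ≤ ε * ρ / 2 := min_le_right _ _
    have h2 : 0 < ε * ρ := mul_pos hε hρ
    linarith
  obtain ⟨a, hgp, ha⟩ := exists_gp (fun x => (1 + ε) • q (Sum.inl x)) hη
  have hdist : dist a (fun x => q (Sum.inl x)) < η₀ := by
    rw [dist_pi_lt_iff hη₀]
    intro x
    rw [dist_eq_norm]
    have h1 : a x - q (Sum.inl x) =
        (a x - (1 + ε) • q (Sum.inl x)) + ε • q (Sum.inl x) := by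
      rw [add_smul, one_smul]
      abel
    rw [h1]
    have h2 : ‖ε • q (Sum.inl x)‖ ≤ η₀ / 2 := by
      rw [norm_smul, Real.norm_eq_abs, abs_of_pos hε]
      calc ε * ‖q (Sum.inl x)‖ ≤ ε * B := mul_le_mul_of_nonneg_left (hBx x) hε.le
        _ = η₀ / 2 := div_mul_cancel₀ _ hB.ne'
    have h3 := norm_add_le (a x - (1 + ε) • q (Sum.inl x)) (ε • q (Sum.inl x))
    have h4 := ha x
    linarith
  obtain ⟨hn1, hn2⟩ := hnear hdist
  refine ⟨a, fun k => q (Sum.inr k), hgp, hn1, hn2, ?_⟩
  intro i j hij hcon
  exact hI i j hij (nonedge q hρ hball hε hη hη2 a ha i j hcon)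

end Pert

theorem perturb {d : ℕ} {A I : Type} [Fintype A] [Fintype I] [DecidableEq A] [DecidableEq I]
    (q : A ⊕ I → E d) (hv : ∀ x, Vtx q x) (hspan : affineSpan ℝ (Set.range q) = ⊤)
    (N : I → Finset A) (hE : ∀ i, ∀ x ∈ N i, Edg q (Sum.inr i) (Sum.inl x))
    (hI : ∀ i j, i ≠ j → ¬ Edg q (Sum.inr i) (Sum.inr j)) (hn : d + 1 ≤ Fintype.card A) :
    ∃ (a : A → E d) (v : I → E d), GP a ∧ Surr a ∧
      (∀ i, Vtx (Sum.elim a v) (Sum.inr i)) ∧
      (∀ i, ∀ x ∈ N i, Edg (Sum.elim a v) (Sum.inr i) (Sum.inl x)) ∧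
      (∀ i j, i ≠ j → ¬ Edg (Sum.elim a v) (Sum.inr i) (Sum.inr j)) := by
  obtain ⟨c, hc⟩ := interior_convexHull_nonempty_iff_affineSpan_eq_top.2 hspan
  rw [mem_interior_iff_mem_nhds, Metric.mem_nhds_iff] at hc
  obtain ⟨ρ, hρ, hball⟩ := hc
  have hball' : Metric.ball (0 : E d) ρ ⊆ convexHull ℝ (Set.range (fun x => q x - c)) := by
    have h1 : (Set.range (fun x => q x - c)) = (AffineEquiv.constVAdd ℝ (E d) (-c)).toAffineMap ''
        (Set.range q) := by
      ext z
      constructor
      · rintro ⟨x, rfl⟩
        exact ⟨q x, ⟨x, rfl⟩, by simp [sub_eq_neg_add]⟩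
      · rintro ⟨_, ⟨x, rfl⟩, rfl⟩
        exact ⟨x, by simp [sub_eq_neg_add]⟩
    rw [h1, ← AffineMap.image_convexHull]
    intro z hz
    refine ⟨z + c, hball ?_, by simp⟩
    rw [Metric.mem_ball, dist_eq_norm] at hz ⊢
    simpa using hz
  obtain ⟨a, v, hgp, h1, h2, h3⟩ := Pert.centred (fun x => q x - c)
    (fun x => (Pert.vtx_sub q c x).2 (hv x)) hρ hball' N
    (fun i x hx => (Pert.edg_sub q c _ _).2 (hE i x hx))
    (fun i j hij hcon => hI i j hij ((Pert.edg_sub q c _ _).1 hcon))
  -- the origin
  obtain ⟨T, -, hT⟩ := Finset.exists_subset_card_eq (s := (Finset.univ : Finset A)) (n := d + 1)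
    (by rwa [Finset.card_univ])
  have hTi := hgp T hT
  have hTs : affineSpan ℝ (Set.range (fun t : T => a t)) = ⊤ := by
    rw [hTi.affineSpan_eq_top_iff_card_eq_finrank_add_one, finrank_euclideanSpace,
      Fintype.card_fin, Fintype.card_coe, hT]
  have has : affineSpan ℝ (Set.range a) = ⊤ := by
    rw [eq_top_iff, ← hTs]
    apply affineSpan_mono
    rintro _ ⟨t, rfl⟩
    exact ⟨t, rfl⟩
  obtain ⟨o, ho⟩ := interior_convexHull_nonempty_iff_affineSpan_eq_top.2 has
  rw [mem_interior_iff_mem_nhds, Metric.mem_nhds_iff] at ho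
  obtain ⟨r, hr, hrb⟩ := ho
  refine ⟨fun x => a x - o, fun k => v k - o, Pert.gp_sub a o hgp, ?_, ?_, ?_, ?_⟩
  · intro z hz
    by_contra hcon
    push Not at hcon
    have hle : ∀ t, z (a t) ≤ z o := by
      intro t
      have := hcon t
      rw [map_sub] at this
      linarith
    have hhull : ∀ w ∈ convexHull ℝ (Set.range a), z w ≤ z o := by
      intro w hw
      have h4 : convexHull ℝ (Set.range a) ⊆ {w | z w ≤ z o} := by
        apply convexHull_min
        · rintro _ ⟨x, rfl⟩
          exact hle x
        · exact convex_halfSpace_le z.isLinear _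
      exact h4 hw
    obtain ⟨w, hw⟩ : ∃ w, 0 < z w := by
      by_contra hno
      push Not at hno
      apply hz
      ext w
      have h5 := hno w
      have h6 := hno (-w)
      rw [map_neg] at h6
      rw [LinearMap.zero_apply]
      linarith
    have hw0 : 0 < ‖w‖ := by
      rw [norm_pos_iff]
      intro h0
      rw [h0, map_zero] at hw
      exact lt_irrefl _ hw
    have h7 : o + (r / 2 / ‖w‖) • w ∈ Metric.ball o r := by
      rw [Metric.mem_ball, dist_eq_norm, add_sub_cancel_left, norm_smul, Real.norm_eq_abs,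
        abs_of_pos (div_pos (half_pos hr) hw0), div_mul_cancel₀ _ hw0.ne']
      linarith
    have h8 := hhull _ (hrb h7)
    rw [map_add, map_smul, smul_eq_mul] at h8
    have h9 : 0 < r / 2 / ‖w‖ * z w := mul_pos (div_pos (half_pos hr) hw0) hw
    linarith
  · intro i
    rw [Pert.elim_sub, Pert.vtx_sub]
    exact h1 i
  · intro i x hx
    rw [Pert.elim_sub, Pert.edg_sub]
    exact h2 i x hx
  · intro i j hij
    rw [Pert.elim_sub, Pert.edg_sub]
    exact h3 i j hij

end Pool.Agent.MP8a30e7
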