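import Mathlib
import Pool.Agent.Lib.MP_8a30e7_co.Defs

open scoped BigOperators
open Polynomial

namespace Pool.Agent.MP8a30e7

theorem top_two {d : ℕ} {ι : Type} [Fintype ι] [DecidableEq ι] (p : ι → E d)
    (f : E d →ₗ[ℝ] ℝ) (B : Finset ι) (hB : ∀ i ∈ B, ∀ j, j ∉ B → f (p j) < f (p i))
    (hv : ∀ i ∈ B, Vtx p i) (h2 : 2 ≤ B.card) :
    ∃ i ∈ B, ∃ j ∈ B, i ≠ j ∧ Edg p i j := by
  have hne : B.Nonempty := Finset.card_pos.1 (by omega)
  obtain ⟨v1, hv1, hmax⟩ := Finset.exists_max_image B (fun i => f (p i)) hne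
  obtain ⟨g, hg⟩ := hv v1 hv1
  have hev : ∀ᶠ η in nhdsWithin (0 : ℝ) (Set.Ioi 0), ∀ i j, i ∈ B → j ∉ B →
      f (p j) + η * g (p j) < f (p i) + η * g (p i) := by
    refine Filter.eventually_all.2 fun i => Filter.eventually_all.2 fun j => ?_
    by_cases hi : i ∈ B
    · by_cases hj : j ∉ B
      · have hc : Continuous (fun η : ℝ => (f (p i) + η * g (p i)) - (f (p j) + η * g (p j))) := by
          fun_prop
        have h0 : (0 : ℝ) < (fun η : ℝ => (f (p i) + η * g (p i)) - (f (p j) + η * g (p j))) 0 := by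
          have := hB i hi j hj
          simpa using this
        have := (hc.tendsto 0).eventually (lt_mem_nhds h0)
        refine (this.filter_mono nhdsWithin_le_nhds).mono fun η hη _ _ => ?_
        linarith
      · exact Filter.Eventually.of_forall fun η _ h => absurd h hj
    · exact Filter.Eventually.of_forall fun η h => absurd h hi
  obtain ⟨η, hη, hη0⟩ := (hev.and self_mem_nhdsWithin).exists
  have hη0' : (0 : ℝ) < η := hη0
  set f' : E d →ₗ[ℝ] ℝ := f + η • g with hf'
  have hf'v : ∀ x, f' x = f x + η * g x := by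
    intro x
    simp [hf']
  have h1 : ∀ j, j ≠ v1 → f' (p j) < f' (p v1) := by
    intro j hj
    rw [hf'v, hf'v]
    have a1 := hg j hj
    have a2 : f (p j) ≤ f (p v1) := by
      by_cases hjB : j ∈ B
      · exact hmax j hjB
      · exact (hB v1 hv1 j hjB).le
    have := mul_lt_mul_of_pos_left a1 hη0'
    linarith
  have hne2 : (B.erase v1).Nonempty := by
    rw [← Finset.card_pos, Finset.card_erase_of_mem hv1]
    omega
  obtain ⟨v2, hv2, hmax2⟩ := Finset.exists_max_image (B.erase v1) (fun i => f' (p i)) hne2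
  rw [Finset.mem_erase] at hv2
  obtain ⟨h, hh⟩ := hv v2 hv2.2
  have hlt : f' (p v2) < f' (p v1) := h1 v2 hv2.1
  have hh1 : h (p v1) < h (p v2) := hh v1 (Ne.symm hv2.1)
  set t : ℝ := (f' (p v1) - f' (p v2)) / (h (p v2) - h (p v1)) with ht
  have ht0 : 0 < t := div_pos (by linarith) (by linarith)
  have hte : t * (h (p v2) - h (p v1)) = f' (p v1) - f' (p v2) := by
    rw [ht, div_mul_cancel₀]
    exact ne_of_gt (by linarith)
  refine ⟨v1, hv1, v2, hv2.2, Ne.symm hv2.1, f' + t • h, ?_, ?_⟩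
  · simp only [LinearMap.add_apply, LinearMap.smul_apply, smul_eq_mul]
    nlinarith [hte]
  · intro k hk1 hk2
    simp only [LinearMap.add_apply, LinearMap.smul_apply, smul_eq_mul]
    have b1 : f' (p k) ≤ f' (p v2) := by
      by_cases hkB : k ∈ B
      · exact hmax2 k (Finset.mem_erase.2 ⟨hk1, hkB⟩)
      · rw [hf'v, hf'v]
        exact (hη v2 k hv2.2 hkB).le
    have b2 := mul_lt_mul_of_pos_left (hh k hk2) ht0
    nlinarith [hte]

end Pool.Agent.MP8a30e7
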