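import Mathlib
import Pool.Agent.Lib.MP_8a30e7_co.Defs
import Pool.Agent.Lib.MP_8a30e7_co.Facet

open scoped BigOperators
open Polynomial

namespace Pool.Agent.MP8a30e7

namespace Fsum

theorem mem_facets {d : ℕ} {A : Type} [Fintype A] {a : A → E d} {T : Finset A} :
    T ∈ facets a ↔ ∃ c, IsFacet a T c := by
  unfold facets
  simp

/-- existence of coordinates -/
theorem spec {d : ℕ} {A : Type} [Fintype A] [DecidableEq A] {a : A → E d} (hgp : GP a)
    (hs : Surr a) {T : Finset A} (hT : T ∈ facets a) (w : E d) :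
    ∑ t ∈ T, co a T w t • a t = w := by
  classical
  obtain ⟨c, hc⟩ := mem_facets.1 hT
  have hli := facet_linInd hgp hs hc
  have hcard : Fintype.card (T : Set A) = Module.finrank ℝ (E d) := by
    rw [finrank_euclideanSpace_fin, ← hc.1]
    simp
  have hspan : Submodule.span ℝ (Set.range (fun t : T => a t)) = ⊤ := by
    apply LinearIndependent.span_eq_top_of_card_eq_finrank' hli
    rw [finrank_euclideanSpace_fin, ← hc.1]
    simp
  have hw : w ∈ Submodule.span ℝ (Set.range (fun t : T => a t)) := by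
    rw [hspan]; exact Submodule.mem_top
  rw [Submodule.mem_span_range_iff_exists_fun] at hw
  obtain ⟨l, hl⟩ := hw
  have hex : ∃ l : A → ℝ, (∀ t, t ∉ T → l t = 0) ∧ ∑ t ∈ T, l t • a t = w := by
    refine ⟨fun t => if h : t ∈ T then l ⟨t, h⟩ else 0, ?_, ?_⟩
    · intro t ht
      simp [ht]
    · rw [← hl, ← Finset.sum_coe_sort T]
      apply Finset.sum_congr rfl
      intro t _
      simp
  have : co a T w = hex.choose := by
    unfold co
    rw [dif_pos hex]
  rw [this]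
  exact hex.choose_spec.2

theorem val_gen {d : ℕ} {A : Type} [Fintype A] [DecidableEq A] {a : A → E d} (hgp : GP a)
    (hs : Surr a) {T : Finset A} (hT : T ∈ facets a) (w : E d) (c : E d →ₗ[ℝ] ℝ) :
    c w = ∑ t ∈ T, co a T w t * c (a t) := by
  conv_lhs => rw [← spec hgp hs hT w]
  rw [map_sum]
  apply Finset.sum_congr rfl
  intro t _
  rw [map_smul, smul_eq_mul]

theorem val_eq {d : ℕ} {A : Type} [Fintype A] [DecidableEq A] {a : A → E d} (hgp : GP a)
    (hs : Surr a) {T : Finset A} (hT : T ∈ facets a) (w : E d) {c : E d →ₗ[ℝ] ℝ}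
    (hc : IsFacet a T c) :
    c w = ∑ t ∈ T, co a T w t := by
  rw [val_gen hgp hs hT w c]
  apply Finset.sum_congr rfl
  intro t ht
  rw [hc.2.1 t ht, mul_one]

theorem le_one {d : ℕ} {A : Type} {a : A → E d} {T : Finset A} {c : E d →ₗ[ℝ] ℝ}
    (hc : IsFacet a T c) (t : A) : c (a t) ≤ 1 := by
  by_cases ht : t ∈ T
  · exact (hc.2.1 t ht).le
  · exact (hc.2.2 t ht).le

theorem mem_posi {d : ℕ} {A : Type} {a : A → E d} {w : E d} {T : Finset A} {t : A} :
    t ∈ posi a w T ↔ t ∈ T ∧ 0 < co a T w t := by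
  unfold posi
  simp

/-- the main comparison -/
theorem compare {d : ℕ} {A : Type} [Fintype A] [DecidableEq A] {a : A → E d} (hgp : GP a)
    (hs : Surr a) {w : E d} {T T' K : Finset A} {c c' : E d →ₗ[ℝ] ℝ}
    (hT : T ∈ facets a) (hc : IsFacet a T c) (hc' : IsFacet a T' c')
    (hK : K ⊆ posi a w T) (hsub : T \ K ⊆ T') :
    c' w ≤ c w ∧ (c w ≤ c' w → K ⊆ T') := by
  have hterm : ∀ t ∈ T, co a T w t * c' (a t) ≤ co a T w t := by
    intro t ht
    by_cases htK : t ∈ K
    · have hpos := (mem_posi.1 (hK htK)).2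
      have h1 := le_one hc' t
      nlinarith
    · have h1 := hc'.2.1 t (hsub (Finset.mem_sdiff.2 ⟨ht, htK⟩))
      rw [h1, mul_one]
  refine ⟨?_, ?_⟩
  · rw [val_gen hgp hs hT w c', val_eq hgp hs hT w hc]
    exact Finset.sum_le_sum hterm
  · intro hle t htK
    by_contra htT'
    have hpos := mem_posi.1 (hK htK)
    have hlt : c' w < c w := by
      rw [val_gen hgp hs hT w c', val_eq hgp hs hT w hc]
      apply Finset.sum_lt_sum hterm
      refine ⟨t, hpos.1, ?_⟩
      have h1 := hc'.2.2 t htT'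
      have h2 := hpos.2
      nlinarith
    exact absurd hle (not_le.2 hlt)

theorem inj {d : ℕ} {A : Type} [Fintype A] [DecidableEq A] {a : A → E d} (hgp : GP a)
    (hs : Surr a) {w : E d} {T T' K K' : Finset A}
    (hT : T ∈ facets a) (hT' : T' ∈ facets a)
    (hK : K ⊆ posi a w T) (hK' : K' ⊆ posi a w T') (hsub : T \ K = T' \ K') :
    T = T' ∧ K = K' := by
  obtain ⟨c, hc⟩ := mem_facets.1 hT
  obtain ⟨c', hc'⟩ := mem_facets.1 hT'
  have h1 := compare hgp hs hT hc hc' hK (by rw [hsub]; exact Finset.sdiff_subset)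
  have h2 := compare hgp hs hT' hc' hc hK' (by rw [← hsub]; exact Finset.sdiff_subset)
  have hKT' : K ⊆ T' := h1.2 h2.1
  have hTT' : T ⊆ T' := by
    intro t ht
    by_cases htK : t ∈ K
    · exact hKT' htK
    · have : t ∈ T \ K := Finset.mem_sdiff.2 ⟨ht, htK⟩
      rw [hsub] at this
      exact (Finset.mem_sdiff.1 this).1
  have hTeq : T = T' := by
    apply Finset.eq_of_subset_of_card_le hTT'
    rw [hc.1, hc'.1]
  subst hTeq
  refine ⟨rfl, ?_⟩
  have hKT : K ⊆ T := fun t ht => (mem_posi.1 (hK ht)).1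
  have hK'T : K' ⊆ T := fun t ht => (mem_posi.1 (hK' ht)).1
  have e1 : T \ (T \ K) = K := by
    rw [Finset.sdiff_sdiff_eq_self hKT]
  have e2 : T \ (T \ K') = K' := by
    rw [Finset.sdiff_sdiff_eq_self hK'T]
  rw [← e1, ← e2, hsub]

theorem surj {d : ℕ} {A : Type} [Fintype A] [DecidableEq A] {a : A → E d} (hgp : GP a)
    (hs : Surr a) {w : E d} (hw : Gen a w) {σ : Finset A} (hσ : ∃ T ∈ facets a, σ ⊆ T) :
    ∃ T ∈ facets a, σ ⊆ T ∧ T \ σ ⊆ posi a w T := by
  classical
  obtain ⟨T₀, hT₀, hσ₀⟩ := hσ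
  obtain ⟨T, hTmem, hTmax⟩ := Finset.exists_max_image
    ((facets a).filter (fun T => σ ⊆ T)) (fun T => ∑ t ∈ T, co a T w t)
    ⟨T₀, Finset.mem_filter.2 ⟨hT₀, hσ₀⟩⟩
  obtain ⟨hT, hσT⟩ := Finset.mem_filter.1 hTmem
  refine ⟨T, hT, hσT, ?_⟩
  intro t ht
  obtain ⟨htT, htσ⟩ := Finset.mem_sdiff.1 ht
  rw [mem_posi]
  refine ⟨htT, ?_⟩
  by_contra hneg
  have hneg' : co a T w t < 0 := lt_of_le_of_ne (not_lt.1 hneg) (hw T hT t htT)
  obtain ⟨c, hc⟩ := mem_facets.1 hT
  obtain ⟨T', c', hc', hsub, hnot⟩ := pivot hgp hs hc htT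
  have hT' : T' ∈ facets a := mem_facets.2 ⟨c', hc'⟩
  have hσT' : σ ⊆ T' := by
    intro s hsσ
    apply hsub
    rw [Finset.mem_erase]
    refine ⟨?_, hσT hsσ⟩
    rintro rfl
    exact htσ hsσ
  have hmax := hTmax T' (Finset.mem_filter.2 ⟨hT', hσT'⟩)
  rw [← val_eq hgp hs hT' w hc', val_gen hgp hs hT w c'] at hmax
  have hlt : ∑ s ∈ T, co a T w s < ∑ s ∈ T, co a T w s * c' (a s) := by
    apply Finset.sum_lt_sum
    · intro s hsT
      by_cases hst : s = t
      · subst hst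
        have := hc'.2.2 s hnot
        nlinarith
      · rw [hc'.2.1 s (hsub (Finset.mem_erase.2 ⟨hst, hsT⟩)), mul_one]
    · refine ⟨t, htT, ?_⟩
      have := hc'.2.2 t hnot
      nlinarith
  exact absurd hmax (not_le.2 hlt)

end Fsum

theorem sum_choose {d : ℕ} {A : Type} [Fintype A] [DecidableEq A] {a : A → E d} (hgp : GP a)
    (hs : Surr a) {w : E d} (hw : Gen a w) (k : ℕ) (hk : k ≤ d) :
    ∑ T ∈ facets a, (posi a w T).card.choose k =
      (Finset.univ.filter
        (fun σ : Finset A => σ.card + k = d ∧ ∃ T ∈ facets a, σ ⊆ T)).card := by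
  have h1 : ∑ T ∈ facets a, (posi a w T).card.choose k =
      ((facets a).sigma (fun T => Finset.powersetCard k (posi a w T))).card := by
    rw [Finset.card_sigma]
    apply Finset.sum_congr rfl
    intro T _
    rw [Finset.card_powersetCard]
  rw [h1]
  apply Finset.card_bij (fun x _ => x.1 \ x.2)
  · rintro ⟨T, K⟩ hx
    rw [Finset.mem_sigma, Finset.mem_powersetCard] at hx
    obtain ⟨hT, hK, hcard⟩ := hx
    simp only at hT hK hcard ⊢
    rw [Finset.mem_filter]
    refine ⟨Finset.mem_univ _, ?_, T, hT, Finset.sdiff_subset⟩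
    obtain ⟨c, hc⟩ := Fsum.mem_facets.1 hT
    have hKT : K ⊆ T := fun t ht => (Fsum.mem_posi.1 (hK ht)).1
    have := Finset.card_sdiff_add_card_eq_card hKT
    rw [hcard, hc.1] at this
    exact this
  · rintro ⟨T, K⟩ hx ⟨T', K'⟩ hx' heq
    rw [Finset.mem_sigma, Finset.mem_powersetCard] at hx hx'
    simp only at heq hx hx'
    obtain ⟨e1, e2⟩ := Fsum.inj hgp hs hx.1 hx'.1 hx.2.1 hx'.2.1 heq
    subst e1
    subst e2
    rfl
  · intro σ hσ
    rw [Finset.mem_filter] at hσ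
    obtain ⟨-, hcard, hex⟩ := hσ
    obtain ⟨T, hT, hσT, hpos⟩ := Fsum.surj hgp hs hw hex
    refine ⟨⟨T, T \ σ⟩, ?_, ?_⟩
    · rw [Finset.mem_sigma, Finset.mem_powersetCard]
      refine ⟨hT, hpos, ?_⟩
      obtain ⟨c, hc⟩ := Fsum.mem_facets.1 hT
      have := Finset.card_sdiff_add_card_eq_card hσT
      rw [hc.1] at this
      simp only
      omega
    · simp only
      exact Finset.sdiff_sdiff_eq_self hσT

end Pool.Agent.MP8a30e7
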