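import Mathlib
import Pool.Agent.Lib.MP_8a30e7_co.Defs
import Pool.Agent.Lib.MP_8a30e7_co.Facet
import Pool.Agent.Lib.MP_8a30e7_co.Coord
import Pool.Agent.Lib.MP_8a30e7_co.Fsum

open scoped BigOperators
open Polynomial

namespace Pool.Agent.MP8a30e7

namespace Ubt

open Classical in
/-- number of facets with `i` positive coordinates -/
noncomputable def hh {d : ℕ} {A : Type} [Fintype A] (a : A → E d) (w : E d) (i : ℕ) : ℕ :=
  ((facets a).filter (fun T => (posi a w T).card = i)).card

theorem mem_facets {d : ℕ} {A : Type} [Fintype A] {a : A → E d} {T : Finset A} :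
    T ∈ facets a ↔ ∃ c, IsFacet a T c := by
  classical
  unfold facets
  simp

theorem card_of_mem {d : ℕ} {A : Type} [Fintype A] {a : A → E d} {T : Finset A}
    (h : T ∈ facets a) : T.card = d := by
  obtain ⟨c, hc⟩ := mem_facets.1 h
  exact hc.1

theorem posi_subset {d : ℕ} {A : Type} {a : A → E d} {w : E d} {T : Finset A} :
    posi a w T ⊆ T := by
  classical
  unfold posi
  exact Finset.filter_subset _ _

theorem card_posi_le {d : ℕ} {A : Type} [Fintype A] {a : A → E d} {w : E d} {T : Finset A}
    (h : T ∈ facets a) : (posi a w T).card ≤ d :=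
  (Finset.card_le_card posi_subset).trans (card_of_mem h).le

theorem sum_choose_eq {d : ℕ} {A : Type} [Fintype A] [DecidableEq A] {a : A → E d} (hgp : GP a)
    (hs : Surr a) {w w' : E d} (hw : Gen a w) (hw' : Gen a w') (k : ℕ) :
    ∑ T ∈ facets a, (posi a w T).card.choose k =
      ∑ T ∈ facets a, (posi a w' T).card.choose k := by
  by_cases hk : k ≤ d
  · rw [sum_choose hgp hs hw k hk, sum_choose hgp hs hw' k hk]
  · push Not at hk
    rw [Finset.sum_eq_zero, Finset.sum_eq_zero]
    · intro T hT
      exact Nat.choose_eq_zero_of_lt (lt_of_le_of_lt (card_posi_le hT) hk)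
    · intro T hT
      exact Nat.choose_eq_zero_of_lt (lt_of_le_of_lt (card_posi_le hT) hk)

/-- A family of natural numbers is determined (up to permutation) by its binomial moments. -/
theorem count_eq {S : Type} (s : Finset S) (f g : S → ℕ)
    (h : ∀ k, ∑ x ∈ s, (f x).choose k = ∑ x ∈ s, (g x).choose k) (i : ℕ) :
    (s.filter (fun x => f x = i)).card = (s.filter (fun x => g x = i)).card := by
  have h1 : (∑ x ∈ s, (X + 1 : ℤ[X]) ^ f x) = ∑ x ∈ s, (X + 1 : ℤ[X]) ^ g x := by
    ext k
    rw [Polynomial.finsetSum_coeff, Polynomial.finsetSum_coeff]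
    simp only [Polynomial.coeff_X_add_one_pow]
    exact_mod_cast h k
  have h2 : (∑ x ∈ s, (X : ℤ[X]) ^ f x) = ∑ x ∈ s, (X : ℤ[X]) ^ g x := by
    have := congrArg (Polynomial.compRingHom (X - 1 : ℤ[X])) h1
    simpa [map_sum] using this
  have h3 := congrArg (fun p => p.coeff i) h2
  simp only [Polynomial.finsetSum_coeff, Polynomial.coeff_X_pow] at h3
  rw [Finset.card_filter, Finset.card_filter]
  have h4 : ((∑ x ∈ s, if i = f x then 1 else 0 : ℕ) : ℤ) =
      ((∑ x ∈ s, if i = g x then 1 else 0 : ℕ) : ℤ) := by
    push_cast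
    exact h3
  have h5 := Int.ofNat.inj h4
  simpa [eq_comm] using h5

theorem hh_indep {d : ℕ} {A : Type} [Fintype A] [DecidableEq A] {a : A → E d} (hgp : GP a)
    (hs : Surr a) {w w' : E d} (hw : Gen a w) (hw' : Gen a w') (i : ℕ) :
    hh a w i = hh a w' i := by
  classical
  unfold hh
  have := count_eq (facets a) (fun T => (posi a w T).card) (fun T => (posi a w' T).card)
    (fun k => sum_choose_eq hgp hs hw hw' k) i
  convert this using 2

theorem co_neg {d : ℕ} {A : Type} [Fintype A] [DecidableEq A] {a : A → E d} (hgp : GP a)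
    (hs : Surr a) {T : Finset A} (hT : T ∈ facets a) (w : E d) :
    co a T (-w) = - co a T w := by
  obtain ⟨h1, h2⟩ := co_spec hgp hs hT w
  apply co_unique hgp hs hT (-w) (- co a T w)
  · intro t ht
    simp [h1 t ht]
  · simp only [Pi.neg_apply, neg_smul, Finset.sum_neg_distrib]
    rw [h2]

theorem gen_neg {d : ℕ} {A : Type} [Fintype A] [DecidableEq A] {a : A → E d} (hgp : GP a)
    (hs : Surr a) {w : E d} (hw : Gen a w) : Gen a (-w) := by
  intro T hT t ht
  rw [co_neg hgp hs hT]
  simpa using hw T hT t ht

theorem posi_neg {d : ℕ} {A : Type} [Fintype A] [DecidableEq A] {a : A → E d} (hgp : GP a)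
    (hs : Surr a) {w : E d} (hw : Gen a w) {T : Finset A} (hT : T ∈ facets a) :
    posi a (-w) T = T \ posi a w T := by
  classical
  ext t
  unfold posi
  simp only [Finset.mem_filter, Finset.mem_sdiff]
  rw [co_neg hgp hs hT]
  constructor
  · rintro ⟨h1, h2⟩
    refine ⟨h1, ?_⟩
    rintro ⟨_, h3⟩
    simp only [Pi.neg_apply] at h2
    linarith
  · rintro ⟨h1, h2⟩
    refine ⟨h1, ?_⟩
    have h3 : ¬ 0 < co a T w t := fun h => h2 ⟨h1, h⟩
    have h4 := hw T hT t h1
    simp only [Pi.neg_apply]
    push Not at h3
    have := lt_of_le_of_ne h3 h4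
    linarith

theorem hh_symm {d : ℕ} {A : Type} [Fintype A] [DecidableEq A] {a : A → E d} (hgp : GP a)
    (hs : Surr a) {w : E d} (hw : Gen a w) {i : ℕ} (hi : i ≤ d) :
    hh a w (d - i) = hh a w i := by
  classical
  rw [hh_indep hgp hs hw (gen_neg hgp hs hw) (d - i)]
  unfold hh
  congr 1
  apply Finset.filter_congr
  intro T hT
  rw [posi_neg hgp hs hw hT, Finset.card_sdiff_of_subset posi_subset, card_of_mem hT]
  have := card_posi_le (w := w) hT
  omega

theorem local_count {A : Type} [DecidableEq A] (T P : Finset A) (hP : P ⊆ T) (i d : ℕ)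
    (hT : T.card = d) :
    (if P.card = i + 1 then i + 1 else 0) + (if P.card = i then d - i else 0) ≤
      (T.filter (fun s => (P.erase s).card = i)).card := by
  by_cases h1 : P.card = i + 1
  · have h2 : P.card ≠ i := by omega
    rw [if_pos h1, if_neg h2, add_zero]
    have : P ⊆ T.filter (fun s => (P.erase s).card = i) := by
      intro s hs
      rw [Finset.mem_filter]
      refine ⟨hP hs, ?_⟩
      rw [Finset.card_erase_of_mem hs, h1]
      simp
    calc i + 1 = P.card := h1.symm
      _ ≤ _ := Finset.card_le_card this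
  · rw [if_neg h1, zero_add]
    by_cases h2 : P.card = i
    · rw [if_pos h2]
      have : T \ P ⊆ T.filter (fun s => (P.erase s).card = i) := by
        intro s hs
        rw [Finset.mem_sdiff] at hs
        rw [Finset.mem_filter]
        refine ⟨hs.1, ?_⟩
        rw [Finset.erase_eq_of_notMem hs.2, h2]
      calc d - i = (T \ P).card := by rw [Finset.card_sdiff_of_subset hP, hT, h2]
        _ ≤ _ := Finset.card_le_card this
    · rw [if_neg h2]
      exact Nat.zero_le _

theorem hh_step {d : ℕ} {A : Type} [Fintype A] [DecidableEq A] {a : A → E d} (hgp : GP a)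
    (hs : Surr a) {w : E d} (hw : Gen a w) (i : ℕ) :
    (i + 1) * hh a w (i + 1) + (d - i) * hh a w i ≤ Fintype.card A * hh a w i := by
  classical
  have hH : ∀ s : A, ((facets a).filter
      (fun T => s ∈ T ∧ ((posi a w T).erase s).card = i)).card ≤ hh a w i := by
    intro s
    obtain ⟨w', hw', hpos⟩ := exists_gen_sub hgp hs hw s
    rw [hh_indep hgp hs hw hw' i]
    unfold hh
    apply Finset.card_le_card
    intro T hT
    rw [Finset.mem_filter] at hT ⊢
    obtain ⟨h1, h2, h3⟩ := hT
    refine ⟨h1, ?_⟩
    rw [hpos T h1 h2]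
    exact h3
  have hsum : ∑ s : A, ((facets a).filter
      (fun T => s ∈ T ∧ ((posi a w T).erase s).card = i)).card =
      ∑ T ∈ facets a, (T.filter (fun s => ((posi a w T).erase s).card = i)).card := by
    simp only [Finset.card_filter]
    rw [Finset.sum_comm]
    apply Finset.sum_congr rfl
    intro T _
    rw [← Finset.sum_filter, ← Finset.sum_filter]
    apply Finset.sum_congr
    · ext s
      simp
    · intros; rfl
  calc (i + 1) * hh a w (i + 1) + (d - i) * hh a w i
      = ∑ T ∈ facets a, ((if (posi a w T).card = i + 1 then i + 1 else 0) +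
          (if (posi a w T).card = i then d - i else 0)) := by
        rw [Finset.sum_add_distrib, ← Finset.sum_filter, ← Finset.sum_filter]
        unfold hh
        simp only [Finset.sum_const, smul_eq_mul]
        ring
    _ ≤ ∑ T ∈ facets a, (T.filter (fun s => ((posi a w T).erase s).card = i)).card := by
        apply Finset.sum_le_sum
        intro T hT
        exact local_count T (posi a w T) posi_subset i d (card_of_mem hT)
    _ = ∑ s : A, ((facets a).filter
      (fun T => s ∈ T ∧ ((posi a w T).erase s).card = i)).card := hsum.symm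
    _ ≤ ∑ s : A, hh a w i := Finset.sum_le_sum (fun s _ => hH s)
    _ = Fintype.card A * hh a w i := by
        simp

theorem hh_top {d : ℕ} {A : Type} [Fintype A] [DecidableEq A] {a : A → E d} (hgp : GP a)
    (hs : Surr a) {w : E d} (hw : Gen a w) : hh a w d ≤ 1 := by
  classical
  have h1 := sum_choose hgp hs hw d le_rfl
  have h2 : hh a w d ≤ ∑ T ∈ facets a, (posi a w T).card.choose d := by
    unfold hh
    rw [Finset.card_filter]
    apply Finset.sum_le_sum
    intro T _
    split_ifs with h
    · rw [h, Nat.choose_self]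
    · exact Nat.zero_le _
  refine h2.trans ?_
  rw [h1]
  rw [Finset.card_le_one]
  intro x hx y hy
  simp only [Finset.mem_filter, Finset.mem_univ, true_and] at hx hy
  have hx' : x = ∅ := Finset.card_eq_zero.1 (by omega)
  have hy' : y = ∅ := Finset.card_eq_zero.1 (by omega)
  rw [hx', hy']

theorem hh_bound {d e : ℕ} {A : Type} [Fintype A] [DecidableEq A] {a : A → E d} (hgp : GP a)
    (hs : Surr a) {w : E d} (hw : Gen a w) (hn : Fintype.card A = d + 1 + e) (i : ℕ)
    (hi : i ≤ d) : hh a w i ≤ (e + i).choose i := by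
  induction i with
  | zero =>
    have h1 := hh_symm hgp hs hw (i := 0) (Nat.zero_le _)
    have h2 := hh_top hgp hs hw
    simp only [Nat.sub_zero] at h1
    rw [← h1]
    simpa using h2
  | succ i ih =>
    have ih' := ih (by omega)
    have h1 := hh_step hgp hs hw i
    have h2 : (i + 1) * hh a w (i + 1) ≤ (e + i + 1) * hh a w i := by
      have h3 : Fintype.card A * hh a w i = (e + i + 1) * hh a w i + (d - i) * hh a w i := by
        rw [← add_mul]
        congr 1
        omega
      omega
    have h4 : (i + 1) * hh a w (i + 1) ≤ (i + 1) * (e + (i + 1)).choose (i + 1) := by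
      calc (i + 1) * hh a w (i + 1) ≤ (e + i + 1) * hh a w i := h2
        _ ≤ (e + i + 1) * (e + i).choose i := Nat.mul_le_mul_left _ ih'
        _ = (i + 1) * (e + (i + 1)).choose (i + 1) := by
          rw [Nat.add_one_mul_choose_eq (e + i) i]
          rw [mul_comm]
          rfl
    exact Nat.le_of_mul_le_mul_left h4 (Nat.succ_pos i)

theorem hockey (e m : ℕ) : ∑ i ∈ Finset.range (m + 1), (e + i).choose i = (e + m + 1).choose m := by
  induction m with
  | zero => simp
  | succ m ih =>
    rw [Finset.sum_range_succ, ih]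
    rw [show e + (m + 1) + 1 = (e + m + 1) + 1 by ring, Nat.choose_succ_succ (e + m + 1) m]
    rfl

theorem card_ge {d : ℕ} {A : Type} [Fintype A] [DecidableEq A] {a : A → E (d + 1)}
    (hs : Surr a) {T : Finset A} (hT : T ∈ facets a) : d + 2 ≤ Fintype.card A := by
  classical
  obtain ⟨c, hc1, hc2, hc3⟩ := mem_facets.1 hT
  have hne : T.Nonempty := by
    rw [← Finset.card_pos]
    omega
  obtain ⟨t0, ht0⟩ := hne
  have hc : -c ≠ 0 := by
    intro h
    have h1 : (-c) (a t0) = 0 := by rw [h]; rfl
    have h2 := hc2 t0 ht0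
    simp only [LinearMap.neg_apply] at h1
    linarith
  obtain ⟨t, ht⟩ := hs (-c) hc
  have htT : t ∉ T := by
    intro h
    have := hc2 t h
    simp only [LinearMap.neg_apply] at ht
    linarith
  have h1 : (insert t T).card = T.card + 1 := Finset.card_insert_of_notMem htT
  have h2 : (insert t T).card ≤ Fintype.card A := Finset.card_le_univ _
  omega

end Ubt

open Ubt in
theorem ubt {m : ℕ} {A : Type} [Fintype A] [DecidableEq A] {a : A → E (2 * m + 1)}
    (hgp : GP a) (hs : Surr a) :
    (facets a).card ≤ 2 * (Fintype.card A - m - 1).choose m := by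
  classical
  rcases Finset.eq_empty_or_nonempty (facets a) with h | ⟨T0, hT0⟩
  · rw [h]
    simp
  obtain ⟨w, hw⟩ := exists_gen hgp hs
  have hcard : 2 * m + 2 ≤ Fintype.card A := card_ge hs hT0
  obtain ⟨e, he⟩ : ∃ e, Fintype.card A = (2 * m + 1) + 1 + e := ⟨Fintype.card A - (2 * m + 2), by omega⟩
  have hfib : (facets a).card = ∑ i ∈ Finset.range (2 * m + 2), hh a w i := by
    unfold hh
    apply Finset.card_eq_sum_card_fiberwise
    intro T hT
    have := card_posi_le (w := w) (Finset.mem_coe.1 hT)
    simp only [Finset.coe_range, Set.mem_Iio]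
    omega
  have hsplit : ∑ i ∈ Finset.range (2 * m + 2), hh a w i =
      2 * ∑ i ∈ Finset.range (m + 1), hh a w i := by
    rw [show 2 * m + 2 = (m + 1) + (m + 1) by ring, Finset.sum_range_add]
    have hdouble : ∀ x y : ℕ, y = x → x + y = 2 * x := by
      intro x y h
      omega
    apply hdouble
    rw [← Finset.sum_range_reflect (fun i => hh a w i) (m + 1)]
    apply Finset.sum_congr rfl
    intro i hi
    rw [Finset.mem_range] at hi
    have h1 := hh_symm hgp hs hw (i := m - i) (by omega)
    rw [show m + 1 - 1 - i = m - i by omega, ← h1]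
    congr 1
    omega
  rw [hfib, hsplit]
  apply Nat.mul_le_mul_left
  calc ∑ i ∈ Finset.range (m + 1), hh a w i
      ≤ ∑ i ∈ Finset.range (m + 1), (e + i).choose i := by
        apply Finset.sum_le_sum
        intro i hi
        rw [Finset.mem_range] at hi
        exact hh_bound hgp hs hw he i (by omega)
    _ = (e + m + 1).choose m := hockey e m
    _ = (Fintype.card A - m - 1).choose m := by
        congr 1
        omega

end Pool.Agent.MP8a30e7
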