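import Mathlib
import Pool.Agent.Lib.MP_8a30e7_co.Defs
import Pool.Agent.Lib.MP_8a30e7_co.Facet

/-!
# A visible facet at a neighbour (MP_8a30e7_co)
-/

open scoped BigOperators
open Polynomial

namespace Pool.Agent.MP8a30e7

theorem visible_facet {d : ℕ} {A : Type} [Fintype A] [DecidableEq A] {a : A → E d} (hgp : GP a)
    (hs : Surr a) (v : E d) (s : A) (f : E d →ₗ[ℝ] ℝ) (h1 : f (a s) = f v)
    (h2 : ∀ t, t ≠ s → f (a t) < f (a s)) (hv : v ≠ a s) :
    ∃ (T : Finset A) (c : E d →ₗ[ℝ] ℝ), IsFacet a T c ∧ s ∈ T ∧ 1 < c v := by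
  classical
  -- `f` is not zero
  have hf0 : f ≠ 0 := by
    intro h0
    have hall : ∀ t, t = s := by
      intro t
      by_contra hne
      have := h2 t hne
      rw [h0] at this
      simp at this
    have hsub : v - a s ≠ 0 := sub_ne_zero.mpr hv
    have hpos : 0 < inner ℝ (v - a s) (v - a s) := by
      rw [real_inner_self_eq_norm_sq]
      positivity
    let z : E d →ₗ[ℝ] ℝ := (innerSL ℝ (v - a s)).toLinearMap
    have hz : z ≠ 0 := by
      intro h
      have : z (v - a s) = 0 := by rw [h]; rfl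
      have h3 : z (v - a s) = inner ℝ (v - a s) (v - a s) := rfl
      rw [h3] at this
      exact hpos.ne' this
    obtain ⟨t1, ht1⟩ := hs z hz
    obtain ⟨t2, ht2⟩ := hs (-z) (neg_ne_zero.mpr hz)
    rw [hall t1] at ht1
    rw [hall t2, LinearMap.neg_apply] at ht2
    linarith
  have hfs : 0 < f (a s) := by
    obtain ⟨t, ht⟩ := hs f hf0
    by_cases hts : t = s
    · rw [hts] at ht
      exact ht
    · exact ht.trans (h2 t hts)
  -- rescale
  let g : E d →ₗ[ℝ] ℝ := (f (a s))⁻¹ • f
  have hg : ∀ x, g x = (f (a s))⁻¹ * f x := fun x => rfl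
  have hgs : g (a s) = 1 := by rw [hg, inv_mul_cancel₀ hfs.ne']
  have hgv : g v = 1 := by rw [hg, ← h1, inv_mul_cancel₀ hfs.ne']
  have hgt : ∀ t, t ≠ s → g (a t) < 1 := by
    intro t ht
    rw [hg, ← inv_mul_cancel₀ hfs.ne']
    exact mul_lt_mul_of_pos_left (h2 t ht) (inv_pos.mpr hfs)
  have hgle : ∀ t, g (a t) ≤ 1 := by
    intro t
    by_cases ht : t = s
    · rw [ht, hgs]
    · exact (hgt t ht).le
  obtain ⟨T0, c0, hT0, hsT0⟩ := facet_extend hgp hs g hgle
  -- choose the facet at `s` with the largest value at `v`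
  let m : Finset A → ℝ := fun T => if h : ∃ c, IsFacet a T c then h.choose v else 0
  have hm : ∀ T c, IsFacet a T c → m T = c v := by
    intro T c h
    have hex : ∃ c, IsFacet a T c := ⟨c, h⟩
    show (if h : ∃ c, IsFacet a T c then h.choose v else 0) = c v
    rw [dif_pos hex, facet_unique hgp hs hex.choose_spec h]
  obtain ⟨T, hT, hmax⟩ := Finset.exists_max_image
    (Finset.univ.filter (fun T : Finset A => s ∈ T ∧ ∃ c, IsFacet a T c)) m
    ⟨T0, by simpa using ⟨hsT0 s hgs, c0, hT0⟩⟩
  simp only [Finset.mem_filter, Finset.mem_univ, true_and] at hT hmax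
  obtain ⟨hsT, c, hTc⟩ := hT
  have hmax' : ∀ T' c', IsFacet a T' c' → s ∈ T' → c' v ≤ c v := by
    intro T' c' h hmem
    have := hmax T' ⟨hmem, c', h⟩
    rwa [hm T' c' h, hm T c hTc] at this
  refine ⟨T, c, hTc, hsT, ?_⟩
  -- coordinates
  have hli := facet_linInd hgp hs hTc
  have hfr : Module.finrank ℝ (E d) = d := finrank_euclideanSpace_fin
  have hcardT : Fintype.card T = Module.finrank ℝ (E d) := by
    rw [Fintype.card_coe, hTc.1, hfr]
  have : Nonempty T := ⟨⟨s, hsT⟩⟩
  let b := basisOfLinearIndependentOfCardEqFinrank hli hcardT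
  have hb : ∀ t : T, b t = a t := by
    intro t
    exact congrFun (coe_basisOfLinearIndependentOfCardEqFinrank hli hcardT) t
  let l : T → ℝ := fun t => b.repr v t
  have hsum : ∑ t : T, l t • a t = v := by
    have := b.sum_repr v
    simp only [hb] at this
    exact this
  have happ : ∀ z : E d →ₗ[ℝ] ℝ, z v = ∑ t : T, l t * z (a t) := by
    intro z
    conv_lhs => rw [← hsum]
    rw [map_sum]
    refine Finset.sum_congr rfl (fun t _ => ?_)
    rw [map_smul, smul_eq_mul]
  have hcv : c v = ∑ t : T, l t := by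
    rw [happ c]
    refine Finset.sum_congr rfl (fun t _ => ?_)
    rw [hTc.2.1 t.1 t.2, mul_one]
  have hlnn : ∀ u : T, (u : A) ≠ s → 0 ≤ l u := by
    intro u hus
    by_contra hneg
    rw [not_le] at hneg
    obtain ⟨T', c', hT', hsub, hnot⟩ := pivot hgp hs hTc u.2
    have hsT' : s ∈ T' := hsub (Finset.mem_erase.mpr ⟨fun h => hus h.symm, hsT⟩)
    have hlt := hT'.2.2 u.1 hnot
    have hle := hmax' T' c' hT' hsT'
    rw [hcv, happ c'] at hle
    have hlt2 : ∑ t : T, l t < ∑ t : T, l t * c' (a t) := by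
      apply Finset.sum_lt_sum
      · intro t _
        by_cases htu : t = u
        · subst htu
          nlinarith
        · rw [hT'.2.1 t.1 (hsub (Finset.mem_erase.mpr ⟨fun h => htu (Subtype.ext h), t.2⟩)),
            mul_one]
      · exact ⟨u, Finset.mem_univ _, by nlinarith⟩
    linarith
  have hge : ∀ t : T, l t * g (a t) ≤ l t := by
    intro t
    by_cases hts : (t : A) = s
    · rw [hts, hgs, mul_one]
    · have := hlnn t hts
      have := hgle t
      nlinarith
  have h1le : 1 ≤ c v := by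
    rw [hcv, ← hgv, happ g]
    exact Finset.sum_le_sum (fun t _ => hge t)
  rcases lt_or_eq_of_le h1le with h | h
  · exact h
  · exfalso
    have heq : ∑ t : T, l t * g (a t) = ∑ t : T, l t := by
      rw [← happ g, ← hcv, hgv, h]
    have hz := (Finset.sum_eq_sum_iff_of_le (fun t _ => hge t)).mp heq
    have hl0 : ∀ t : T, (t : A) ≠ s → l t = 0 := by
      intro t hts
      have h3 := hz t (Finset.mem_univ _)
      have h4 := hgt t hts
      have h5 : l t * (1 - g (a t)) = 0 := by linarith
      rcases mul_eq_zero.mp h5 with h6 | h6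
      · exact h6
      · linarith
    have hvs : v = l ⟨s, hsT⟩ • a s := by
      rw [← hsum]
      rw [Finset.sum_eq_single (⟨s, hsT⟩ : T)]
      · intro t _ ht
        rw [hl0 t (fun h => ht (Subtype.ext h)), zero_smul]
      · intro h
        exact absurd (Finset.mem_univ _) h
    have hls : l ⟨s, hsT⟩ = 1 := by
      have := hgv
      rw [hvs, map_smul, hgs, smul_eq_mul, mul_one] at this
      exact this
    apply hv
    rw [hvs, hls, one_smul]

end Pool.Agent.MP8a30e7
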