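import Mathlib
import Pool.Agent.Lib.MP_8a30e7_co.Defs
import Pool.Agent.Lib.MP_8a30e7_co.Facet
import Pool.Agent.Lib.MP_8a30e7_co.Vis
import Pool.Agent.Lib.MP_8a30e7_co.Top2
import Pool.Agent.Lib.MP_8a30e7_co.Pert
import Pool.Agent.Lib.MP_8a30e7_co.Ubt

/-!
# The obstruction in dimension `2m + 1`

If a `(2m+1)`-polytope has a set `A` of vertices and `I` further vertices which are pairwise
non-adjacent and have at least `2m + 2` neighbours in `A` each, then `2 |I|` is at most the
maximal number of facets of a simplicial `(2m+1)`-polytope with `|A|` vertices.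
-/

open scoped BigOperators
open Polynomial

namespace Pool.Agent.MP8a30e7

theorem obstruction {m : ℕ} {A I : Type} [Fintype A] [Fintype I] [DecidableEq A]
    [DecidableEq I] (q : A ⊕ I → E (2 * m + 1)) (hv : ∀ x, Vtx q x)
    (hspan : affineSpan ℝ (Set.range q) = ⊤) (N : I → Finset A)
    (hN : ∀ i, 2 * m + 2 ≤ (N i).card)
    (hE : ∀ i, ∀ x ∈ N i, Edg q (Sum.inr i) (Sum.inl x))
    (hI : ∀ i j, i ≠ j → ¬ Edg q (Sum.inr i) (Sum.inr j)) (hn : 2 * m + 2 ≤ Fintype.card A) :
    Fintype.card I ≤ (Fintype.card A - m - 1).choose m := by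
  classical
  obtain ⟨a, v, hgp, hs, hV, hE', hI'⟩ := perturb q hv hspan N hE hI (by omega)
  set vis : I → Finset (Finset A) := fun i =>
    (facets a).filter (fun T => ∃ c, IsFacet a T c ∧ 1 < c (v i)) with hvis
  have hfac : ∀ T ∈ facets a, T.card = 2 * m + 1 := by
    intro T hT
    obtain ⟨c, hc⟩ := (Finset.mem_filter.mp hT).2
    exact hc.1
  -- every vertex sees at least two facets
  have h1 : ∀ i, 2 ≤ (vis i).card := by
    intro i
    have hsub : N i ⊆ (vis i).biUnion id := by
      intro x hx
      obtain ⟨f, hf1, hf2⟩ := hE' i x hx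
      have hne : v i ≠ a x := by
        obtain ⟨g, hg⟩ := hV i
        have := hg (Sum.inl x) (by simp)
        intro h
        simp [h] at this
      obtain ⟨T, c, hT, hxT, hc⟩ := visible_facet hgp hs (v i) x f (by simpa using hf1.symm)
        (fun t ht => by
          have h2 := hf2 (Sum.inl t) (by simp) (by simpa using ht)
          have h3 : f (v i) = f (a x) := by simpa using hf1
          simpa [h3] using h2) hne
      refine Finset.mem_biUnion.mpr ⟨T, ?_, hxT⟩
      exact Finset.mem_filter.mpr
        ⟨Finset.mem_filter.mpr ⟨Finset.mem_univ _, c, hT⟩, c, hT, hc⟩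
    have h2 : (N i).card ≤ (vis i).card * (2 * m + 1) := by
      refine (Finset.card_le_card hsub).trans (Finset.card_biUnion_le_card_mul _ _ _ ?_)
      intro T hT
      exact (hfac T (Finset.mem_filter.mp hT).1).le
    have h3 := hN i
    by_contra hcon
    push Not at hcon
    have : (vis i).card ≤ 1 := by omega
    nlinarith
  -- different vertices see different facets
  have h2 : ∀ i j, i ≠ j → Disjoint (vis i) (vis j) := by
    intro i j hij
    rw [Finset.disjoint_left]
    intro T hT hT'
    obtain ⟨c, hc, hci⟩ := (Finset.mem_filter.mp hT).2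
    obtain ⟨c', hc', hcj⟩ := (Finset.mem_filter.mp hT').2
    have hcc := facet_unique hgp hs hc hc'
    subst hcc
    have hle : ∀ t, c (a t) ≤ 1 := by
      intro t
      by_cases ht : t ∈ T
      · exact (hc.2.1 t ht).le
      · exact (hc.2.2 t ht).le
    set B : Finset (A ⊕ I) := Finset.univ.filter (fun y => 1 < c (Sum.elim a v y)) with hB
    have hBinr : ∀ y ∈ B, ∃ k, y = Sum.inr k := by
      intro y hy
      rcases y with t | k
      · have := (Finset.mem_filter.mp hy).2
        simp only [Sum.elim_inl] at this
        exact absurd this (not_lt.mpr (hle t))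
      · exact ⟨k, rfl⟩
    have hi : Sum.inr i ∈ B := by simp [hB, hci]
    have hj : Sum.inr j ∈ B := by simp [hB, hcj]
    obtain ⟨y, hy, z, hz, hyz, hE2⟩ := top_two (Sum.elim a v) c B
      (fun y hy z hz => by
        have h3 := (Finset.mem_filter.mp hy).2
        have h4 : ¬ 1 < c (Sum.elim a v z) := fun h => hz (by simp [hB, h])
        linarith)
      (fun y hy => by
        obtain ⟨k, rfl⟩ := hBinr y hy
        exact hV k)
      (by
        have : ({Sum.inr i, Sum.inr j} : Finset (A ⊕ I)) ⊆ B := by
          intro y hy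
          simp only [Finset.mem_insert, Finset.mem_singleton] at hy
          rcases hy with rfl | rfl
          · exact hi
          · exact hj
        have h5 := Finset.card_le_card this
        rwa [Finset.card_pair (fun h => hij (Sum.inr_injective h))] at h5)
    obtain ⟨k, rfl⟩ := hBinr y hy
    obtain ⟨l, rfl⟩ := hBinr z hz
    exact hI' k l (fun h => hyz (by rw [h])) hE2
  have h3 : ∑ i : I, 2 ≤ (facets a).card := by
    calc ∑ i : I, 2 ≤ ∑ i : I, (vis i).card := Finset.sum_le_sum (fun i _ => h1 i)
      _ = (Finset.univ.biUnion vis).card :=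
        (Finset.card_biUnion (fun i _ j _ hij => h2 i j hij)).symm
      _ ≤ (facets a).card := by
        apply Finset.card_le_card
        intro T hT
        obtain ⟨i, _, hi⟩ := Finset.mem_biUnion.mp hT
        exact (Finset.mem_filter.mp hi).1
  have h4 := ubt hgp hs
  simp only [Finset.sum_const, Finset.card_univ, smul_eq_mul] at h3
  omega

end Pool.Agent.MP8a30e7
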