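import Mathlib
import Pool.Agent.Lib.MP_8a30e7_co.Defs

/-!
# MP_8a30e7_co, module TOK1: tokens, unique parse and distinctness
-/

open scoped BigOperators
open Polynomial

namespace Pool.Agent.MP8a30e7

namespace Tok1

theorem flat_cons (t : Tok) (l : List Tok) : flat (t :: l) = tokW t ++ flat l := rfl

theorem flat_append (l l' : List Tok) : flat (l ++ l') = flat l ++ flat l' := by
  unfold flat
  exact List.flatMap_append

theorem rem_ne_tok (t : Tok) (s : List Bool) (ρ : List Bool) (hρ : ρ ∈ Rem) :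
    ρ ≠ tokW t ++ s := by
  simp only [Rem, List.mem_cons, List.not_mem_nil, or_false] at hρ
  rcases hρ with rfl | rfl | rfl | rfl | rfl | rfl <;> cases t <;> simp [tokW]

theorem prefix_code (t t' : Tok) (s s' : List Bool) (h : tokW t ++ s = tokW t' ++ s') :
    t = t' ∧ s = s' := by
  cases t <;> cases t' <;> simp [tokW] at h ⊢ <;> exact h

/-- Unique parse. -/
theorem parse (l : List Tok) : ∀ (l' : List Tok) (ρ ρ' : List Bool), ρ ∈ Rem → ρ' ∈ Rem →
    flat l ++ ρ = flat l' ++ ρ' → l = l' ∧ ρ = ρ' := by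
  induction l with
  | nil =>
    intro l' ρ ρ' hρ hρ' h
    cases l' with
    | nil => exact ⟨rfl, h⟩
    | cons t' m' =>
      rw [flat_cons, List.append_assoc] at h
      exact (rem_ne_tok _ _ ρ hρ h).elim
  | cons t m ih =>
    intro l' ρ ρ' hρ hρ' h
    cases l' with
    | nil =>
      rw [flat_cons, List.append_assoc] at h
      exact (rem_ne_tok _ _ ρ' hρ' h.symm).elim
    | cons t' m' =>
      rw [flat_cons, flat_cons, List.append_assoc, List.append_assoc] at h
      obtain ⟨h1, h2⟩ := prefix_code _ _ _ _ h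
      obtain ⟨h3, h4⟩ := ih _ _ _ hρ hρ' h2
      exact ⟨by rw [h1, h3], h4⟩

theorem foldl_stepU (l : List Tok) : ∀ h : ℕ, l.foldl stepU h = (h - vp l) + up l := by
  induction l with
  | nil => intro h; simp [up, vp]
  | cons t m ih =>
    intro h
    have h1 : vp (t :: m) = stepV t (vp m) := rfl
    have h2 : up (t :: m) = (stepU 0 t - vp m) + up m := ih (stepU 0 t)
    rw [List.foldl_cons, ih, h1, h2]
    cases t <;> simp only [stepU, stepV, isA, reduceCtorEq, if_true, if_false, Bool.false_eq_true] <;> omega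

theorem up_cons (t : Tok) (m : List Tok) : up (t :: m) = (stepU 0 t - vp m) + up m :=
  foldl_stepU m (stepU 0 t)

theorem vp_cons (t : Tok) (m : List Tok) : vp (t :: m) = stepV t (vp m) := rfl

theorem foldr_stepV (l : List Tok) (h : ℕ) : l.foldr stepV h = (h - up l) + vp l := by
  induction l with
  | nil => simp [up, vp]
  | cons t m ih =>
    rw [List.foldr_cons, ih, vp_cons, up_cons]
    cases t <;> simp only [stepU, stepV, isA, reduceCtorEq, if_true, if_false, Bool.false_eq_true] <;> omega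

theorem up_append (x y : List Tok) : up (x ++ y) = (up x - vp y) + up y := by
  unfold up
  rw [List.foldl_append]
  exact foldl_stepU y _

theorem vp_append (x y : List Tok) : vp (x ++ y) = (vp y - up x) + vp x := by
  unfold vp
  rw [List.foldr_append]
  exact foldr_stepV x _

theorem up_isA {a : Tok} (ha : isA a = true) (m : List Tok) :
    up (a :: m) = (1 - vp m) + up m := by
  rw [up_cons]
  cases a <;> simp [isA] at ha <;> rfl

theorem no_step_A {l1 l2 l1' l2' m : List Tok} {a a' : Tok} (ha : isA a = true)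
    (h1 : up l1 = 0) (h1' : up l1' = 0) (h2 : vp l2 = 0)
    (e1 : l1' = l1 ++ a :: m) (e2 : l2 = m ++ a' :: l2') : False := by
  have e3 := up_append l1 (a :: m)
  rw [← e1, h1', h1, up_isA ha] at e3
  have e4 := vp_append m (a' :: l2')
  rw [← e2, h2] at e4
  omega

theorem no_step_D {l1 l2 l1' l2' m : List Tok}
    (h1 : up l1 = 0) (h1' : up l1' = 0) (h2 : vp l2 = 0)
    (e1 : l1' = l1 ++ Tok.dd :: m) (e2 : l2 = m ++ Tok.dd :: l2') : False := by
  have e3 := up_append l1 (Tok.dd :: m)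
  rw [← e1, h1', h1, up_cons] at e3
  have e4 := vp_append m (Tok.dd :: l2')
  rw [← e2, h2, vp_cons] at e4
  simp only [stepU, stepV, isA, if_true, if_false, Bool.false_eq_true] at e3 e4
  omega

theorem split_eq {l1 l2 l1' l2' : List Tok} {a a' : Tok}
    (hno : ∀ m, l1' = l1 ++ a :: m → l2 = m ++ a' :: l2' → False)
    (hno' : ∀ m, l1 = l1' ++ a' :: m → l2' = m ++ a :: l2 → False)
    (h : l1 ++ a :: l2 = l1' ++ a' :: l2') : l1 = l1' ∧ a = a' ∧ l2 = l2' := by
  rcases List.append_eq_append_iff.1 h with ⟨m, h3, h4⟩ | ⟨m, h3, h4⟩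
  · cases m with
    | nil =>
      simp only [List.append_nil, List.nil_append, List.cons.injEq] at h3 h4
      exact ⟨h3.symm, h4.1, h4.2⟩
    | cons b m =>
      rw [List.cons_append, List.cons.injEq] at h4
      obtain ⟨rfl, h5⟩ := h4
      exact (hno m h3 h5).elim
  · cases m with
    | nil =>
      simp only [List.append_nil, List.nil_append, List.cons.injEq] at h3 h4
      exact ⟨h3, h4.1.symm, h4.2.symm⟩
    | cons b m =>
      rw [List.cons_append, List.cons.injEq] at h4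
      obtain ⟨rfl, h5⟩ := h4
      exact (hno' m h3 h5).elim

theorem tri_tok {u : List Bool} (hu : u ∈ Tri) : ∃ a : Tok, isA a = true ∧ tokW a = u := by
  simp only [Tri, List.mem_cons, List.not_mem_nil, or_false] at hu
  rcases hu with rfl | rfl | rfl
  · exact ⟨.a0, rfl, rfl⟩
  · exact ⟨.a1, rfl, rfl⟩
  · exact ⟨.a2, rfl, rfl⟩

theorem word_eq (l1 l2 : List Tok) (ρ : List Bool) (a : Tok) :
    flat l1 ++ tokW a ++ (flat l2 ++ ρ) = flat (l1 ++ a :: l2) ++ ρ := by
  rw [flat_append, flat_cons]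
  simp only [List.append_assoc]

end Tok1

open Tok1 in
theorem good_of_tokens (k r : ℕ) (J : Finset (List Tok × List Tok × List Bool))
    (hJ : ∀ x ∈ J, up x.1 = 0 ∧ vp x.2.1 = 0 ∧ x.2.2 ∈ Rem ∧
      (flat (x.1 ++ x.2.1) ++ x.2.2).count true + 1 = k ∧
      (flat (x.1 ++ x.2.1) ++ x.2.2).count false + 2 = r) :
    Good k r (J.image (fun x => (flat x.1, flat x.2.1 ++ x.2.2))) ∧
      (J.image (fun x => (flat x.1, flat x.2.1 ++ x.2.2))).card = J.card := by
  refine ⟨⟨?_, ?_, ?_⟩, ?_⟩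
  · intro w hw
    obtain ⟨⟨l1, l2, ρ⟩, hx, rfl⟩ := Finset.mem_image.1 hw
    obtain ⟨-, -, -, h4, h5⟩ := hJ _ hx
    have e : flat l1 ++ (flat l2 ++ ρ) = flat (l1 ++ l2) ++ ρ := by
      rw [flat_append, List.append_assoc]
    show (flat l1 ++ (flat l2 ++ ρ)).count true + 1 = k ∧
      (flat l1 ++ (flat l2 ++ ρ)).count false + 2 = r
    rw [e]
    exact ⟨h4, h5⟩
  · intro w hw w' hw' hne u hu v hv heq
    obtain ⟨⟨l1, l2, ρ⟩, hx, rfl⟩ := Finset.mem_image.1 hw
    obtain ⟨⟨l1', l2', ρ'⟩, hx', rfl⟩ := Finset.mem_image.1 hw'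
    obtain ⟨h1, h2, h3, -, -⟩ := hJ _ hx
    obtain ⟨h1', h2', h3', -, -⟩ := hJ _ hx'
    obtain ⟨a, ha, rfl⟩ := tri_tok hu
    obtain ⟨a', ha', rfl⟩ := tri_tok hv
    have heq' : flat l1 ++ tokW a ++ (flat l2 ++ ρ) = flat l1' ++ tokW a' ++ (flat l2' ++ ρ') := heq
    rw [word_eq, word_eq] at heq'
    obtain ⟨h4, h5⟩ := parse _ _ _ _ h3 h3' heq'
    obtain ⟨h6, h7, h8⟩ := split_eq (fun m e1 e2 => no_step_A ha h1 h1' h2 e1 e2)
      (fun m e1 e2 => no_step_A ha' h1' h1 h2' e1 e2) h4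
    apply hne
    show (flat l1, flat l2 ++ ρ) = (flat l1', flat l2' ++ ρ')
    replace h5 : ρ = ρ' := h5
    replace h6 : l1 = l1' := h6
    replace h8 : l2 = l2' := h8
    rw [h6, h8, h5]
  · intro w hw w' hw' hne heq
    obtain ⟨⟨l1, l2, ρ⟩, hx, rfl⟩ := Finset.mem_image.1 hw
    obtain ⟨⟨l1', l2', ρ'⟩, hx', rfl⟩ := Finset.mem_image.1 hw'
    obtain ⟨h1, h2, h3, -, -⟩ := hJ _ hx
    obtain ⟨h1', h2', h3', -, -⟩ := hJ _ hx'
    have heq' : flat l1 ++ tokW .dd ++ (flat l2 ++ ρ) =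
      flat l1' ++ tokW .dd ++ (flat l2' ++ ρ') := heq
    rw [word_eq, word_eq] at heq'
    obtain ⟨h4, h5⟩ := parse _ _ _ _ h3 h3' heq'
    obtain ⟨h6, h7, h8⟩ := split_eq (fun m e1 e2 => no_step_D h1 h1' h2 e1 e2)
      (fun m e1 e2 => no_step_D h1' h1 h2' e1 e2) h4
    apply hne
    show (flat l1, flat l2 ++ ρ) = (flat l1', flat l2' ++ ρ')
    replace h5 : ρ = ρ' := h5
    replace h6 : l1 = l1' := h6
    replace h8 : l2 = l2' := h8
    rw [h6, h8, h5]
  · refine Finset.card_image_of_injOn ?_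
    rintro ⟨l1, l2, ρ⟩ hx ⟨l1', l2', ρ'⟩ hx' heq
    obtain ⟨-, -, h3, -, -⟩ := hJ _ (Finset.mem_coe.1 hx)
    obtain ⟨-, -, h3', -, -⟩ := hJ _ (Finset.mem_coe.1 hx')
    simp only [Prod.mk.injEq] at heq
    have hnil : ([] : List Bool) ∈ Rem := by simp [Rem]
    obtain ⟨h4, -⟩ := parse l1 l1' [] [] hnil hnil (by rw [heq.1])
    obtain ⟨h5, h6⟩ := parse _ _ _ _ h3 h3' heq.2
    replace h6 : ρ = ρ' := h6
    rw [h4, h5, h6]

end Pool.Agent.MP8a30e7
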