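import Mathlib
import Pool.Agent.Lib.MP_8a30e7_co.Defs

/-!
# Module TOK2: bracket matching and counting of token lists
-/

open scoped BigOperators
open Polynomial

namespace Pool.Agent.MP8a30e7

namespace Tok2

theorem up_nil : up [] = 0 := rfl
theorem vp_nil : vp [] = 0 := rfl

theorem vp_cons (t : Tok) (l : List Tok) : vp (t :: l) = stepV t (vp l) := rfl

theorem foldl_eq : ∀ (l : List Tok) (h : ℕ), l.foldl stepU h = (h - vp l) + up l := by
  intro l
  induction l with
  | nil => intro h; simp [up_nil, vp_nil]
  | cons t l ih =>
    intro h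
    have e1 : up (t :: l) = (stepU 0 t - vp l) + up l := by
      unfold up
      rw [List.foldl_cons]
      exact ih _
    rw [List.foldl_cons, ih, e1, vp_cons]
    unfold stepU stepV
    cases t <;> simp [isA] <;> omega

theorem up_cons (t : Tok) (l : List Tok) : up (t :: l) = (stepU 0 t - vp l) + up l := by
  unfold up
  rw [List.foldl_cons]
  exact foldl_eq l _

theorem foldr_eq : ∀ (l : List Tok) (h : ℕ), l.foldr stepV h = (h - up l) + vp l := by
  intro l
  induction l with
  | nil => intro h; simp [up_nil, vp_nil]
  | cons t l ih =>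
    intro h
    rw [List.foldr_cons, ih, up_cons, vp_cons]
    unfold stepU stepV
    cases t <;> simp [isA] <;> omega

theorem vp_append (l m : List Tok) : vp (l ++ m) = (vp m - up l) + vp l := by
  unfold vp
  rw [List.foldr_append]
  exact foldr_eq l _

theorem balance : ∀ l : List Tok,
    up l + l.count .dd = vp l + l.countP (fun t => isA t) := by
  intro l
  induction l with
  | nil => simp [up_nil, vp_nil]
  | cons t l ih =>
    rw [up_cons, vp_cons]
    unfold stepU stepV
    cases t <;> simp [isA] at ih ⊢ <;> omega

theorem decompA : ∀ l : List Tok, 0 < up l → ∃ (l1 : List Tok) (a : Tok) (l2 : List Tok),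
    isA a = true ∧ l = l1 ++ [a] ++ l2 ∧ up l1 = 0 ∧ vp l2 = 0 := by
  intro l
  induction l with
  | nil => intro h; simp [up_nil] at h
  | cons t l ih =>
    intro h
    by_cases hc : isA t = true ∧ vp l = 0
    · exact ⟨[], t, l, hc.1, by simp, up_nil, hc.2⟩
    · have hup : 0 < up l := by
        rw [up_cons] at h
        by_cases hA : isA t = true
        · have hv : vp l ≠ 0 := fun h0 => hc ⟨hA, h0⟩
          have : stepU 0 t = 1 := by unfold stepU; simp [hA]
          omega
        · have : stepU 0 t = 0 := by unfold stepU; simp [hA]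
          omega
      obtain ⟨l1, a, l2, ha, hl, h1, h2⟩ := ih hup
      refine ⟨t :: l1, a, l2, ha, by rw [hl]; simp, ?_, h2⟩
      rw [up_cons, h1]
      by_cases hA : isA t = true
      · have hv : vp l ≠ 0 := fun h0 => hc ⟨hA, h0⟩
        have e1 : stepU 0 t = 1 := by unfold stepU; simp [hA]
        have e2 : vp l = vp l1 := by
          rw [hl, List.append_assoc, vp_append, h1]
          have : vp ([a] ++ l2) = 0 := by
            rw [List.singleton_append, vp_cons, h2]
            unfold stepV
            have : a ≠ .dd := by rintro rfl; simp [isA] at ha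
            simp [this]
          omega
        omega
      · have : stepU 0 t = 0 := by unfold stepU; simp [hA]
        omega

theorem decompD : ∀ l : List Tok, 0 < vp l → ∃ (l1 l2 : List Tok),
    l = l1 ++ [Tok.dd] ++ l2 ∧ up l1 = 0 ∧ vp l2 = 0 := by
  intro l
  induction l with
  | nil => intro h; simp [vp_nil] at h
  | cons t l ih =>
    intro h
    by_cases hv : vp l = 0
    · rw [vp_cons, hv] at h
      have ht : t = .dd := by
        by_contra hne
        unfold stepV at h
        rw [if_neg hne] at h
        split at h <;> omega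
      exact ⟨[], l, by rw [ht]; simp, up_nil, hv⟩
    · obtain ⟨l1, l2, hl, h1, h2⟩ := ih (Nat.pos_of_ne_zero hv)
      refine ⟨t :: l1, l2, by rw [hl]; simp, ?_, h2⟩
      rw [up_cons, h1]
      by_cases hA : isA t = true
      · have e1 : stepU 0 t = 1 := by unfold stepU; simp [hA]
        have hne : t ≠ .dd := by rintro rfl; simp [isA] at hA
        have e2 : vp l = 1 + vp l1 := by
          rw [hl, List.append_assoc, vp_append, h1]
          have : vp ([Tok.dd] ++ l2) = 1 := by
            rw [List.singleton_append, vp_cons, h2]
            unfold stepV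
            simp
          omega
        have e3 : vp (t :: l) = vp l - 1 := by
          rw [vp_cons]; unfold stepV; rw [if_neg hne, if_pos hA]
        omega
      · have : stepU 0 t = 0 := by unfold stepU; simp [hA]
        omega

/-- All token lists of length `n`. -/
def LL : ℕ → Finset (List Tok)
  | 0 => {[]}
  | n + 1 => ((Finset.univ : Finset Tok) ×ˢ LL n).image (fun p => p.1 :: p.2)

theorem mem_LL : ∀ (n : ℕ) (l : List Tok), l ∈ LL n ↔ l.length = n := by
  intro n
  induction n with
  | zero => intro l; simp [LL]
  | succ n ih =>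
    intro l
    simp only [LL, Finset.mem_image, Finset.mem_product, Finset.mem_univ, true_and, Prod.exists]
    constructor
    · rintro ⟨a, b, hb, rfl⟩
      rw [List.length_cons, (ih b).mp hb]
    · intro h
      cases l with
      | nil => simp at h
      | cons a b =>
        refine ⟨a, b, (ih b).mpr ?_, rfl⟩
        simpa using h

theorem length_eq : ∀ (l : List Tok), l.length =
    l.count .dd + l.countP (fun t => isA t) + l.countP (fun t => isS t) + l.count .s2 := by
  intro l
  induction l with
  | nil => simp
  | cons t l ih =>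
    cases t <;> simp [isA, isS] at ih ⊢ <;> omega

open Classical in
/-- Number of token lists of length `n` with a given property. -/
noncomputable def cnt (n : ℕ) (p : List Tok → Prop) : ℕ := ((LL n).filter p).card

theorem cnt_succ (n : ℕ) (p : List Tok → Prop) :
    cnt (n + 1) p = ∑ t : Tok, cnt n (fun l => p (t :: l)) := by
  classical
  unfold cnt
  have h : (LL (n + 1)).filter p =
      (Finset.univ : Finset Tok).biUnion (fun t =>
        ((LL n).filter (fun l => p (t :: l))).image (fun l => t :: l)) := by
    ext l
    simp only [LL, Finset.mem_filter, Finset.mem_image, Finset.mem_product, Finset.mem_univ,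
      true_and, Prod.exists, Finset.mem_biUnion]
    constructor
    · rintro ⟨⟨a, b, hb, rfl⟩, hp⟩
      exact ⟨a, b, ⟨hb, hp⟩, rfl⟩
    · rintro ⟨a, b, ⟨hb, hp⟩, rfl⟩
      exact ⟨⟨a, b, hb, rfl⟩, hp⟩
  rw [h, Finset.card_biUnion]
  · apply Finset.sum_congr rfl
    intro t _
    rw [Finset.card_image_of_injective _ (List.cons_injective)]
  · intro s _ t _ hst
    rw [Function.onFun, Finset.disjoint_left]
    intro l hl hl'
    simp only [Finset.mem_image] at hl hl'
    obtain ⟨a, _, rfl⟩ := hl
    obtain ⟨b, _, hb⟩ := hl'
    rw [List.cons.injEq] at hb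
    exact hst hb.1.symm

theorem cnt_congr (n : ℕ) (p q : List Tok → Prop) (h : ∀ l, p l ↔ q l) : cnt n p = cnt n q := by
  have : p = q := by funext l; exact propext (h l)
  rw [this]

theorem cnt_false (n : ℕ) (p : List Tok → Prop) (h : ∀ l, ¬ p l) : cnt n p = 0 := by
  classical
  unfold cnt
  rw [Finset.card_eq_zero, Finset.filter_eq_empty_iff]
  intro l _
  exact h l

/-- the common denominator -/
def den (x y α β : ℕ) : ℕ := x.factorial * y.factorial * α.factorial * β.factorial

theorem cnt_comp : ∀ (n x y α β : ℕ), x + y + α + β = n →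
    cnt n (Comp x y α β) * den x y α β = n.factorial * (3 ^ y * 2 ^ α) := by
  intro n
  induction n with
  | zero =>
    intro x y α β h
    have hx : x = 0 := by omega
    have hy : y = 0 := by omega
    have ha : α = 0 := by omega
    have hb : β = 0 := by omega
    subst hx hy ha hb
    classical
    have : (LL 0).filter (Comp 0 0 0 0) = {[]} := by
      simp [LL, Finset.filter_singleton, Comp]
    unfold cnt
    rw [this]
    simp [den]
  | succ n ih =>
    intro x y α β h
    have hdd : cnt n (fun l => Comp x y α β (Tok.dd :: l)) * den x y α β =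
        x * (n.factorial * (3 ^ y * 2 ^ α)) := by
      rcases Nat.eq_zero_or_pos x with hx | hx
      · subst hx
        rw [cnt_false, zero_mul, zero_mul]
        intro l hl
        have := hl.1
        simp at this
      · obtain ⟨x', rfl⟩ : ∃ x', x = x' + 1 := ⟨x - 1, by omega⟩
        rw [cnt_congr n _ (Comp x' y α β) (by
          intro l; unfold Comp; simp [isA, isS]), ← ih x' y α β (by omega)]
        unfold den
        rw [Nat.factorial_succ]
        ring
    have hs2 : cnt n (fun l => Comp x y α β (Tok.s2 :: l)) * den x y α β =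
        β * (n.factorial * (3 ^ y * 2 ^ α)) := by
      rcases Nat.eq_zero_or_pos β with hx | hx
      · subst hx
        rw [cnt_false, zero_mul, zero_mul]
        intro l hl
        have := hl.2.2.2
        simp at this
      · obtain ⟨β', rfl⟩ : ∃ x', β = x' + 1 := ⟨β - 1, by omega⟩
        rw [cnt_congr n _ (Comp x y α β') (by
          intro l; unfold Comp; simp [isA, isS]), ← ih x y α β' (by omega)]
        unfold den
        rw [Nat.factorial_succ]
        ring
    have ha : ∀ t : Tok, isA t = true →
        3 * (cnt n (fun l => Comp x y α β (t :: l)) * den x y α β) =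
        y * (n.factorial * (3 ^ y * 2 ^ α)) := by
      intro t ht
      rcases Nat.eq_zero_or_pos y with hx | hx
      · subst hx
        have hz : cnt n (fun l => Comp x 0 α β (t :: l)) = 0 := by
          apply cnt_false
          intro l hl
          have := hl.2.1
          simp [ht] at this
        rw [hz]; ring
      · obtain ⟨y', rfl⟩ : ∃ x', y = x' + 1 := ⟨y - 1, by omega⟩
        rw [cnt_congr n _ (Comp x y' α β) (by
          intro l; unfold Comp
          cases t <;> simp [isA] at ht <;> simp [isA, isS])]
        have e := ih x y' α β (by omega)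
        have e2 : 3 * (cnt n (Comp x y' α β) * den x (y' + 1) α β) =
            (y' + 1) * (3 * (cnt n (Comp x y' α β) * den x y' α β)) := by
          unfold den
          rw [Nat.factorial_succ]
          ring
        rw [e2, e, pow_succ]
        ring
    have hs : ∀ t : Tok, isS t = true →
        2 * (cnt n (fun l => Comp x y α β (t :: l)) * den x y α β) =
        α * (n.factorial * (3 ^ y * 2 ^ α)) := by
      intro t ht
      rcases Nat.eq_zero_or_pos α with hx | hx
      · subst hx
        have hz : cnt n (fun l => Comp x y 0 β (t :: l)) = 0 := by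
          apply cnt_false
          intro l hl
          have := hl.2.2.1
          simp [ht] at this
        rw [hz]; ring
      · obtain ⟨α', rfl⟩ : ∃ x', α = x' + 1 := ⟨α - 1, by omega⟩
        rw [cnt_congr n _ (Comp x y α' β) (by
          intro l; unfold Comp
          cases t <;> simp [isS] at ht <;> simp [isA, isS])]
        have e := ih x y α' β (by omega)
        have e2 : 2 * (cnt n (Comp x y α' β) * den x y (α' + 1) β) =
            (α' + 1) * (2 * (cnt n (Comp x y α' β) * den x y α' β)) := by
          unfold den
          rw [Nat.factorial_succ]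
          ring
        rw [e2, e, pow_succ]
        ring
    rw [cnt_succ]
    have hsum : ∑ t : Tok, cnt n (fun l => Comp x y α β (t :: l)) =
        cnt n (fun l => Comp x y α β (Tok.dd :: l)) +
        cnt n (fun l => Comp x y α β (Tok.a0 :: l)) +
        cnt n (fun l => Comp x y α β (Tok.a1 :: l)) +
        cnt n (fun l => Comp x y α β (Tok.a2 :: l)) +
        cnt n (fun l => Comp x y α β (Tok.s0 :: l)) +
        cnt n (fun l => Comp x y α β (Tok.s1 :: l)) +
        cnt n (fun l => Comp x y α β (Tok.s2 :: l)) := by
      have hu : (Finset.univ : Finset Tok) = {.dd, .a0, .a1, .a2, .s0, .s1, .s2} := rfl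
      rw [hu]
      rw [Finset.sum_insert (by decide), Finset.sum_insert (by decide),
        Finset.sum_insert (by decide), Finset.sum_insert (by decide),
        Finset.sum_insert (by decide), Finset.sum_insert (by decide), Finset.sum_singleton]
      ring
    rw [hsum]
    have a0 := ha .a0 rfl
    have a1 := ha .a1 rfl
    have a2 := ha .a2 rfl
    have s0 := hs .s0 rfl
    have s1 := hs .s1 rfl
    have hf : (n + 1).factorial * (3 ^ y * 2 ^ α) =
        (x + y + α + β) * (n.factorial * (3 ^ y * 2 ^ α)) := by
      rw [h, Nat.factorial_succ]; ring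
    rw [hf]
    have h6 : 6 * ((cnt n (fun l => Comp x y α β (Tok.dd :: l)) +
        cnt n (fun l => Comp x y α β (Tok.a0 :: l)) +
        cnt n (fun l => Comp x y α β (Tok.a1 :: l)) +
        cnt n (fun l => Comp x y α β (Tok.a2 :: l)) +
        cnt n (fun l => Comp x y α β (Tok.s0 :: l)) +
        cnt n (fun l => Comp x y α β (Tok.s1 :: l)) +
        cnt n (fun l => Comp x y α β (Tok.s2 :: l))) * den x y α β) =
        6 * ((x + y + α + β) * (n.factorial * (3 ^ y * 2 ^ α))) := by
      linear_combination 6 * hdd + 2 * a0 + 2 * a1 + 2 * a2 + 3 * s0 + 3 * s1 + 6 * hs2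
    exact Nat.eq_of_mul_eq_mul_left (by norm_num) h6

/-- All token lists of length at most `n`. -/
def LT (n : ℕ) : Finset (List Tok) := (Finset.range (n + 1)).biUnion LL

theorem mem_LT (n : ℕ) (l : List Tok) : l ∈ LT n ↔ l.length ≤ n := by
  unfold LT
  rw [Finset.mem_biUnion]
  constructor
  · rintro ⟨m, hm, hl⟩
    rw [mem_LL] at hl
    rw [Finset.mem_range] at hm
    omega
  · intro h
    exact ⟨l.length, Finset.mem_range.mpr (by omega), (mem_LL _ _).mpr rfl⟩

open Classical in
/-- The set of pairs. -/
noncomputable def JJ (x y α β : ℕ) : Finset (List Tok × List Tok) :=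
  (LT (x + y + α + β) ×ˢ LT (x + y + α + β)).filter
    (fun l => up l.1 = 0 ∧ vp l.2 = 0 ∧ Comp x y α β (l.1 ++ l.2))

theorem mem_JJ (x y α β : ℕ) (l : List Tok × List Tok) :
    l ∈ JJ x y α β ↔ (up l.1 = 0 ∧ vp l.2 = 0 ∧ Comp x y α β (l.1 ++ l.2)) := by
  classical
  unfold JJ
  rw [Finset.mem_filter, Finset.mem_product, mem_LT, mem_LT]
  constructor
  · exact fun h => h.2
  · intro h
    refine ⟨?_, h⟩
    have h1 := length_eq (l.1 ++ l.2)
    obtain ⟨c1, c2, c3, c4⟩ := h.2.2
    rw [c1, c2, c3, c4, List.length_append] at h1
    omega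

theorem card_le_A (x y α β : ℕ) (hxy : x ≤ y) :
    cnt (x + y + 1 + α + β) (Comp x (y + 1) α β) ≤ 3 * (JJ x y α β).card := by
  classical
  have h : (LL (x + y + 1 + α + β)).filter (Comp x (y + 1) α β) ⊆
      ((({.a0, .a1, .a2} : Finset Tok)) ×ˢ JJ x y α β).image
        (fun q => q.2.1 ++ [q.1] ++ q.2.2) := by
    intro l hl
    rw [Finset.mem_filter] at hl
    obtain ⟨c1, c2, c3, c4⟩ := hl.2
    have hb := balance l
    rw [c1, c2] at hb
    obtain ⟨l1, a, l2, ha, hl', h1, h2⟩ := decompA l (by omega)
    rw [Finset.mem_image]
    refine ⟨(a, (l1, l2)), ?_, hl'.symm⟩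
    rw [Finset.mem_product]
    constructor
    · cases a <;> simp [isA] at ha ⊢
    · rw [mem_JJ]
      refine ⟨h1, h2, ?_⟩
      rw [hl'] at c1 c2 c3 c4
      unfold Comp
      cases a <;> simp [isA] at ha <;>
        simp [isA, isS, List.countP_append, List.count_append] at c1 c2 c3 c4 ⊢ <;> omega
  have h2 := Finset.card_le_card h
  refine h2.trans (Finset.card_image_le.trans ?_)
  rw [Finset.card_product]
  have : ({.a0, .a1, .a2} : Finset Tok).card = 3 := by decide
  rw [this]

theorem card_le_D (x y α β : ℕ) (hxy : y < x) :
    cnt (x + y + 1 + α + β) (Comp (x + 1) y α β) ≤ (JJ x y α β).card := by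
  classical
  have h : (LL (x + y + 1 + α + β)).filter (Comp (x + 1) y α β) ⊆
      (JJ x y α β).image (fun q => q.1 ++ [Tok.dd] ++ q.2) := by
    intro l hl
    rw [Finset.mem_filter] at hl
    obtain ⟨c1, c2, c3, c4⟩ := hl.2
    have hb := balance l
    rw [c1, c2] at hb
    obtain ⟨l1, l2, hl', h1, h2⟩ := decompD l (by omega)
    rw [Finset.mem_image]
    refine ⟨(l1, l2), ?_, hl'.symm⟩
    rw [mem_JJ]
    refine ⟨h1, h2, ?_⟩
    rw [hl'] at c1 c2 c3 c4
    unfold Comp
    simp [isA, isS, List.countP_append, List.count_append] at c1 c2 c3 c4 ⊢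
    omega
  exact (Finset.card_le_card h).trans Finset.card_image_le

end Tok2

open Tok2 in
theorem exists_pairs (x y α β : ℕ) :
    ∃ J : Finset (List Tok × List Tok),
      (∀ l ∈ J, up l.1 = 0 ∧ vp l.2 = 0 ∧ Comp x y α β (l.1 ++ l.2)) ∧
      term x y α β ≤ J.card := by
  refine ⟨JJ x y α β, fun l hl => (mem_JJ x y α β l).mp hl, ?_⟩
  unfold term
  split
  · rename_i hxy
    apply Nat.div_le_of_le_mul
    have h1 := card_le_A x y α β hxy
    have h2 := cnt_comp (x + y + 1 + α + β) x (y + 1) α β (by ring)
    unfold den at h2
    have h3 : 3 * ((x + y + 1 + α + β).factorial * 3 ^ y * 2 ^ α) ≤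
        3 * (x.factorial * (y + 1).factorial * α.factorial * β.factorial *
          (JJ x y α β).card) := by
      calc 3 * ((x + y + 1 + α + β).factorial * 3 ^ y * 2 ^ α)
          = cnt (x + y + 1 + α + β) (Comp x (y + 1) α β) *
            (x.factorial * (y + 1).factorial * α.factorial * β.factorial) := by
            rw [h2, pow_succ]; ring
        _ ≤ (3 * (JJ x y α β).card) *
            (x.factorial * (y + 1).factorial * α.factorial * β.factorial) :=
            Nat.mul_le_mul_right _ h1
        _ = _ := by ring
    exact Nat.le_of_mul_le_mul_left h3 (by norm_num)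
  · rename_i hxy
    apply Nat.div_le_of_le_mul
    have h1 := card_le_D x y α β (by omega)
    have h2 := cnt_comp (x + y + 1 + α + β) (x + 1) y α β (by ring)
    unfold den at h2
    calc (x + y + 1 + α + β).factorial * 3 ^ y * 2 ^ α
        = cnt (x + y + 1 + α + β) (Comp (x + 1) y α β) *
          ((x + 1).factorial * y.factorial * α.factorial * β.factorial) := by
          rw [h2]; ring
      _ ≤ (JJ x y α β).card *
          ((x + 1).factorial * y.factorial * α.factorial * β.factorial) :=
          Nat.mul_le_mul_right _ h1
      _ = _ := by ring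

end Pool.Agent.MP8a30e7
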