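import Mathlib
import Pool.Agent.Lib.MP_8a30e7_co.Defs
import Pool.Agent.Lib.MP_8a30e7_co.Tok1
import Pool.Agent.Lib.MP_8a30e7_co.Tok2

open scoped BigOperators
open Polynomial

namespace Pool.Agent.MP8a30e7

namespace Tok3

theorem count_true_tokW (t : Tok) : (tokW t).count true =
    2 * (if t = .dd then 1 else 0) + (if isA t then 1 else 0) + 2 * (if isS t then 1 else 0) := by
  cases t <;> simp [tokW, isA, isS]

theorem count_false_tokW (t : Tok) : (tokW t).count false =
    2 * (if isA t then 1 else 0) + (if isS t then 1 else 0) + 3 * (if t = .s2 then 1 else 0) := by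
  cases t <;> simp [tokW, isA, isS]

theorem count_true_flat (l : List Tok) : (flat l).count true =
    2 * l.count .dd + l.countP (fun t => isA t) + 2 * l.countP (fun t => isS t) := by
  induction l with
  | nil => simp [flat]
  | cons t l ih =>
    have : flat (t :: l) = tokW t ++ flat l := by simp [flat]
    rw [this, List.count_append, ih, count_true_tokW]
    simp only [List.count_cons, List.countP_cons, beq_iff_eq]
    cases t <;> simp [isA, isS] <;> ring

theorem count_false_flat (l : List Tok) : (flat l).count false =
    2 * l.countP (fun t => isA t) + l.countP (fun t => isS t) + 3 * l.count .s2 := by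
  induction l with
  | nil => simp [flat]
  | cons t l ih =>
    have : flat (t :: l) = tokW t ++ flat l := by simp [flat]
    rw [this, List.count_append, ih, count_false_tokW]
    simp only [List.count_cons, List.countP_cons, beq_iff_eq]
    cases t <;> simp [isA, isS] <;> ring

/-- `y` of a term. -/
def yy (r q α β : ℕ) : ℕ := (r - (q + α + 3 * β)) / 2 - 1
/-- `x` of a term. -/
def xx (k r p q α β : ℕ) : ℕ := (k - (p + 2 * α + (yy r q α β + 1))) / 2
/-- The condition of a term. -/
def cond (k r p q α β : ℕ) : Prop :=
  2 * (yy r q α β + 1) + q + α + 3 * β = r ∧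
    2 * xx k r p q α β + (yy r q α β + 1) + p + 2 * α = k

instance (k r p q α β : ℕ) : Decidable (cond k r p q α β) := by
  unfold cond; infer_instance

theorem termK_eq (k r p q α β : ℕ) : termK k r p q α β =
    if cond k r p q α β then term (xx k r p q α β) (yy r q α β) α β else 0 := rfl

/-- The set of triples of one term. -/
noncomputable def piece (k r : ℕ) (z : ℕ × ℕ × List Bool) :
    Finset (List Tok × List Tok × List Bool) :=
  if cond k r (z.2.2.count true) (z.2.2.count false) z.1 z.2.1 then
    (exists_pairs (xx k r (z.2.2.count true) (z.2.2.count false) z.1 z.2.1)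
      (yy r (z.2.2.count false) z.1 z.2.1) z.1 z.2.1).choose.image (fun l => (l.1, l.2, z.2.2))
  else ∅

theorem piece_spec (k r : ℕ) (z : ℕ × ℕ × List Bool) (w : List Tok × List Tok × List Bool)
    (hw : w ∈ piece k r z) :
    w.2.2 = z.2.2 ∧ up w.1 = 0 ∧ vp w.2.1 = 0 ∧
      cond k r (z.2.2.count true) (z.2.2.count false) z.1 z.2.1 ∧
      Comp (xx k r (z.2.2.count true) (z.2.2.count false) z.1 z.2.1)
        (yy r (z.2.2.count false) z.1 z.2.1) z.1 z.2.1 (w.1 ++ w.2.1) := by
  unfold piece at hw
  split_ifs at hw with hc
  · rw [Finset.mem_image] at hw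
    obtain ⟨l, hl, rfl⟩ := hw
    have := (exists_pairs (xx k r (z.2.2.count true) (z.2.2.count false) z.1 z.2.1)
      (yy r (z.2.2.count false) z.1 z.2.1) z.1 z.2.1).choose_spec.1 l hl
    exact ⟨rfl, this.1, this.2.1, hc, this.2.2⟩
  · simp at hw

theorem card_piece (k r : ℕ) (z : ℕ × ℕ × List Bool) :
    termK k r (z.2.2.count true) (z.2.2.count false) z.1 z.2.1 ≤ (piece k r z).card := by
  rw [termK_eq]
  unfold piece
  split_ifs with hc
  · rw [Finset.card_image_of_injective]
    · exact (exists_pairs (xx k r (z.2.2.count true) (z.2.2.count false) z.1 z.2.1)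
        (yy r (z.2.2.count false) z.1 z.2.1) z.1 z.2.1).choose_spec.2
    · intro a b hab
      simp only [Prod.mk.injEq] at hab
      exact Prod.ext hab.1 hab.2.1
  · simp

/-- The index set. -/
def Ix (r : ℕ) : Finset (ℕ × ℕ × List Bool) :=
  Finset.range (r + 1) ×ˢ Finset.range (r + 1) ×ˢ Rem.toFinset

theorem total_eq (k r : ℕ) : total k r =
    ∑ z ∈ Ix r, termK k r (z.2.2.count true) (z.2.2.count false) z.1 z.2.1 := by
  unfold total Ix
  rw [Finset.sum_product]
  refine Finset.sum_congr rfl fun α _ => ?_
  rw [Finset.sum_product]
  refine Finset.sum_congr rfl fun β _ => ?_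
  have hR : Rem.toFinset = {[], [true], [false], [true, false], [false, true],
      [false, false]} := by
    decide
  rw [hR]
  rw [Finset.sum_insert (by decide), Finset.sum_insert (by decide), Finset.sum_insert (by decide),
    Finset.sum_insert (by decide), Finset.sum_insert (by decide), Finset.sum_singleton]
  have e1 : (([] : List Bool)).count true = 0 := by decide
  have e2 : (([] : List Bool)).count false = 0 := by decide
  have e3 : ([true] : List Bool).count true = 1 := by decide
  have e4 : ([true] : List Bool).count false = 0 := by decide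
  have e5 : ([false] : List Bool).count true = 0 := by decide
  have e6 : ([false] : List Bool).count false = 1 := by decide
  have e7 : ([true, false] : List Bool).count true = 1 := by decide
  have e8 : ([true, false] : List Bool).count false = 1 := by decide
  have e9 : ([false, true] : List Bool).count true = 1 := by decide
  have e10 : ([false, true] : List Bool).count false = 1 := by decide
  have e11 : ([false, false] : List Bool).count true = 0 := by decide
  have e12 : ([false, false] : List Bool).count false = 2 := by decide
  simp only [e1, e2, e3, e4, e5, e6, e7, e8, e9, e10, e11, e12]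
  ring

end Tok3

theorem exists_good (k r : ℕ) :
    ∃ J : Finset (List Bool × List Bool), Good k r J ∧ total k r ≤ J.card := by
  classical
  set J : Finset (List Tok × List Tok × List Bool) := (Tok3.Ix r).biUnion (Tok3.piece k r) with hJ
  have h1 := good_of_tokens k r J ?_
  · refine ⟨_, h1.1, ?_⟩
    rw [h1.2, Tok3.total_eq, hJ, Finset.card_biUnion]
    · exact Finset.sum_le_sum fun z _ => Tok3.card_piece k r z
    · intro z _ z' _ hne
      rw [Function.onFun, Finset.disjoint_left]
      intro w hw hw'
      apply hne
      obtain ⟨a1, -, -, -, a5⟩ := Tok3.piece_spec k r z w hw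
      obtain ⟨b1, -, -, -, b5⟩ := Tok3.piece_spec k r z' w hw'
      obtain ⟨-, -, c3, c4⟩ := a5
      obtain ⟨-, -, d3, d4⟩ := b5
      exact Prod.ext (c3.symm.trans d3) (Prod.ext (c4.symm.trans d4) (a1.symm.trans b1))
  · intro w hw
    rw [hJ, Finset.mem_biUnion] at hw
    obtain ⟨z, hz, hw⟩ := hw
    obtain ⟨a1, a2, a3, a4, a5⟩ := Tok3.piece_spec k r z w hw
    obtain ⟨c1, c2, c3, c4⟩ := a5
    have hz' : z.2.2 ∈ Rem := by
      simp only [Tok3.Ix, Finset.mem_product, List.mem_toFinset] at hz
      exact hz.2.2
    refine ⟨a2, a3, a1 ▸ hz', ?_, ?_⟩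
    · rw [List.count_append, Tok3.count_true_flat, a1, c1, c2, c3]
      have := a4.2
      omega
    · rw [List.count_append, Tok3.count_false_flat, a1, c2, c3, c4]
      have := a4.1
      omega

end Pool.Agent.MP8a30e7
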