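import Mathlib
import Pool.Agent.Lib.MP_8a30e7_co.Defs

/-!
# MP_8a30e7_co: from words to the family `Fam`
-/

open scoped BigOperators
open Polynomial

namespace Pool.Agent.MP8a30e7

namespace WordFam

/-- The cells covered by the dominoes of a word starting at `p`. -/
def cov : List Bool → ℕ → Finset ℕ
  | [], _ => ∅
  | true :: l, p => insert p (insert (p + 1) (cov l (p + 2)))
  | false :: l, p => cov l (p + 1)

/-- The number of cells of a word. -/
def clen : List Bool → ℕ
  | [] => 0
  | true :: l => clen l + 2
  | false :: l => clen l + 1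

theorem clen_eq (l : List Bool) : clen l = 2 * l.count true + l.count false := by
  induction l with
  | nil => rfl
  | cons b l ih =>
    cases b
    · simp [clen, ih]; ring
    · simp [clen, ih]; ring

theorem cov_bd (l : List Bool) : ∀ p x, x ∈ cov l p → p ≤ x ∧ x < p + clen l := by
  induction l with
  | nil => intro p x hx; simp [cov] at hx
  | cons b l ih =>
    intro p x hx
    cases b
    · simp only [cov] at hx
      have := ih _ _ hx
      simp only [clen]
      omega
    · simp only [cov, Finset.mem_insert] at hx
      simp only [clen]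
      rcases hx with rfl | rfl | hx
      · omega
      · omega
      · have := ih _ _ hx
        omega

theorem card_cov (l : List Bool) : ∀ p, (cov l p).card = 2 * l.count true := by
  induction l with
  | nil => intro p; simp [cov]
  | cons b l ih =>
    intro p
    cases b
    · simp only [cov]
      rw [ih]; simp
    · simp only [cov]
      rw [Finset.card_insert_of_notMem, Finset.card_insert_of_notMem, ih]
      · simp; ring
      · intro h
        have := cov_bd l _ _ h
        omega
      · intro h
        rcases Finset.mem_insert.1 h with h | h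
        · omega
        · have := cov_bd l _ _ h
          omega

theorem clen_append (l l' : List Bool) : clen (l ++ l') = clen l + clen l' := by
  rw [clen_eq, clen_eq, clen_eq]
  simp; ring

theorem cov_append (l : List Bool) : ∀ l' p,
    cov (l ++ l') p = cov l p ∪ cov l' (p + clen l) := by
  induction l with
  | nil => intro l' p; simp [cov, clen]
  | cons b l ih =>
    intro l' p
    cases b
    · simp only [List.cons_append, cov, clen]
      rw [ih]
      congr 2
      omega
    · simp only [List.cons_append, cov, clen]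
      rw [ih, Finset.insert_union, Finset.insert_union]
      congr 4
      omega

theorem cov_inj (l : List Bool) : ∀ l' p, clen l = clen l' → cov l p = cov l' p → l = l' := by
  induction l with
  | nil =>
    intro l' p h _
    cases l' with
    | nil => rfl
    | cons b l' => cases b <;> simp [clen] at h
  | cons b l ih =>
    intro l' p h hc
    cases l' with
    | nil => cases b <;> simp [clen] at h
    | cons b' l' =>
      cases b <;> cases b' <;> simp only [clen, cov] at h hc
      · rw [ih l' (p + 1) (by omega) hc]
      · have h1 : p ∈ cov l (p + 1) := by rw [hc]; simp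
        have := cov_bd l _ _ h1
        omega
      · have h1 : p ∈ cov l' (p + 1) := by rw [← hc]; simp
        have := cov_bd l' _ _ h1
        omega
      · have h2 : cov l (p + 2) = cov l' (p + 2) := by
          ext x
          constructor
          · intro hx
            have hb := cov_bd l _ _ hx
            have h3 : x ∈ insert p (insert (p + 1) (cov l' (p + 2))) := by
              rw [← hc]; simp [hx]
            rcases Finset.mem_insert.1 h3 with h3 | h3
            · omega
            · rcases Finset.mem_insert.1 h3 with h3 | h3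
              · omega
              · exact h3
          · intro hx
            have hb := cov_bd l' _ _ hx
            have h3 : x ∈ insert p (insert (p + 1) (cov l (p + 2))) := by
              rw [hc]; simp [hx]
            rcases Finset.mem_insert.1 h3 with h3 | h3
            · omega
            · rcases Finset.mem_insert.1 h3 with h3 | h3
              · omega
              · exact h3
        rw [ih l' (p + 2) (by omega) h2]

theorem pair_pos {t p : ℕ} (h1 : t ≠ p) (h2 : t ≠ p + 1) :
    0 < ((t : ℝ) - (p : ℝ)) * ((t : ℝ) - ((p + 1 : ℕ) : ℝ)) := by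
  rcases lt_or_gt_of_ne h1 with h | h
  · have h3 : (t : ℝ) < p := by exact_mod_cast h
    push_cast
    apply mul_pos_of_neg_of_neg <;> linarith
  · have h3 : (p : ℝ) + 1 < t := by exact_mod_cast (by omega : p + 1 < t)
    push_cast
    apply mul_pos <;> linarith

theorem prod_pos (l : List Bool) : ∀ p t, t ∉ cov l p →
    0 < ∏ r ∈ cov l p, ((t : ℝ) - (r : ℝ)) := by
  induction l with
  | nil => intro p t _; simp [cov]
  | cons b l ih =>
    intro p t ht
    cases b
    · simp only [cov] at ht ⊢
      exact ih _ _ ht
    · simp only [cov] at ht ⊢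
      rw [Finset.mem_insert, Finset.mem_insert] at ht
      push Not at ht
      obtain ⟨h1, h2, h3⟩ := ht
      rw [Finset.prod_insert, Finset.prod_insert, ← mul_assoc]
      · exact mul_pos (pair_pos h1 h2) (ih _ _ h3)
      · intro h
        have := cov_bd l _ _ h
        omega
      · intro h
        rcases Finset.mem_insert.1 h with h | h
        · omega
        · have := cov_bd l _ _ h
          omega

/-- The covered cells of prefix, gap of four cells, suffix. -/
def Rs (p : ℕ) (x : List Bool × List Bool) : Finset ℕ :=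
  cov x.1 p ∪ cov x.2 (p + clen x.1 + 4)

theorem cov_mid (p : ℕ) (x : List Bool × List Bool) (u : List Bool) (hu : clen u = 4) :
    cov (x.1 ++ u ++ x.2) p = Rs p x ∪ cov u (p + clen x.1) := by
  rw [cov_append, cov_append, clen_append, hu, Rs]
  rw [← add_assoc]
  ext y
  simp only [Finset.mem_union]
  tauto

theorem clen_mid (x : List Bool × List Bool) (u : List Bool) (hu : clen u = 4) :
    clen (x.1 ++ u ++ x.2) = clen (x.1 ++ x.2) + 4 := by
  rw [clen_append, clen_append, clen_append, hu]; omega

theorem Rs_bd {p : ℕ} {x : List Bool × List Bool} {y : ℕ} (hy : y ∈ Rs p x) :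
    p ≤ y ∧ y < p + clen (x.1 ++ x.2) + 4 ∧ (y < p + clen x.1 ∨ p + clen x.1 + 4 ≤ y) := by
  rw [clen_append]
  rw [Rs, Finset.mem_union] at hy
  rcases hy with hy | hy
  · have := cov_bd _ _ _ hy
    omega
  · have := cov_bd _ _ _ hy
    omega

theorem card_Rs (p : ℕ) (x : List Bool × List Bool) :
    (Rs p x).card = 2 * (x.1 ++ x.2).count true := by
  rw [Rs, Finset.card_union_of_disjoint, card_cov, card_cov, List.count_append]
  · ring
  · rw [Finset.disjoint_left]
    intro y h1 h2
    have := cov_bd _ _ _ h1
    have := cov_bd _ _ _ h2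
    omega

theorem Rs_prod_pos {p : ℕ} {x : List Bool × List Bool} {t : ℕ} (ht : t ∉ Rs p x) :
    0 < ∏ r ∈ Rs p x, ((t : ℝ) - (r : ℝ)) := by
  rw [Rs, Finset.mem_union] at ht
  push Not at ht
  rw [Rs, Finset.prod_union]
  · exact mul_pos (prod_pos _ _ _ ht.1) (prod_pos _ _ _ ht.2)
  · rw [Finset.disjoint_left]
    intro y h1 h2
    have := cov_bd _ _ _ h1
    have := cov_bd _ _ _ h2
    omega

theorem tri_spec (a : ℕ) (ha : a < 3) : ∃ u ∈ Tri, clen u = 4 ∧ u.count true = 1 ∧
    ∀ w, cov u w = {w + a, w + a + 1} := by
  interval_cases a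
  · exact ⟨[true, false, false], by simp [Tri], rfl, rfl, fun w => rfl⟩
  · exact ⟨[false, true, false], by simp [Tri], rfl, rfl, fun w => rfl⟩
  · exact ⟨[false, false, true], by simp [Tri], rfl, rfl, fun w => rfl⟩

theorem win_spec : clen [true, true] = 4 ∧ ∀ w, cov [true, true] w = {w, w + 1, w + 2, w + 3} :=
  ⟨rfl, fun w => rfl⟩

/-- Same start: equal sets give equal words. -/
theorem words_eq {p : ℕ} {x y : List Bool × List Bool} (hl : clen (x.1 ++ x.2) = clen (y.1 ++ y.2))
    {u v : List Bool} (hu : clen u = 4) (hv : clen v = 4)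
    (h : Rs p x ∪ cov u (p + clen x.1) = Rs p y ∪ cov v (p + clen y.1)) :
    x.1 ++ u ++ x.2 = y.1 ++ v ++ y.2 := by
  apply cov_inj _ _ p
  · rw [clen_mid _ _ hu, clen_mid _ _ hv, hl]
  · rw [cov_mid _ _ _ hu, cov_mid _ _ _ hv, h]

/-- Removing the two extra cells. -/
theorem strip {n : ℕ} {A B : Finset ℕ} (hA : ∀ a ∈ A, a ≠ 0 ∧ a ≠ n) (hB : ∀ a ∈ B, a ≠ 0 ∧ a ≠ n)
    (h : insert 0 (insert n A) = insert 0 (insert n B)) : A = B := by
  ext y
  constructor
  · intro hy
    have h1 : y ∈ insert 0 (insert n B) := by rw [← h]; simp [hy]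
    have := hA y hy
    simp only [Finset.mem_insert] at h1
    tauto
  · intro hy
    have h1 : y ∈ insert 0 (insert n A) := by rw [h]; simp [hy]
    have := hB y hy
    simp only [Finset.mem_insert] at h1
    tauto

/-- Different flags cannot give the same set. -/
theorem flags {n : ℕ} {l l' : List Bool} (h : cov l 0 = insert 0 (insert (n - 1) (cov l' 1)))
    (hn : 2 * l.count true < n) (hl' : 1 + clen l' = n - 1) (hn2 : 2 ≤ n) : False := by
  have hcard : (cov l 0).card < (Finset.range n).card := by
    rw [card_cov, Finset.card_range]; exact hn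
  obtain ⟨t, ht, ht'⟩ := Finset.exists_mem_notMem_of_card_lt_card hcard
  have h1 := prod_pos l 0 t ht'
  rw [h] at ht' h1
  rw [Finset.mem_insert, Finset.mem_insert] at ht'
  push Not at ht'
  obtain ⟨h2, h3, h4⟩ := ht'
  have htn := Finset.mem_range.1 ht
  rw [Finset.prod_insert, Finset.prod_insert] at h1
  · have h5 := prod_pos l' 1 t h4
    have h6 : (0 : ℝ) < t := by exact_mod_cast Nat.pos_of_ne_zero h2
    have h7 : (t : ℝ) - ((n - 1 : ℕ) : ℝ) < 0 := by
      have : t < n - 1 := by omega
      have : (t : ℝ) < ((n - 1 : ℕ) : ℝ) := by exact_mod_cast this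
      linarith
    have h8 : ((t : ℝ) - ((n - 1 : ℕ) : ℝ)) * ∏ r ∈ cov l' 1, ((t : ℝ) - (r : ℝ)) < 0 :=
      mul_neg_of_neg_of_pos h7 h5
    have h9 := mul_neg_of_pos_of_neg h6 h8
    simp only [Nat.cast_zero, sub_zero] at h1
    linarith
  · intro h
    have := cov_bd _ _ _ h
    omega
  · intro h
    rcases Finset.mem_insert.1 h with h | h
    · omega
    · have := cov_bd _ _ _ h
      omega

/-- The data for flag 0. -/
theorem len0 {k r : ℕ} {J₀ : Finset (List Bool × List Bool)} (h₀ : Good (k + 1) r J₀)
    {x : List Bool × List Bool} (hx : x ∈ J₀) :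
    clen (x.1 ++ x.2) + 4 = 2 * k + 2 + r ∧ (x.1 ++ x.2).count true = k := by
  have h1 := h₀.1 x hx
  rw [clen_eq]
  omega

theorem len1 {k r : ℕ} {J₁ : Finset (List Bool × List Bool)} (h₁ : Good k r J₁)
    {x : List Bool × List Bool} (hx : x ∈ J₁) :
    1 + clen (x.1 ++ x.2) + 4 = 2 * k + 2 + r - 1 ∧ (x.1 ++ x.2).count true + 1 = k := by
  have h1 := h₁.1 x hx
  rw [clen_eq]
  omega

end WordFam

open WordFam

theorem fam_of_good {k r : ℕ} (hr : 3 ≤ r) (J₀ J₁ : Finset (List Bool × List Bool))
    (h₀ : Good (k + 1) r J₀) (h₁ : Good k r J₁) :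
    Nonempty (Fam (2 * k + 2 + r) (2 * k) ({x // x ∈ J₀} ⊕ {x // x ∈ J₁})) := by
  set n := 2 * k + 2 + r with hn
  -- the two kinds of sets, after adding the cells of a word `u` in the window
  have key0 : ∀ (x : {x // x ∈ J₀}) (u : List Bool), clen u = 4 →
      Rs 0 x.1 ∪ cov u (0 + clen x.1.1) = cov (x.1.1 ++ u ++ x.1.2) 0 :=
    fun x u hu => (cov_mid 0 x.1 u hu).symm
  have key1 : ∀ (x : {x // x ∈ J₁}) (u : List Bool), clen u = 4 →
      insert 0 (insert (n - 1) (Rs 1 x.1)) ∪ cov u (1 + clen x.1.1) =
        insert 0 (insert (n - 1) (cov (x.1.1 ++ u ++ x.1.2) 1)) := by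
    intro x u hu
    rw [Finset.insert_union, Finset.insert_union, cov_mid 1 x.1 u hu]
  -- general statement for both conditions
  have main : ∀ (u v : List Bool), clen u = 4 → clen v = 4 →
      u.count true ≤ 2 → v.count true ≤ 2 →
      (∀ x ∈ J₀, ∀ y ∈ J₀, x ≠ y → x.1 ++ u ++ x.2 ≠ y.1 ++ v ++ y.2) →
      (∀ x ∈ J₁, ∀ y ∈ J₁, x ≠ y → x.1 ++ u ++ x.2 ≠ y.1 ++ v ++ y.2) →
      ∀ i j : {x // x ∈ J₀} ⊕ {x // x ∈ J₁}, i ≠ j →
      (Sum.elim (fun x : {x // x ∈ J₀} => Rs 0 x.1)
        (fun x : {x // x ∈ J₁} => insert 0 (insert (n - 1) (Rs 1 x.1))) i) ∪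
        cov u (Sum.elim (fun x : {x // x ∈ J₀} => 0 + clen x.1.1)
          (fun x : {x // x ∈ J₁} => 1 + clen x.1.1) i) ≠
      (Sum.elim (fun x : {x // x ∈ J₀} => Rs 0 x.1)
        (fun x : {x // x ∈ J₁} => insert 0 (insert (n - 1) (Rs 1 x.1))) j) ∪
        cov v (Sum.elim (fun x : {x // x ∈ J₀} => 0 + clen x.1.1)
          (fun x : {x // x ∈ J₁} => 1 + clen x.1.1) j) := by
    intro u v hu hv hcu hcv hg0 hg1 i j hij heq
    rcases i with x | x <;> rcases j with y | y <;> simp only [Sum.elim_inl, Sum.elim_inr] at heq
    · have hxy : x.1 ≠ y.1 := fun h => hij (by rw [Subtype.ext h])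
      have hlx := len0 h₀ x.2
      have hly := len0 h₀ y.2
      exact hg0 x.1 x.2 y.1 y.2 hxy (words_eq (by omega) hu hv heq)
    · rw [key0 x u hu, key1 y v hv] at heq
      have hlx := len0 h₀ x.2
      have hly := len1 h₁ y.2
      have hcm := clen_mid y.1 v hv
      refine flags heq ?_ (by omega) (by omega)
      have : (x.1.1 ++ u ++ x.1.2).count true = (x.1.1 ++ x.1.2).count true + u.count true := by
        simp only [List.count_append]; omega
      rw [this]
      omega
    · rw [key1 x u hu, key0 y v hv] at heq
      have hlx := len1 h₁ x.2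
      have hly := len0 h₀ y.2
      have hcm := clen_mid x.1 u hu
      refine flags heq.symm ?_ (by omega) (by omega)
      have : (y.1.1 ++ v ++ y.1.2).count true = (y.1.1 ++ y.1.2).count true + v.count true := by
        simp only [List.count_append]; omega
      rw [this]
      omega
    · have hxy : x.1 ≠ y.1 := fun h => hij (by rw [Subtype.ext h])
      have hlx := len1 h₁ x.2
      have hly := len1 h₁ y.2
      rw [key1 x u hu, key1 y v hv] at heq
      have hcx := clen_mid x.1 u hu
      have hcy := clen_mid y.1 v hv
      refine hg1 x.1 x.2 y.1 y.2 hxy (cov_inj _ _ 1 (by omega) (strip ?_ ?_ heq))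
      · intro a ha
        have := cov_bd _ _ _ ha
        omega
      · intro a ha
        have := cov_bd _ _ _ ha
        omega
  refine ⟨{
    R := Sum.elim (fun x : {x // x ∈ J₀} => Rs 0 x.1)
        (fun x : {x // x ∈ J₁} => insert 0 (insert (n - 1) (Rs 1 x.1)))
    w := Sum.elim (fun x : {x // x ∈ J₀} => 0 + clen x.1.1)
          (fun x : {x // x ∈ J₁} => 1 + clen x.1.1)
    sg := Sum.elim (fun _ => 1) (fun _ => -1)
    card_R := ?_
    R_lt := ?_
    w_lt := ?_
    w_not := ?_
    sg_or := ?_
    sign := ?_
    triple := ?_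
    win := ?_ }⟩
  · rintro (x | x)
    · simp only [Sum.elim_inl]
      rw [card_Rs, (len0 h₀ x.2).2]
    · simp only [Sum.elim_inr]
      have hl := len1 h₁ x.2
      rw [Finset.card_insert_of_notMem, Finset.card_insert_of_notMem, card_Rs]
      · omega
      · intro h
        have := Rs_bd h
        omega
      · intro h
        rcases Finset.mem_insert.1 h with h | h
        · omega
        · have := Rs_bd h
          omega
  · rintro (x | x) y hy
    · simp only [Sum.elim_inl] at hy
      have := Rs_bd hy
      have := len0 h₀ x.2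
      omega
    · simp only [Sum.elim_inr] at hy
      have hl := len1 h₁ x.2
      rw [Finset.mem_insert, Finset.mem_insert] at hy
      rcases hy with rfl | rfl | hy
      · omega
      · omega
      · have := Rs_bd hy
        omega
  · rintro (x | x)
    · simp only [Sum.elim_inl]
      have := len0 h₀ x.2
      rw [clen_append] at this
      omega
    · simp only [Sum.elim_inr]
      have := len1 h₁ x.2
      rw [clen_append] at this
      omega
  · rintro (x | x) j hj hmem
    · simp only [Sum.elim_inl] at hmem
      have := Rs_bd hmem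
      omega
    · simp only [Sum.elim_inr] at hmem
      have hl := len1 h₁ x.2
      rw [clen_append] at hl
      rw [Finset.mem_insert, Finset.mem_insert] at hmem
      rcases hmem with h | h | h
      · omega
      · omega
      · have := Rs_bd h
        omega
  · rintro (x | x)
    · left; rfl
    · right; rfl
  · rintro (x | x) t ht hmem
    · simp only [Sum.elim_inl] at hmem ⊢
      rw [one_mul]
      exact Rs_prod_pos hmem
    · simp only [Sum.elim_inr] at hmem ⊢
      have hl := len1 h₁ x.2
      rw [Finset.mem_insert, Finset.mem_insert] at hmem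
      push Not at hmem
      obtain ⟨h2, h3, h4⟩ := hmem
      rw [Finset.prod_insert, Finset.prod_insert]
      · have h5 := Rs_prod_pos h4
        have h6 : (0 : ℝ) < t := by exact_mod_cast Nat.pos_of_ne_zero h2
        have h7 : (t : ℝ) - ((n - 1 : ℕ) : ℝ) < 0 := by
          have : t < n - 1 := by omega
          have : (t : ℝ) < ((n - 1 : ℕ) : ℝ) := by exact_mod_cast this
          linarith
        have h8 : ((t : ℝ) - ((n - 1 : ℕ) : ℝ)) * ∏ r ∈ Rs 1 x.1, ((t : ℝ) - (r : ℝ)) < 0 :=
          mul_neg_of_neg_of_pos h7 h5
        have h9 := mul_neg_of_pos_of_neg h6 h8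
        simp only [Nat.cast_zero, sub_zero]
        linarith
      · intro h
        have := Rs_bd h
        omega
      · intro h
        rcases Finset.mem_insert.1 h with h | h
        · omega
        · have := Rs_bd h
          omega
  · intro i j hij a ha b hb
    obtain ⟨u, hu, hu4, huc, hucov⟩ := tri_spec a ha
    obtain ⟨v, hv, hv4, hvc, hvcov⟩ := tri_spec b hb
    have := main u v hu4 hv4 (by omega) (by omega)
      (fun x hx y hy hxy => h₀.2.1 x hx y hy hxy u hu v hv)
      (fun x hx y hy hxy => h₁.2.1 x hx y hy hxy u hu v hv) i j hij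
    rw [hucov, hvcov] at this
    exact this
  · intro i j hij
    have := main [true, true] [true, true] win_spec.1 win_spec.1 (by simp) (by simp)
      (fun x hx y hy hxy => h₀.2.2 x hx y hy hxy)
      (fun x hx y hy hxy => h₁.2.2 x hx y hy hxy) i j hij
    rw [win_spec.2, win_spec.2] at this
    exact this

end Pool.Agent.MP8a30e7
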