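import Mathlib
import Pool.Agent.Lib.MP_8a30e7_co.Defs
import Pool.Agent.Lib.MP_8a30e7_co.Hull
import Pool.Agent.Lib.MP_8a30e7_co.Face
import Pool.Agent.Lib.MP_8a30e7_co.Giso
import Pool.Agent.Lib.MP_8a30e7_co.Obs
import Pool.Agent.Lib.MP_8a30e7_co.Low
import Pool.Agent.Lib.MP_8a30e7_co.High
import Pool.Agent.Lib.MP_8a30e7_co.WordFam
import Pool.Agent.Lib.MP_8a30e7_co.Tok3
import Pool.Agent.Lib.MP_8a30e7_co.Num

/-!
# Final assembly

A graph which is the graph of a 72-polytope and of a 74-polytope, but of no 73-polytope.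
-/

open scoped BigOperators
open Polynomial

namespace Pool.Agent.MP8a30e7

theorem edg_symm {d : ℕ} {ι : Type} {p : ι → E d} {i j : ι} (h : Edg p i j) : Edg p j i := by
  obtain ⟨f, h1, h2⟩ := h
  exact ⟨f, h1.symm, fun k hk hk' => h1 ▸ h2 k hk' hk⟩

theorem adj_symm {n : ℕ} {I : Type} {F : I → Finset ℕ} (x y : Fin n ⊕ I) (h : Adj F x y) :
    Adj F y x := by
  rcases x with a | i <;> rcases y with b | j <;> simp_all [Adj]
  exact fun h' => h h'.symm

/-- The core: a family with more than `C(63, 36)` members gives a counterexample. -/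
theorem core {I : Type} [Fintype I] [DecidableEq I] (𝔉 : Fam 100 70 I)
    (hcard : (63).choose 36 < Fintype.card I) :
    ∃ (P : Finset (E 72)) (Q : Finset (E 74)),
    affineSpan ℝ (P : Set (E 72)) = ⊤ ∧ affineSpan ℝ (Q : Set (E 74)) = ⊤ ∧
    Nonempty (Faces (convexHull ℝ (P : Set (E 72))) ≃o Faces (convexHull ℝ (Q : Set (E 74)))) ∧
    ¬ ∃ R : Finset (E 73), affineSpan ℝ (R : Set (E 73)) = ⊤ ∧
      Nonempty (Faces (convexHull ℝ (R : Set (E 73))) ≃o
        Faces (convexHull ℝ (P : Set (E 72)))) := by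
  classical
  obtain ⟨p, hp, hpe, hps⟩ := real_low 𝔉 (by norm_num) (by norm_num)
  obtain ⟨q, hq, hqe, hqs⟩ := real_high 𝔉 (by norm_num)
  have hcoep : ((Finset.univ.image p : Finset (E 72)) : Set (E 72)) = Set.range p := by
    simp
  have hcoeq : ((Finset.univ.image q : Finset (E 74)) : Set (E 74)) = Set.range q := by
    simp
  obtain ⟨ep⟩ := faces_iso p hp
  obtain ⟨eq⟩ := faces_iso q hq
  obtain ⟨e1⟩ := gpos_congr (Edg p) (Adj 𝔉.F) hpe
  obtain ⟨e2⟩ := gpos_congr (Edg q) (Adj 𝔉.F) hqe
  refine ⟨Finset.univ.image p, Finset.univ.image q, by rw [hcoep]; exact hps,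
    by rw [hcoeq]; exact hqs, ?_, ?_⟩
  · rw [hcoep, hcoeq]
    exact ⟨(ep.trans e1).trans (eq.trans e2).symm⟩
  · rintro ⟨R, hR, ⟨eR⟩⟩
    rw [hcoep] at eR
    obtain ⟨κ, _, s, hs, hsR⟩ := exists_vertices R
    obtain ⟨es⟩ := faces_iso s hs
    rw [hsR] at es
    have e3 : Nonempty (GPos κ (Edg s) ≃o GPos (Fin 100 ⊕ I) (Adj 𝔉.F)) :=
      ⟨(es.symm.trans eR).trans (ep.trans e1)⟩
    obtain ⟨g, hg⟩ := gpos_iso (Edg s) (Adj 𝔉.F) (fun i j h => edg_symm h)
      (fun i j h => adj_symm i j h) e3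
    -- the points indexed by `Fin 100 ⊕ I`
    have hv' : ∀ x, Vtx (d := 2 * 36 + 1) (fun x => s (g.symm x)) x := by
      intro x
      obtain ⟨f, hf⟩ := hs (g.symm x)
      refine ⟨f, fun j hj => hf _ ?_⟩
      intro h
      exact hj (g.symm.injective h)
    have hE' : ∀ x y, x ≠ y →
        (Edg (d := 2 * 36 + 1) (fun x => s (g.symm x)) x y ↔ Adj 𝔉.F x y) := by
      intro x y hxy
      have h1 : Edg (d := 2 * 36 + 1) (fun x => s (g.symm x)) x y ↔
          Edg s (g.symm x) (g.symm y) := by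
        constructor
        · rintro ⟨f, h1, h2⟩
          refine ⟨f, h1, fun k hk hk' => ?_⟩
          have := h2 (g k) (fun h => hk (by rw [← h]; simp)) (fun h => hk' (by rw [← h]; simp))
          simpa using this
        · rintro ⟨f, h1, h2⟩
          refine ⟨f, h1, fun k hk hk' => h2 _ ?_ ?_⟩
          · exact fun h => hk (g.symm.injective h)
          · exact fun h => hk' (g.symm.injective h)
      rw [h1, hg _ _ (fun h => hxy (g.symm.injective h))]
      simp
    have hspan : affineSpan ℝ (Set.range (fun x => s (g.symm x))) = ⊤ := by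
      have h1 : Set.range (fun x => s (g.symm x)) = Set.range s :=
        g.symm.surjective.range_comp s
      rw [h1, ← affineSpan_convexHull, hsR, affineSpan_convexHull]
      exact hR
    have hF : ∀ i, ∀ x ∈ 𝔉.F i, x < 100 := by
      intro i x hx
      have h1 := 𝔉.w_lt i
      rw [Fam.F] at hx
      rcases Finset.mem_union.mp hx with h | h
      · exact 𝔉.R_lt i x h
      · simp only [Finset.mem_insert, Finset.mem_singleton] at h
        omega
    have hFc : ∀ i, (𝔉.F i).card = 74 := by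
      intro i
      rw [Fam.F, Finset.card_union_of_disjoint, 𝔉.card_R]
      · rw [Finset.card_insert_of_notMem, Finset.card_insert_of_notMem,
          Finset.card_insert_of_notMem, Finset.card_singleton] <;> simp
      · rw [Finset.disjoint_left]
        intro x hx hx'
        simp only [Finset.mem_insert, Finset.mem_singleton] at hx'
        rcases hx' with h | h | h | h
        · exact 𝔉.w_not i 0 (by norm_num) (by simpa [h] using hx)
        · exact 𝔉.w_not i 1 (by norm_num) (by simpa [h] using hx)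
        · exact 𝔉.w_not i 2 (by norm_num) (by simpa [h] using hx)
        · exact 𝔉.w_not i 3 (by norm_num) (by simpa [h] using hx)
    have := obstruction (m := 36) (fun x => s (g.symm x)) hv' hspan
      (fun i => Finset.univ.filter (fun x : Fin 100 => (x : ℕ) ∈ 𝔉.F i))
      ?_ ?_ ?_ ?_
    · simp only [Fintype.card_fin] at this
      have h2 : 100 - 36 - 1 = 63 := by norm_num
      rw [h2] at this
      omega
    · intro i
      have h1 : (Finset.univ.filter
          (fun x : Fin 100 => (x : ℕ) ∈ 𝔉.F i)).map Fin.valEmbedding = 𝔉.F i := by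
        ext x
        simp only [Finset.mem_map, Finset.mem_filter, Finset.mem_univ, true_and,
          Fin.valEmbedding_apply]
        constructor
        · rintro ⟨y, hy, rfl⟩
          exact hy
        · intro hx
          exact ⟨⟨x, hF i x hx⟩, hx, rfl⟩
      rw [← Finset.card_map, h1, hFc]
    · intro i x hx
      rw [hE' _ _ (by simp)]
      simpa [Adj] using hx
    · intro i j hij
      rw [hE' _ _ (fun h => hij (Sum.inr_injective h))]
      simp [Adj]
    · simp

theorem main : ∃ (P : Finset (E 72)) (Q : Finset (E 74)),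
    affineSpan ℝ (P : Set (E 72)) = ⊤ ∧ affineSpan ℝ (Q : Set (E 74)) = ⊤ ∧
    Nonempty (Faces (convexHull ℝ (P : Set (E 72))) ≃o Faces (convexHull ℝ (Q : Set (E 74)))) ∧
    ¬ ∃ R : Finset (E 73), affineSpan ℝ (R : Set (E 73)) = ⊤ ∧
      Nonempty (Faces (convexHull ℝ (R : Set (E 73))) ≃o
        Faces (convexHull ℝ (P : Set (E 72)))) := by
  classical
  obtain ⟨J₀, hJ₀, hc₀⟩ := exists_good 36 28
  obtain ⟨J₁, hJ₁, hc₁⟩ := exists_good 35 28
  obtain ⟨𝔉⟩ := fam_of_good (k := 35) (r := 28) (by norm_num) J₀ J₁ hJ₀ hJ₁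
  refine core 𝔉 ?_
  have h1 : Fintype.card ({x // x ∈ J₀} ⊕ {x // x ∈ J₁}) = J₀.card + J₁.card := by
    simp
  have := total_gt
  rw [h1]
  omega

end Pool.Agent.MP8a30e7
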